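import Mathlib
import Pool.Agent.H.MP_fc94d9_co.J
open MeasureTheory Set Filter Topology
open scoped ENNReal Nat
open Pool.Agent.H.MP_fc94d9_co
namespace Pool.Agent.H.MP_8b2bd9_co

def sc (b k : ℕ) : G → G := mat (1 / b ^ k) 0 0 (1 / b ^ k)

def Str (b k h : ℕ) : Set Y := {x | ∃ d, 0 < d ∧ d ≤ h ∧ Nat.Coprime d b ∧
  ∃ ξ : ℝ × ℝ, ‖ξ‖ ≤ h ∧ d • th ((x - ell ξ) ∘ sc b k) = 0}

def CT (b : ℕ) : Set Y := {x | ∃ d, 0 < d ∧ ∃ ξ : ℝ × ℝ, ∀ k, d • th ((x - ell ξ) ∘ sc b k) = 0}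

theorem ad_sc {x : Y} (h : Ad x) (b k : ℕ) : Ad (x ∘ sc b k) := h.mat _ _ _ _

theorem closed_Str (b k h : ℕ) : IsClosed (Str b k h) := by
  have : CompactSpace (Metric.closedBall (0 : ℝ × ℝ) h) :=
    isCompact_iff_compactSpace.1 (isCompact_closedBall _ _)
  have e : Str b k h = ⋃ d ∈ {d : ℕ | 0 < d ∧ d ≤ h ∧ Nat.Coprime d b},
      Prod.fst '' {p : Y × Metric.closedBall (0 : ℝ × ℝ) h |
        d • th ((p.1 - ell p.2) ∘ sc b k) = 0} := by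
    ext x
    simp only [Str, mem_setOf_eq, mem_iUnion, mem_image, exists_prop]
    constructor
    · rintro ⟨d, h1, h2, h3, ξ, h4, h5⟩
      exact ⟨d, ⟨h1, h2, h3⟩, (x, ⟨ξ, mem_closedBall_zero_iff.2 h4⟩), h5, rfl⟩
    · rintro ⟨d, ⟨h1, h2, h3⟩, p, h5, rfl⟩
      exact ⟨d, h1, h2, h3, p.2, mem_closedBall_zero_iff.1 p.2.2, h5⟩
  rw [e]
  refine ((finite_Iic h).subset fun d hd => hd.2.1).isClosed_biUnion fun d _ => ?_
  refine isClosedMap_fst_of_compactSpace _ (isClosed_eq ?_ continuous_const)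
  have h1 : Continuous fun p : Y × Metric.closedBall (0 : ℝ × ℝ) h => p.1 - ell p.2 :=
    continuous_fst.sub (cont_ell.comp (continuous_subtype_val.comp continuous_snd))
  have h2 : Continuous fun y : Y => y ∘ sc b k := continuous_pi fun z => continuous_apply _
  exact (continuous_nsmul d).comp (cont_th.comp (h2.comp h1))

theorem th_sc {y : Y} (h : Ad y) {b : ℕ} (hb : 0 < b) (k e : ℕ) :
    th (y ∘ sc b k) = b ^ e • th (y ∘ sc b (k + e)) := by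
  have hb' : (b : ℚ) ≠ 0 := by positivity
  ext
  · show y (sc b k (1, 0)) = b ^ e • y (sc b (k + e) (1, 0))
    rw [← h.nsmul]; congr 1
    ext <;> simp [sc, mat, pow_add] <;> field_simp
  · show y (sc b k (0, 1)) = b ^ e • y (sc b (k + e) (0, 1))
    rw [← h.nsmul]; congr 1
    ext <;> simp [sc, mat, pow_add] <;> field_simp

theorem kill_mono {y : Y} (h : Ad y) {b : ℕ} (hb : 0 < b) {k k' d : ℕ} (hk : k ≤ k')
    (hd : d • th (y ∘ sc b k') = 0) : d • th (y ∘ sc b k) = 0 := by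
  obtain ⟨e, rfl⟩ := Nat.exists_eq_add_of_le hk
  rw [th_sc h hb k e, smul_comm, hd, smul_zero]

theorem Str_mono (b k : ℕ) {h h' : ℕ} (hh : h ≤ h') : Str b k h ⊆ Str b k h' := by
  rintro x ⟨d, h1, h2, h3, ξ, h4, h5⟩
  exact ⟨d, h1, h2.trans hh, h3, ξ, h4.trans (by exact_mod_cast hh), h5⟩

theorem sc_gu (x : Y) (b k : ℕ) (m t : ℚ) : (x ∘ gu m t) ∘ sc b k = (x ∘ sc b k) ∘ gu m t := by
  funext z
  simp only [Function.comp]
  congr 1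
  ext <;> simp only [sc, gu, mat] <;> ring

theorem th_ell (ξ : ℝ × ℝ) (b k : ℕ) :
    th (ell ξ ∘ sc b k) = (((ξ.1 / b ^ k : ℝ) : T), ((ξ.2 / b ^ k : ℝ) : T)) := by
  simp [th, ell, sc, mat, div_eq_mul_inv]

theorem top_str {m V H b κ : ℕ} (hb : 0 < b) (hm : 1 ≤ m) (hV : 16 * (1 + m) * V ^ 2 ≤ H) {x : Y}
    (hx : Ad x) {t s : ℕ} (ht : t < 2 * V) (hs : s < 2 * V) (hne : t ≠ s)
    (h : ‖th ((x ∘ gu m t) ∘ sc b κ) - th ((x ∘ gu m s) ∘ sc b κ)‖ ≤ 1 / b ^ κ) :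
    ∃ g, 0 < g ∧ g ≤ H ∧ ∃ ξ : ℝ × ℝ, ‖ξ‖ ≤ H ^ 2 ∧ g • th ((x - ell ξ) ∘ sc b κ) = 0 := by
  rw [sc_gu, sc_gu] at h
  obtain ⟨τ, h1, h2, h3⟩ := top_near hm hV (ad_sc hx b κ) ht hs hne h
  obtain ⟨r1, a1, a2⟩ := exists_rep (th (x ∘ sc b κ) - τ).1
  obtain ⟨r2, b1, b2⟩ := exists_rep (th (x ∘ sc b κ) - τ).2
  have hp : (0 : ℝ) < b ^ κ := by positivity
  rw [mul_one_div, le_div_iff₀ hp] at h3
  refine ⟨_, h1, h2, (r1 * b ^ κ, r2 * b ^ κ), ?_, ?_⟩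
  · rw [Prod.norm_def, max_le_iff]
    simp only [Real.norm_eq_abs, abs_mul, abs_of_pos hp, a2, b2]
    constructor
    · exact le_trans (mul_le_mul_of_nonneg_right (norm_fst_le _) hp.le) h3
    · exact le_trans (mul_le_mul_of_nonneg_right (norm_snd_le _) hp.le) h3
  · have : th ((x - ell (r1 * b ^ κ, r2 * b ^ κ)) ∘ sc b κ) = τ := by
      change th (x ∘ sc b κ) - th (ell _ ∘ sc b κ) = τ
      rw [th_ell]
      simp only [mul_div_cancel_right₀ _ hp.ne', a1, b1]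
      ext <;> simp
    rw [this]; exact addOrderOf_nsmul_eq_zero τ

theorem strip (b e g : ℕ) (hg : 0 < g) (h : g ≤ 2 ^ e) :
    ∃ d, d ∣ g ∧ Nat.Coprime d b ∧ g ∣ d * b ^ e := by
  induction e generalizing g with
  | zero => exact ⟨1, one_dvd _, Nat.coprime_one_left _, by
      have : g = 1 := by omega
      simp [this]⟩
  | succ e ih =>
    by_cases hc : Nat.Coprime g b
    · exact ⟨g, dvd_rfl, hc, Dvd.intro _ rfl⟩
    · obtain ⟨p, hp, ⟨g', rfl⟩, h2⟩ := Nat.Prime.not_coprime_iff_dvd.1 hc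
      have := hp.two_le
      obtain ⟨d, a1, a2, a3⟩ := ih g' (Nat.pos_of_mul_pos_left hg) (by rw [pow_succ] at h; nlinarith)
      refine ⟨d, a1.mul_left _, a2, ?_⟩
      rw [pow_succ, ← mul_assoc, mul_comm p]
      exact mul_dvd_mul a3 h2

theorem albe (m t : ℕ) : ((al m t : ℚ) : ℝ) ^ 2 + m * ((be m t : ℚ) : ℝ) ^ 2 = 1 := by
  have h : (0 : ℝ) < 1 + m * t ^ 2 := by positivity
  simp only [al, be]; push_cast; field_simp; ring

theorem norm_rot {m : ℕ} {p q : ℝ} (hp : |p| ≤ 1) (hq : |q| ≤ 1) (ξ : ℝ × ℝ) (hm : 1 ≤ m) :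
    ‖((p * ξ.1 + q * ξ.2, -(m * q) * ξ.1 + p * ξ.2) : ℝ × ℝ)‖ ≤ (m + 1) * ‖ξ‖ ∧
    ‖((p * ξ.1 - q * ξ.2, m * q * ξ.1 + p * ξ.2) : ℝ × ℝ)‖ ≤ (m + 1) * ‖ξ‖ := by
  have h1 : |ξ.1| ≤ ‖ξ‖ := norm_fst_le ξ
  have h2 : |ξ.2| ≤ ‖ξ‖ := norm_snd_le ξ
  have m1 : (1 : ℝ) ≤ m := by exact_mod_cast hm
  have n0 := norm_nonneg ξ
  have a1 : |p * ξ.1| ≤ 1 * ‖ξ‖ := by rw [abs_mul]; gcongr
  have a2 : |p * ξ.2| ≤ 1 * ‖ξ‖ := by rw [abs_mul]; gcongr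
  have a3 : |q * ξ.2| ≤ 1 * ‖ξ‖ := by rw [abs_mul]; gcongr
  have a4 : |m * q * ξ.1| ≤ m * 1 * ‖ξ‖ := by
    rw [abs_mul, abs_mul, abs_of_nonneg (by positivity : (0 : ℝ) ≤ m)]; gcongr
  have a5 : ‖ξ‖ ≤ m * ‖ξ‖ := le_mul_of_one_le_left n0 m1
  rw [abs_le] at a1 a2 a3 a4
  generalize ‖ξ‖ = c at *
  simp only [Prod.norm_def, max_le_iff, Real.norm_eq_abs, abs_le]
  refine ⟨⟨⟨?_, ?_⟩, ?_, ?_⟩, ⟨?_, ?_⟩, ?_, ?_⟩ <;>
    linarith [a1.1, a1.2, a2.1, a2.2, a3.1, a3.2, a4.1, a4.2]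

theorem cop {m b t d : ℕ} (hbm : b ∣ m) (h : Nat.Coprime d b) :
    Nat.Coprime (d * (1 + m * t ^ 2)) b := by
  obtain ⟨c, rfl⟩ := hbm
  refine Nat.Coprime.mul_left h ?_
  rw [mul_assoc, Nat.coprime_add_mul_left_left]
  exact Nat.coprime_one_left _

theorem rot_fwd {m b k h t H : ℕ} (hm : 1 ≤ m) (hbm : b ∣ m) (h1 : 1 + m * t ^ 2 ≤ H)
    (h2 : m + 1 ≤ H) {x : Y} (hx : Ad x) (hs : x ∈ Str b k h) : x ∘ gu m t ∈ Str b k (h * H) := by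
  obtain ⟨d, a1, a2, a3, ξ, a4, a5⟩ := hs
  refine ⟨d * (1 + m * t ^ 2), by positivity, Nat.mul_le_mul a2 h1, cop hbm a3,
    (((al m t : ℚ) : ℝ) * ξ.1 + ((be m t : ℚ) : ℝ) * ξ.2,
      -(m * ((be m t : ℚ) : ℝ)) * ξ.1 + ((al m t : ℚ) : ℝ) * ξ.2), ?_, ?_⟩
  · refine (norm_rot (al_le m t) (be_le m t hm) ξ hm).1.trans ?_
    have : (m : ℝ) + 1 ≤ H := by exact_mod_cast h2
    rw [Nat.cast_mul, mul_comm]; gcongr
  · have := ord_fwd (ad_sc (hx.sub' (ad_ell ξ)) b k) m t a5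
    rw [← sc_gu] at this
    have e := ell_mat ξ (al m t) (-(m * be m t)) (be m t) (al m t)
    push_cast at e
    rw [← e]
    exact this

theorem rot_bwd {m b k h t H : ℕ} (hm : 1 ≤ m) (hbm : b ∣ m) (h1 : 1 + m * t ^ 2 ≤ H)
    (h2 : m + 1 ≤ H) {x : Y} (hx : Ad x) (hs : x ∘ gu m t ∈ Str b k h) : x ∈ Str b k (h * H) := by
  obtain ⟨d, a1, a2, a3, ξ, a4, a5⟩ := hs
  refine ⟨d * (1 + m * t ^ 2), by positivity, Nat.mul_le_mul a2 h1, cop hbm a3,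
    (((al m t : ℚ) : ℝ) * ξ.1 - ((be m t : ℚ) : ℝ) * ξ.2,
      m * ((be m t : ℚ) : ℝ) * ξ.1 + ((al m t : ℚ) : ℝ) * ξ.2), ?_, ?_⟩
  · refine (norm_rot (al_le m t) (be_le m t hm) ξ hm).2.trans ?_
    have : (m : ℝ) + 1 ≤ H := by exact_mod_cast h2
    rw [Nat.cast_mul, mul_comm]; gcongr
  · apply ord_bwd (ad_sc (hx.sub' (ad_ell _)) b k) m t
    rw [← sc_gu]
    have e := ell_mat (((al m t : ℚ) : ℝ) * ξ.1 - ((be m t : ℚ) : ℝ) * ξ.2,
      m * ((be m t : ℚ) : ℝ) * ξ.1 + ((al m t : ℚ) : ℝ) * ξ.2)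
      (al m t) (-(m * be m t)) (be m t) (al m t)
    have e2 := albe m t
    have e3 : ell ξ = ell (((al m t : ℚ) : ℝ) * ξ.1 - ((be m t : ℚ) : ℝ) * ξ.2,
      m * ((be m t : ℚ) : ℝ) * ξ.1 + ((al m t : ℚ) : ℝ) * ξ.2) ∘ gu m t := by
      rw [gu, e]
      congr 1
      ext
      · simp only; linear_combination (-ξ.1) * e2
      · simp only; push_cast; linear_combination (-ξ.2) * e2
    rw [e3] at a5
    exact a5

theorem coe_small {n : ℕ} (hn : 0 < n) {r : ℝ} (h : n • (r : T) = 0) (h2 : n * |r| < 1) : r = 0 := by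
  rw [← AddCircle.coe_nsmul, AddCircle.coe_eq_zero_iff] at h
  obtain ⟨z, hz⟩ := h
  rw [zsmul_eq_mul, mul_one, nsmul_eq_mul] at hz
  have n0 : (0 : ℝ) < n := by exact_mod_cast hn
  have : |(z : ℝ)| < 1 := by rw [hz, abs_mul, abs_of_pos n0]; exact h2
  have z0 : z = 0 := Int.abs_lt_one_iff.1 (by exact_mod_cast this)
  rw [z0, Int.cast_zero] at hz
  exact (mul_eq_zero.1 hz.symm).resolve_left n0.ne'

theorem uniq {x : Y} {b k d g : ℕ} (hb : 0 < b) (hd : 0 < d) (hg : 0 < g) {ξ ζ : ℝ × ℝ}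
    (h1 : d • th ((x - ell ξ) ∘ sc b k) = 0) (h2 : g • th ((x - ell ζ) ∘ sc b k) = 0)
    (h : (d * g : ℕ) * (‖ξ‖ + ‖ζ‖) < b ^ k) : ξ = ζ := by
  have e : th ((x - ell ζ) ∘ sc b k) - th ((x - ell ξ) ∘ sc b k) = th (ell (ξ - ζ) ∘ sc b k) := by
    rw [ell_sub]; ext <;> simp [th]
  have h3 : (d * g) • th (ell (ξ - ζ) ∘ sc b k) = 0 := by
    rw [← e, smul_sub, mul_nsmul', h2, mul_nsmul, h1]; simp
  rw [th_ell] at h3
  have hp : (0 : ℝ) < b ^ k := by positivity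
  have key : ∀ r : ℝ, |r| ≤ ‖ξ - ζ‖ → (d * g) • ((r / b ^ k : ℝ) : T) = 0 → r = 0 := by
    intro r hr h4
    have := coe_small (Nat.mul_pos hd hg) h4 (by
      rw [abs_div, abs_of_pos hp, ← mul_div_assoc, div_lt_one hp]
      refine lt_of_le_of_lt ?_ h
      gcongr
      exact hr.trans (norm_sub_le _ _))
    exact (div_eq_zero_iff.1 this).resolve_right hp.ne'
  rw [← sub_eq_zero]
  exact Prod.ext (key _ (norm_fst_le (ξ - ζ)) (congrArg Prod.fst h3))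
    (key _ (norm_snd_le (ξ - ζ)) (congrArg Prod.snd h3))

theorem rigid {x : Y} (hx : Ad x) {b k k0 h h2 g : ℕ} (hb : 0 < b) (hk : k0 ≤ k)
    (hs : x ∈ Str b k h) (hg : 0 < g) (hg2 : g ≤ h2) {ζ : ℝ × ℝ} (hζ : ‖ζ‖ ≤ h2)
    (h3 : g • th ((x - ell ζ) ∘ sc b k0) = 0) (hlt : h * h2 * (h + h2) < b ^ k0) :
    x ∈ Str b k h2 := by
  obtain ⟨d, a1, a2, a3, ξ, a4, a5⟩ := hs
  have e : ξ = ζ := uniq hb a1 hg (kill_mono (hx.sub' (ad_ell ξ)) hb hk a5) h3 (by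
    have b1 : ((h * h2 * (h + h2) : ℕ) : ℝ) < b ^ k0 := by exact_mod_cast hlt
    refine lt_of_le_of_lt ?_ b1
    push_cast
    gcongr)
  subst e
  obtain ⟨e, rfl⟩ := Nat.exists_eq_add_of_le hk
  rw [th_sc (hx.sub' (ad_ell ξ)) hb k0 e, ← mul_nsmul'] at h3
  have c1 := addOrderOf_dvd_of_nsmul_eq_zero a5
  have c2 := addOrderOf_dvd_of_nsmul_eq_zero h3
  have c3 := Nat.Coprime.coprime_dvd_left c1 a3
  have c4 := (c3.pow_right e).dvd_of_dvd_mul_right c2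
  exact ⟨_, Nat.pos_of_dvd_of_pos c1 a1, (Nat.le_of_dvd hg c4).trans hg2, c3, ξ, hζ,
    addOrderOf_nsmul_eq_zero _⟩

theorem find_sc (P : ℕ → Prop) (H : ℕ → ℕ) (hH : ∀ j, H (j + 1) = H j ^ 2) (J : ℕ)
    (h : P (H J ^ 3)) : P (H 0 ^ 3) ∨ ∃ j < J, ¬ P (H j ^ 3) ∧ P (H j ^ 6) := by
  induction J with
  | zero => exact Or.inl h
  | succ J ih =>
    by_cases h1 : P (H J ^ 3)
    · rcases ih h1 with h2 | ⟨j, h2, h3⟩
      · exact Or.inl h2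
      · exact Or.inr ⟨j, by omega, h3⟩
    · refine Or.inr ⟨J, by omega, h1, ?_⟩
      rw [hH, ← pow_mul] at h; exact h

open Classical in
theorem EF_lev (m b : ℕ) (hm : 1 ≤ m) (hb : 2 ≤ b) (hbm : b ∣ m) (lam : Measure Y)
    (had : ∀ᵐ x ∂lam, Ad x)
    (hinv : ∀ t : ℕ, MeasurePreserving (fun x : Y => x ∘ gu m t) lam lam)
    {Gd : Set Y} (hG : MeasurableSet Gd) (H V κ : ℕ → ℕ)
    (hH : ∀ j, H (j + 1) = H j ^ 2) (hVp : ∀ j, 0 < V j)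
    (hV : ∀ j, 16 * (1 + m) * V j ^ 2 ≤ H j) (hκ : ∀ j, κ (j + 1) = κ j + κ j)
    (hHκ : ∀ j, H j ^ 16 ≤ 2 ^ κ j)
    (cover : ∀ j (F : Finset ℕ) (y : ℕ → Y), (∀ t ∈ F, Ad (y t) ∧ y t ∈ Gd) → V j < F.card →
      ∃ t ∈ F, ∃ s ∈ F, t ≠ s ∧
        ‖th (y t ∘ sc b (κ j)) - th (y s ∘ sc b (κ j))‖ ≤ 1 / b ^ κ j) (J : ℕ) :
    lam (Str b (κ J) (H 0 ^ 3))ᶜ ≤ 6 * lam Gdᶜ := by
  have b0 : 0 < b := by omega
  have hbig : ∀ j, 16 * (1 + m) ≤ H j := fun j => by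
    have : 1 ≤ V j ^ 2 := Nat.one_le_pow _ _ (hVp j)
    nlinarith [hV j]
  have hmono : Monotone H := monotone_nat_of_le_succ fun j => by
    rw [hH]; exact Nat.le_self_pow (by norm_num) _
  have hκm : Monotone κ := monotone_nat_of_le_succ fun j => by rw [hκ]; omega
  have hS : ∀ h, MeasurableSet (Str b (κ J) h) := fun h => (closed_Str _ _ _).measurableSet
  set E : Set Y := {x | V (J + 1) < ((Finset.range (2 * V (J + 1))).filter
    (fun t : ℕ => x ∘ gu m t ∈ Gd)).card} with hE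
  have hEc : lam Eᶜ ≤ 2 * lam Gdᶜ := by
    have := markov m lam hinv hG MeasurableSet.univ Eᶜ (V (J + 1)) (hVp (J + 1))
      (Eventually.of_forall fun x hx => ⟨fun _ _ => mem_univ _, not_lt.1 hx⟩)
    simpa using this
  have hB : ∀ j < J + 1, lam (Str b (κ J) (H j ^ 6) \ Str b (κ J) (H j ^ 3)) ≤
      2 * lam ((Str b (κ J) (H j ^ 7) \ Str b (κ J) (H j ^ 2)) ∩ Gdᶜ) := by
    intro j hj
    apply markov m lam hinv hG ((hS _).diff (hS _)) _ (V j) (hVp j)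
    filter_upwards [had] with x hx hxB
    have m1 : m + 1 ≤ H j := by have := hbig j; omega
    refine ⟨fun t ht => ⟨?_, fun h => hxB.2 ?_⟩, ?_⟩
    · exact rot_fwd hm hbm (b_le ht (hV j)) m1 hx hxB.1
    · exact rot_bwd hm hbm (b_le ht (hV j)) m1 hx h
    · by_contra hcon
      push Not at hcon
      obtain ⟨t, ht, s, hs', hne, hcl⟩ := cover j _ (fun t => x ∘ gu m t)
        (fun t ht => ⟨hx.gu _ _, (Finset.mem_filter.1 ht).2⟩) hcon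
      obtain ⟨g, a1, a2, ζ, a3, a4⟩ := top_str b0 hm (hV j) hx
        (Finset.mem_range.1 (Finset.mem_filter.1 ht).1)
        (Finset.mem_range.1 (Finset.mem_filter.1 hs').1) hne hcl
      have H2 : 2 ≤ H j := by omega
      refine hxB.2 (rigid hx b0 (hκm (by omega : j ≤ J)) hxB.1 a1
        (a2.trans (Nat.le_self_pow (by norm_num) _)) (a3.trans ?_) a4 ?_)
      · exact_mod_cast Nat.pow_le_pow_right (by omega) (by norm_num)
      · have c1 : H j ^ 3 < H j ^ 6 := Nat.pow_lt_pow_right (by omega) (by norm_num)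
        calc H j ^ 6 * H j ^ 3 * (H j ^ 6 + H j ^ 3) < H j ^ 6 * H j ^ 3 * (H j ^ 6 + H j ^ 6) := by
              gcongr
          _ = 2 * H j ^ 15 := by ring
          _ ≤ H j * H j ^ 15 := by gcongr
          _ = H j ^ 16 := by ring
          _ ≤ 2 ^ κ j := hHκ j
          _ ≤ b ^ κ j := by gcongr
  have hsum := sum_disj lam (fun j => Str b (κ J) (H j ^ 7) \ Str b (κ J) (H j ^ 2))
    (fun j => (hS _).diff (hS _)) (J + 1) (fun j j' h1 h2 => by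
      have a1 : H j ^ 4 ≤ H j' := by
        have := hmono h1
        rw [hH, hH, ← pow_mul] at this; exact this
      have a3 : 1 ≤ H j := by have := hbig j; omega
      have a4 : H j ^ 7 ≤ H j' ^ 2 := by
        calc H j ^ 7 ≤ H j ^ 8 := Nat.pow_le_pow_right a3 (by norm_num)
          _ = (H j ^ 4) ^ 2 := by ring
          _ ≤ _ := by gcongr
      exact Set.disjoint_left.2 fun x c1 c2 => c2.2 (Str_mono _ _ a4 c1.1)) Gdᶜ hG.compl
  have hsub : lam (Str b (κ J) (H 0 ^ 3))ᶜ ≤ lam (Eᶜ ∪ ⋃ j ∈ Finset.range (J + 1),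
      Str b (κ J) (H j ^ 6) \ Str b (κ J) (H j ^ 3)) := by
    apply measure_mono_ae
    filter_upwards [had] with x hx hn
    by_cases hxE : x ∈ E
    · right
      obtain ⟨t, ht, s, hs', hne, hcl⟩ := cover (J + 1) _ (fun t => x ∘ gu m t)
        (fun t ht => ⟨hx.gu _ _, (Finset.mem_filter.1 ht).2⟩) hxE
      obtain ⟨g, a1, a2, ζ, a3, a4⟩ := top_str b0 hm (hV (J + 1)) hx
        (Finset.mem_range.1 (Finset.mem_filter.1 ht).1)
        (Finset.mem_range.1 (Finset.mem_filter.1 hs').1) hne hcl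
      have H1 : 1 ≤ H J := by have := hbig J; omega
      have H2 : 1 ≤ H (J + 1) := by have := hbig (J + 1); omega
      obtain ⟨d, c1, c2, c, c3⟩ := strip b (κ J) g a1 (a2.trans (by
        rw [hH]; exact (Nat.pow_le_pow_right H1 (by norm_num)).trans (hHκ J)))
      have c4 : x ∈ Str b (κ J) (H (J + 1) ^ 3) := by
        refine ⟨d, Nat.pos_of_dvd_of_pos c1 a1, (Nat.le_of_dvd a1 c1).trans
          (a2.trans (Nat.le_self_pow (by norm_num) _)), c2, ζ, a3.trans ?_, ?_⟩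
        · exact_mod_cast Nat.pow_le_pow_right H2 (by norm_num)
        · rw [th_sc (hx.sub' (ad_ell ζ)) b0 (κ J) (κ J), ← mul_nsmul', c3, ← hκ, mul_nsmul, a4,
            smul_zero]
      rcases find_sc (fun h => x ∈ Str b (κ J) h) H hH (J + 1) c4 with h4 | ⟨j, h4, h5, h6⟩
      · exact absurd h4 hn
      · simp only [mem_iUnion]
        exact ⟨j, Finset.mem_range.2 h4, h6, h5⟩
    · exact Or.inl hxE
  calc lam (Str b (κ J) (H 0 ^ 3))ᶜ ≤ _ := hsub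
    _ ≤ lam Eᶜ + ∑ j ∈ Finset.range (J + 1),
          lam (Str b (κ J) (H j ^ 6) \ Str b (κ J) (H j ^ 3)) :=
        (measure_union_le _ _).trans (add_le_add le_rfl (measure_biUnion_finset_le _ _))
    _ ≤ 2 * lam Gdᶜ + ∑ j ∈ Finset.range (J + 1),
        2 * lam ((Str b (κ J) (H j ^ 7) \ Str b (κ J) (H j ^ 2)) ∩ Gdᶜ) :=
        add_le_add hEc (Finset.sum_le_sum fun j hj => hB j (Finset.mem_range.1 hj))
    _ ≤ 2 * lam Gdᶜ + 2 * (2 * lam Gdᶜ) := by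
        rw [← Finset.mul_sum]; gcongr
    _ = 6 * lam Gdᶜ := by ring

theorem EF2 (m b : ℕ) (hm : 1 ≤ m) (hb : 2 ≤ b) (hbm : b ∣ m) (lam : Measure Y)
    (had : ∀ᵐ x ∂lam, Ad x)
    (hinv : ∀ t : ℕ, MeasurePreserving (fun x : Y => x ∘ gu m t) lam lam)
    {Gd : Set Y} (hG : MeasurableSet Gd) (H V κ : ℕ → ℕ)
    (hH : ∀ j, H (j + 1) = H j ^ 2) (hVp : ∀ j, 0 < V j)
    (hV : ∀ j, 16 * (1 + m) * V j ^ 2 ≤ H j) (hκ : ∀ j, κ (j + 1) = κ j + κ j)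
    (hHκ : ∀ j, H j ^ 16 ≤ 2 ^ κ j)
    (cover : ∀ j (F : Finset ℕ) (y : ℕ → Y), (∀ t ∈ F, Ad (y t) ∧ y t ∈ Gd) → V j < F.card →
      ∃ t ∈ F, ∃ s ∈ F, t ≠ s ∧
        ‖th (y t ∘ sc b (κ j)) - th (y s ∘ sc b (κ j))‖ ≤ 1 / b ^ κ j) :
    lam (CT b)ᶜ ≤ 6 * lam Gdᶜ := by
  have b0 : 0 < b := by omega
  have H2 : 2 ≤ H 0 := by
    have : 1 ≤ V 0 ^ 2 := Nat.one_le_pow _ _ (hVp 0)
    nlinarith [hV 0]
  have hκ0 : ∀ j, j + 1 ≤ κ j := by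
    intro j
    induction j with
    | zero =>
      by_contra h
      have h1 : κ 0 = 0 := by omega
      have h2 := hHκ 0
      have h3 : 2 ^ 16 ≤ H 0 ^ 16 := by gcongr
      rw [h1] at h2; omega
    | succ j ih => rw [hκ]; omega
  have hκm : Monotone κ := monotone_nat_of_le_succ fun j => by rw [hκ]; omega
  set h := H 0 ^ 3 with hh
  have h2 : lam (CT b)ᶜ ≤ lam (⋃ J, {x | Ad x} ∩ (Str b (κ J) h)ᶜ) := by
    apply measure_mono_ae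
    filter_upwards [had] with x hx hn
    by_contra hcon
    apply hn
    have a0 : ∀ J, x ∈ Str b (κ J) h := fun J => by
      by_contra h1
      exact hcon (mem_iUnion.2 ⟨J, hx, h1⟩)
    choose d a1 a2 a3 ξ a4 a5 using a0
    set J0 := h * h * (h + h) with hJ0
    refine ⟨h !, h.factorial_pos, ξ J0, fun k => ?_⟩
    have c1 : κ J0 ≤ κ (J0 + k) := hκm (by omega)
    have e : ξ J0 = ξ (J0 + k) := uniq b0 (a1 _) (a1 _) (a5 J0)
      (kill_mono (hx.sub' (ad_ell _)) b0 c1 (a5 (J0 + k))) (by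
        have b1 : J0 < b ^ κ J0 := lt_of_lt_of_le (by have := hκ0 J0; omega)
          (Nat.lt_pow_self (by omega : 1 < b)).le
        have b2 : ((h * h * (h + h) : ℕ) : ℝ) < b ^ κ J0 := by exact_mod_cast b1
        refine lt_of_le_of_lt ?_ b2
        push_cast
        gcongr
        exacts [a2 _, a2 _, a4 _, a4 _])
    obtain ⟨c, hc⟩ := Nat.dvd_factorial (a1 (J0 + k)) (a2 (J0 + k))
    rw [e, hc, mul_nsmul, kill_mono (hx.sub' (ad_ell _)) b0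
      (by have := hκ0 (J0 + k); omega : k ≤ κ (J0 + k)) (a5 (J0 + k)), smul_zero]
  refine h2.trans ?_
  rw [Monotone.measure_iUnion]
  · exact iSup_le fun J => (measure_mono inter_subset_right).trans
      (EF_lev m b hm hb hbm lam had hinv hG H V κ hH hVp hV hκ hHκ cover J)
  · rintro i j hij x ⟨c1, c2⟩
    refine ⟨c1, fun ⟨d, a1, a2, a3, ξ, a4, a5⟩ => c2 ⟨d, a1, a2, a3, ξ, a4, ?_⟩⟩
    exact kill_mono (c1.sub' (ad_ell ξ)) b0 (hκm hij) a5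

end Pool.Agent.H.MP_8b2bd9_co
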