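import Mathlib
import Pool.Agent.H.MP_8b2bd9_co.A
open MeasureTheory Set Filter Topology ProbabilityTheory
open scoped ENNReal Nat
open Pool.Agent.H.MP_fc94d9_co
namespace Pool.Agent.H.MP_8b2bd9_co

section alg
variable {K : Type} [Field K]

def O (a : K) : Subring K := Subring.closure {a}

theorem self_O (a : K) : a ∈ O a := Subring.subset_closure rfl

theorem bar_O (a : K) : 1 - a ∈ O a := sub_mem (one_mem _) (self_O a)

theorem O_bar (a : K) : O (1 - a) = O a := by
  apply le_antisymm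
  · exact Subring.closure_le.2 (singleton_subset_iff.2 (bar_O a))
  · refine Subring.closure_le.2 (singleton_subset_iff.2 ?_)
    simpa using bar_O (1 - a)

theorem mem_O {a : K} {b : ℕ} (ha : a * (1 - a) = b) {z : K} (hz : z ∈ O a) :
    ∃ p q : ℤ, z = p + q * a := by
  induction hz using Subring.closure_induction with
  | mem x hx => exact ⟨0, 1, by simpa using hx⟩
  | zero => exact ⟨0, 0, by simp⟩
  | one => exact ⟨1, 0, by simp⟩
  | add x y _ _ h1 h2 =>
    obtain ⟨p, q, rfl⟩ := h1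
    obtain ⟨p', q', rfl⟩ := h2
    exact ⟨p + p', q + q', by push_cast; ring⟩
  | neg x _ h1 =>
    obtain ⟨p, q, rfl⟩ := h1
    exact ⟨-p, -q, by push_cast; ring⟩
  | mul x y _ _ h1 h2 =>
    obtain ⟨p, q, rfl⟩ := h1
    obtain ⟨p', q', rfl⟩ := h2
    exact ⟨p * p' - q * q' * b, p * q' + q * p' + q * q', by
      push_cast; linear_combination (-(q : K) * q') * ha⟩

theorem ad_O {a : K} {b : ℕ} (ha : a * (1 - a) = b) {y : K → T} (hy : Ad y) {c : K} (h1 : y c = 0)
    (h2 : y (c * a) = 0) {β : K} (hβ : β ∈ O a) : y (c * β) = 0 := by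
  obtain ⟨p, q, rfl⟩ := mem_O ha hβ
  have : c * (p + q * a) = p • c + q • (c * a) := by simp only [zsmul_eq_mul]; ring
  rw [this, hy, hy.zsmul, hy.zsmul, h1, h2]; simp

def Cop (a s t : K) : Prop := ∃ γ ∈ O a, ∃ γ' ∈ O a, s * γ + t * γ' = 1

theorem Cop.symm {a s t : K} (h : Cop a s t) : Cop a t s := by
  obtain ⟨γ, h1, γ', h2, h3⟩ := h
  exact ⟨γ', h2, γ, h1, by rw [add_comm, h3]⟩

theorem Cop.mul {a s s' t : K} (h : Cop a s t) (h' : Cop a s' t) (hs : s ∈ O a) :
    Cop a (s * s') t := by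
  obtain ⟨γ, h1, γ', h2, h3⟩ := h
  obtain ⟨δ, a1, δ', a2, a3⟩ := h'
  exact ⟨γ * δ, mul_mem h1 a1, γ' + s * γ * δ', add_mem h2 (mul_mem (mul_mem hs h1) a2), by
    linear_combination h3 + s * γ * a3⟩

theorem Cop.one (a t : K) : Cop a 1 t := ⟨1, one_mem _, 0, zero_mem _, by simp⟩

theorem Cop.pow {a s t : K} (h : Cop a s t) (hs : s ∈ O a) (n : ℕ) : Cop a (s ^ n) t := by
  induction n with
  | zero => rw [pow_zero]; exact Cop.one a t
  | succ n ih => rw [pow_succ]; exact ih.mul h (pow_mem hs n)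

theorem cop_bar (a : K) : Cop a a (1 - a) := ⟨1, one_mem _, 1, one_mem _, by ring⟩

theorem cop_pow (a : K) (i j : ℕ) : Cop a (a ^ i) ((1 - a) ^ j) :=
  ((((cop_bar a).pow (self_O a) i).symm).pow (bar_O a) j).symm

def KP (a : K) : Set K := {z | ∃ s ∈ O a, s ≠ 0 ∧ Cop a s (1 - a) ∧ s * z ∈ O a}

theorem KP_O {a z : K} (h : z ∈ O a) : z ∈ KP a :=
  ⟨1, one_mem _, one_ne_zero, Cop.one _ _, by rwa [one_mul]⟩

theorem KP_mul {a z w : K} (h : z ∈ KP a) (h' : w ∈ KP a) : z * w ∈ KP a := by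
  obtain ⟨s, h1, h2, h3, h4⟩ := h
  obtain ⟨s', a1, a2, a3, a4⟩ := h'
  refine ⟨s * s', mul_mem h1 a1, mul_ne_zero h2 a2, h3.mul a3 h1, ?_⟩
  rw [mul_mul_mul_comm]; exact mul_mem h4 a4

theorem KP_inv {a s : K} (h1 : s ∈ O a) (h2 : s ≠ 0) (h3 : Cop a s (1 - a)) : s⁻¹ ∈ KP a :=
  ⟨s, h1, h2, h3, by rw [mul_inv_cancel₀ h2]; exact one_mem _⟩

theorem k2 {a z : K} (h : z ∈ KP a) (n : ℕ) :
    ∃ β ∈ O a, ∃ γ ∈ O a, z = β + (1 - a) ^ n * (γ * z) := by
  obtain ⟨s, h1, h2, h3, h4⟩ := h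
  obtain ⟨γ, a1, γ', a2, a3⟩ := (h3.symm.pow (bar_O a) n).symm
  exact ⟨s * z * γ, mul_mem h4 a1, γ', a2, by linear_combination (-z) * a3⟩

variable [CharZero K]

theorem k3 {a : K} (hK : ∀ z : K, ∃ p q : ℚ, z = p + q * a) (z : K) :
    ∃ n : ℕ, 0 < n ∧ n * z ∈ O a := by
  obtain ⟨p, q, rfl⟩ := hK z
  refine ⟨p.den * q.den, Nat.mul_pos p.pos q.pos, ?_⟩
  have e : ((p.den * q.den : ℕ) : K) * (p + q * a) = (p.num * q.den : ℤ) + (q.num * p.den : ℤ) * a := by
    have h1 : (p.den : K) * p = p.num := by exact_mod_cast Rat.den_mul_eq_num p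
    have h2 : (q.den : K) * q = q.num := by exact_mod_cast Rat.den_mul_eq_num q
    push_cast; linear_combination (q.den : K) * h1 + (p.den : K) * a * h2
  rw [e]
  exact add_mem (intCast_mem _ _) (mul_mem (intCast_mem _ _) (self_O a))

theorem a_ne {a : K} {b : ℕ} (ha : a * (1 - a) = b) (hb : 2 ≤ b) : a ≠ 0 ∧ 1 - a ≠ 0 := by
  rw [← mul_ne_zero_iff, ha]
  exact_mod_cast (by omega : b ≠ 0)

theorem k4 {a : K} {b : ℕ} (ha : a * (1 - a) = b) (hb : 2 ≤ b)
    (hK : ∀ z : K, ∃ p q : ℚ, z = p + q * a) (g : K) : ∃ e : ℕ, (1 - a) ^ e * g ∈ KP a := by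
  obtain ⟨n, hn, h1⟩ := k3 hK g
  obtain ⟨d, a1, a2, c, a3⟩ := strip b n n hn Nat.lt_two_pow_self.le
  have d0 : (d : K) ≠ 0 := by exact_mod_cast (Nat.pos_of_dvd_of_pos a1 hn).ne'
  refine ⟨n, d * a ^ n, mul_mem (natCast_mem _ _) (pow_mem (self_O a) _),
    mul_ne_zero d0 (pow_ne_zero _ (a_ne ha hb).1), ?_, ?_⟩
  · refine Cop.mul ?_ ((cop_bar a).pow (self_O a) n) (natCast_mem _ _)
    obtain ⟨u, v, h⟩ := Nat.isCoprime_iff_coprime.2 a2
    have h' : (u : K) * d + v * b = 1 := by exact_mod_cast h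
    exact ⟨u, intCast_mem _ _, v * a, mul_mem (intCast_mem _ _) (self_O a), by
      linear_combination h' + (v : K) * ha⟩
  · have h' : (d : K) * b ^ n = n * c := by exact_mod_cast a3
    have : (d : K) * a ^ n * ((1 - a) ^ n * g) = c * (n * g) := by
      rw [← ha, mul_pow] at h'
      linear_combination g * h'
    rw [this]; exact mul_mem (natCast_mem _ _) h1

theorem indep {a : K} {b : ℕ} (ha : a * (1 - a) = b) (hb : 2 ≤ b) {p q : ℚ}
    (h : (p : K) + q * a = 0) : p = 0 ∧ q = 0 := by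
  have h1 : (p : K) ^ 2 + p * q + b * q ^ 2 = 0 := by
    linear_combination (p + q - q * a) * h - (q : K) ^ 2 * ha
  have h2 : p ^ 2 + p * q + b * q ^ 2 = 0 := by exact_mod_cast h1
  have h3 : (2 : ℚ) ≤ b := by exact_mod_cast hb
  have h4 : q = 0 := by
    by_contra hq
    have : 0 < q ^ 2 := by positivity
    nlinarith [sq_nonneg (p + q / 2)]
  rw [h4] at h2
  exact ⟨by simpa using h2, h4⟩

theorem not_unit {a : K} {b : ℕ} (ha : a * (1 - a) = b) (hb : 2 ≤ b) {γ : K} (hγ : γ ∈ O a) :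
    1 + a * γ ≠ 0 := by
  obtain ⟨p, q, rfl⟩ := mem_O ha hγ
  intro h
  have := (indep ha hb (p := (1 - q * b : ℤ)) (q := (p + q : ℤ)) (by
    push_cast; linear_combination h + (q : K) * ha)).1
  have h1 : (1 : ℤ) = b * q := by
    have : (1 - q * b : ℤ) = 0 := by exact_mod_cast this
    linarith
  have := Int.le_of_dvd one_pos ⟨q, h1⟩
  omega

end alg

variable {K : Type} [Field K] [Countable K]

open Classical in
noncomputable def kp (a : K) (x : K → T) : K → T := fun z => if z ∈ KP a then x z else 0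

omit [Countable K] in
theorem meas_kp (a : K) : Measurable (kp a) := by
  refine measurable_pi_lambda _ fun z => ?_
  by_cases h : z ∈ KP a
  · simp only [kp, h, if_true]; exact measurable_pi_apply z
  · simp only [kp, h, if_false]; exact measurable_const

omit [Countable K] in
theorem kp_eq {a : K} {x y : K → T} : kp a x = kp a y ↔ ∀ z ∈ KP a, x z = y z := by
  constructor
  · intro h z hz
    simpa [kp, hz] using congrFun h z
  · intro h
    funext z
    by_cases hz : z ∈ KP a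
    · simp [kp, hz, h z hz]
    · simp [kp, hz]

omit [Countable K] in
theorem meas_ps (a : K) : Measurable fun x : K → T => (kp a x, x) :=
  (meas_kp a).prodMk measurable_id

noncomputable def rh (a : K) (ν : Measure (K → T)) : Measure ((K → T) × (K → T)) :=
  ν.map fun x => (kp a x, x)

instance (a : K) (ν : Measure (K → T)) [IsFiniteMeasure ν] : IsFiniteMeasure (rh a ν) :=
  Measure.isFiniteMeasure_map _ _

noncomputable def kr (a : K) (ν : Measure (K → T)) [IsFiniteMeasure ν] :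
    Kernel (K → T) (K → T) := (rh a ν).condKernel

instance (a : K) (ν : Measure (K → T)) [IsFiniteMeasure ν] : IsMarkovKernel (kr a ν) := by
  unfold kr; infer_instance

theorem disi (a : K) (ν : Measure (K → T)) [IsFiniteMeasure ν] :
    (rh a ν).fst ⊗ₘ kr a ν = rh a ν := by
  unfold kr; exact Measure.disintegrate _ _

theorem meas_at (a : K) (P : Kernel (K → T) (K → T)) [IsSFiniteKernel P] :
    Measurable fun x : K → T => P (kp a x) {x} := by
  have h : MeasurableSet {p : (K → T) × (K → T) | p.2 = p.1} :=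
    measurableSet_eq_fun measurable_snd measurable_fst
  exact Kernel.measurable_kernel_prodMk_left (κ := P.comap (kp a) (meas_kp a)) h

theorem meas_Ad : MeasurableSet {y : K → T | Ad y} := by
  simp only [Ad, setOf_forall]
  exact MeasurableSet.iInter fun a => MeasurableSet.iInter fun b =>
    measurableSet_eq_fun (measurable_pi_apply _)
      ((measurable_pi_apply a).add (measurable_pi_apply b))

def LC (a : K) (B : Set (K → T)) : Prop := ∀ (x : K → T) (n : ℕ),
  {y | y ∈ B ∧ Ad y ∧ ∀ z ∈ KP a, y ((1 - a) ^ n * z) = x ((1 - a) ^ n * z)}.Countable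

def At (a : K) (ν : Measure (K → T)) [IsFiniteMeasure ν] : Set (K → T) :=
  {x | 0 < kr a ν (kp a x) {x}}

theorem meas_At (a : K) (ν : Measure (K → T)) [IsFiniteMeasure ν] : MeasurableSet (At a ν) :=
  measurableSet_lt measurable_const (meas_at _ _)

theorem lc_null {a : K} (ν : Measure (K → T)) [IsFiniteMeasure ν] (had : ∀ᵐ x ∂ν, Ad x)
    {B : Set (K → T)} (hB : MeasurableSet B) (h : LC a B) : ν (B \ At a ν) = 0 := by
  set C : Set ((K → T) × (K → T)) :=
    {p | p.2 ∈ B ∧ Ad p.2 ∧ kp a p.2 = p.1 ∧ kr a ν p.1 {p.2} = 0} with hC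
  have h1 : Measurable fun p : (K → T) × (K → T) => kr a ν p.1 {p.2} := by
    have h : MeasurableSet {q : ((K → T) × (K → T)) × (K → T) | q.2 = q.1.2} :=
      measurableSet_eq_fun measurable_snd (measurable_snd.comp measurable_fst)
    exact Kernel.measurable_kernel_prodMk_left (κ := (kr a ν).comap Prod.fst measurable_fst) h
  have hCm : MeasurableSet C :=
    (measurable_snd hB).inter ((measurable_snd meas_Ad).inter
      ((measurableSet_eq_fun ((meas_kp a).comp measurable_snd) measurable_fst).inter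
      (h1 (measurableSet_singleton 0))))
  have h2 : ν (B \ At a ν) ≤ ν ((fun x => (kp a x, x)) ⁻¹' C) := by
    apply measure_mono_ae
    filter_upwards [had] with x hx h3
    exact ⟨h3.1, hx, rfl, by simpa [At] using h3.2⟩
  refine le_antisymm (h2.trans (le_of_eq ?_)) zero_le
  rw [← Measure.map_apply (meas_ps a) hCm]
  change rh a ν C = 0
  rw [← disi a ν, Measure.compProd_apply hCm]
  refine (lintegral_congr fun κ => ?_).trans lintegral_zero
  have h3 : (Prod.mk κ ⁻¹' C).Countable := by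
    refine Set.Countable.mono (fun y hy => ?_) (h κ 0)
    refine ⟨hy.1, hy.2.1, fun z hz => ?_⟩
    have := congrFun hy.2.2.1 z
    simpa [kp, hz] using this
  rw [← biUnion_of_singleton (Prod.mk κ ⁻¹' C), measure_biUnion_null_iff h3]
  exact fun e he => he.2.2.2

theorem lc_At {a : K} {b : ℕ} (ha : a * (1 - a) = b) (hb : 2 ≤ b) (ν : Measure (K → T))
    [IsFiniteMeasure ν] : LC a (At a ν) := by
  intro x n
  set W := {y | y ∈ At a ν ∧ Ad y ∧ ∀ z ∈ KP a, y ((1 - a) ^ n * z) = x ((1 - a) ^ n * z)} with hW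
  rcases W.eq_empty_or_nonempty with h0 | ⟨y0, h0⟩
  · rw [h0]; exact countable_empty
  have h1 : ∀ τ : T × T, {y | y ∈ W ∧ (y 1 - y0 1, y a - y0 a) = τ}.Countable := by
    intro τ
    rcases {y | y ∈ W ∧ (y 1 - y0 1, y a - y0 a) = τ}.eq_empty_or_nonempty with h2 | ⟨y1, h2⟩
    · rw [h2]; exact countable_empty
    refine (Measure.countable_meas_level_set_pos (μ := kr a ν (kp a y1)) measurable_id).mono
      fun y hy => ?_
    have h3 : kp a y = kp a y1 := by
      refine kp_eq.2 fun z hz => ?_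
      obtain ⟨β, a1, γ, a2, a3⟩ := k2 hz n
      have a4 := hy.2.trans h2.2.symm
      have a5 : Ad (y - y1) := fun u v => by
        simp only [Pi.sub_apply, hy.1.2.1 u v, h2.1.2.1 u v]; abel
      have a6 := ad_O ha a5 (c := 1) (by simpa [sub_eq_zero] using congrArg Prod.fst a4)
        (by simpa [sub_eq_zero] using congrArg Prod.snd a4) a1
      rw [one_mul, Pi.sub_apply, sub_eq_zero] at a6
      rw [a3, hy.1.2.1, h2.1.2.1, a6, hy.1.2.2 _ (KP_mul (KP_O a2) hz),
        h2.1.2.2 _ (KP_mul (KP_O a2) hz)]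
    have h4 : 0 < kr a ν (kp a y) {y} := hy.1.1
    rw [h3] at h4
    exact h4
  refine Set.Countable.mono (fun y hy => ?_)
    (((fin_tors (b ^ n) (by positivity)).countable).biUnion fun τ _ => h1 τ)
  refine mem_iUnion₂.2 ⟨(y 1 - y0 1, y a - y0 a), ?_, hy, rfl⟩
  have key : ∀ c ∈ O a, b ^ n • (y c - y0 c) = 0 := by
    intro c hc
    have e : b ^ n • c = (1 - a) ^ n * (a ^ n * c) := by
      rw [nsmul_eq_mul, Nat.cast_pow, ← ha, mul_pow]; ring
    have hm := KP_O (mul_mem (pow_mem (self_O a) n) hc)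
    rw [smul_sub, ← hy.2.1.nsmul, ← h0.2.1.nsmul, e, hy.2.2 _ hm, h0.2.2 _ hm, sub_self]
  exact Prod.ext (key 1 (one_mem _)) (key a (self_O a))

omit [Countable K] in
theorem ad_mu {x : K → T} (h : Ad x) (g : K) : Ad (mu g x) := fun u v => by
  simp only [mu, mul_add, h _ _]

omit [Countable K] in
theorem LC.mu [CharZero K] {a : K} {b : ℕ} (ha : a * (1 - a) = b) (hb : 2 ≤ b)
    (hK : ∀ z : K, ∃ p q : ℚ, z = p + q * a) {B : Set (K → T)} (h : LC a B) {g : K} (hg : g ≠ 0) :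
    LC a (mu g ⁻¹' B) := by
  intro x n
  obtain ⟨e, he⟩ := k4 ha hb hK g
  have h1 : Function.Injective (Pool.Agent.H.MP_fc94d9_co.mu g) := by
    intro y y' hy
    funext z
    simpa [Pool.Agent.H.MP_fc94d9_co.mu, hg] using congrFun hy (g⁻¹ * z)
  refine Set.Countable.mono (fun y hy => ?_)
    ((h (Pool.Agent.H.MP_fc94d9_co.mu g x) (n + e)).preimage_of_injOn h1.injOn)
  refine ⟨hy.1, ad_mu hy.2.1 g, fun z hz => ?_⟩
  have := hy.2.2 _ (KP_mul he hz)
  simp only [Pool.Agent.H.MP_fc94d9_co.mu]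
  rwa [show g * ((1 - a) ^ (n + e) * z) = (1 - a) ^ n * ((1 - a) ^ e * g * z) by ring]

theorem inv_At [CharZero K] {a : K} {b : ℕ} (ha : a * (1 - a) = b) (hb : 2 ≤ b)
    (hK : ∀ z : K, ∃ p q : ℚ, z = p + q * a) (ν : Measure (K → T)) [IsFiniteMeasure ν]
    (had : ∀ᵐ x ∂ν, Ad x) {g : K} (hg : g ≠ 0) (h : MeasurePreserving (mu g) ν ν) :
    mu g ⁻¹' At a ν =ᵐ[ν] At a ν :=
  ae_eq_of_ae_subset_of_measure_ge
    (ae_le_set.2 (lc_null ν had (h.measurable (meas_At a ν)) ((lc_At ha hb ν).mu ha hb hK hg)))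
    (h.measure_preimage (meas_At a ν).nullMeasurableSet).ge
    (h.measurable (meas_At a ν)).nullMeasurableSet (measure_ne_top _ _)

theorem inv_res {X : Type} [MeasurableSpace X] {ν : Measure X} {f : X → X}
    (h : MeasurePreserving f ν ν) {A : Set X} (hA : MeasurableSet A) (h2 : f ⁻¹' A =ᵐ[ν] A) :
    MeasurePreserving f (ν.restrict A) (ν.restrict A) ∧
      MeasurePreserving f (ν.restrict Aᶜ) (ν.restrict Aᶜ) := by
  constructor
  · have h3 := h.restrict_preimage hA
    rwa [Measure.restrict_congr_set h2] at h3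
  · have h3 := h.restrict_preimage hA.compl
    rwa [preimage_compl, Measure.restrict_congr_set h2.compl] at h3

theorem at_compl {a : K} {b : ℕ} (ha : a * (1 - a) = b) (hb : 2 ≤ b) (ν : Measure (K → T))
    [IsFiniteMeasure ν] (had : ∀ᵐ x ∂ν, Ad x) :
    ν.restrict (At a ν)ᶜ (At a (ν.restrict (At a ν)ᶜ)) = 0 := by
  rw [Measure.restrict_apply (meas_At _ _)]
  exact lc_null ν had (meas_At _ _) (lc_At ha hb _)

end Pool.Agent.H.MP_8b2bd9_co
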