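import Mathlib
import Pool.Agent.H.MP_8b2bd9_co.B
open MeasureTheory Set Filter Topology ProbabilityTheory
open scoped ENNReal Nat ComplexConjugate
open Pool.Agent.H.MP_fc94d9_co
namespace Pool.Agent.H.MP_8b2bd9_co

variable {K : Type} [Field K] [Countable K]

def UI (ι : K →+* ℂ) (ν : Measure (K → T)) : Prop :=
  ∀ h : K, ‖ι h‖ = 1 → MeasurePreserving (mu h) ν ν

omit [Field K] [Countable K] in
theorem meas_ec (z : K) : Measurable fun x : K → T => ec (x z) := by
  have : Measurable fun x : K → T => x z := measurable_pi_apply z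
  exact cont_ec.measurable.comp this

noncomputable def gq (a : K) (ν : Measure (K → T)) [IsFiniteMeasure ν] (z : K) (κ : K → T) : ℂ :=
  ∫ y, ec (y z) ∂(kr a ν κ)

noncomputable def sg (a : K) (ν : Measure (K → T)) [IsFiniteMeasure ν] :
    Measure ((K → T) × (K → T)) := ν ⊗ₘ (kr a ν).comap (kp a) (meas_kp a)

instance (a : K) (ν : Measure (K → T)) [IsFiniteMeasure ν] : IsFiniteMeasure (sg a ν) := by
  unfold sg; infer_instance

noncomputable def Ph (a : K) (ν : Measure (K → T)) [IsFiniteMeasure ν] (z : K) : ℂ :=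
  ∫ p, ec (p.1 z - p.2 z) ∂(sg a ν)

theorem meas_gq (a : K) (ν : Measure (K → T)) [IsFiniteMeasure ν] (z : K) :
    Measurable (gq a ν z) :=
  ((meas_ec z).stronglyMeasurable.integral_kernel (κ := kr a ν)).measurable

theorem norm_gq (a : K) (ν : Measure (K → T)) [IsFiniteMeasure ν] (z : K) (κ : K → T) :
    ‖gq a ν z κ‖ ≤ 1 := by
  have := norm_integral_le_of_norm_le_const (μ := kr a ν κ) (f := fun y => ec (y z)) (C := 1)
    (Eventually.of_forall fun s => (norm_ec _).le)
  simpa [gq] using this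

theorem int_ps (a : K) (ν : Measure (K → T)) [IsFiniteMeasure ν] {F : (K → T) × (K → T) → ℂ}
    (hF : Measurable F) (hb : ∀ p, ‖F p‖ ≤ 1) :
    ∫ x, F (kp a x, x) ∂ν = ∫ κ, ∫ s, F (κ, s) ∂(kr a ν κ) ∂(rh a ν).fst := by
  rw [← Measure.integral_compProd
    (Integrable.of_bound hF.aestronglyMeasurable 1 (Eventually.of_forall hb)), disi, rh,
    integral_map (meas_ps a).aemeasurable hF.aestronglyMeasurable]

omit [Field K] [Countable K] in
theorem meas_df (z : K) : Measurable fun p : (K → T) × (K → T) => ec (p.1 z - p.2 z) := by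
  have : Measurable fun x : K → T => x z := measurable_pi_apply z
  exact cont_ec.measurable.comp ((this.comp measurable_fst).sub (this.comp measurable_snd))

theorem Ph_eq (a : K) (ν : Measure (K → T)) [IsFiniteMeasure ν] (z : K) :
    Ph a ν z = ((∫ κ, ‖gq a ν z κ‖ ^ 2 ∂(rh a ν).fst : ℝ) : ℂ) := by
  rw [Ph, sg, Measure.integral_compProd (Integrable.of_bound (meas_df z).aestronglyMeasurable 1
    (Eventually.of_forall fun p => (norm_ec _).le))]
  have h2 : ∀ x : K → T, ∫ y, ec (x z - y z) ∂((kr a ν).comap (kp a) (meas_kp a) x) =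
      (fun p : (K → T) × (K → T) => ec (p.2 z) * conj (gq a ν z p.1)) (kp a x, x) := by
    intro x
    simp only [sub_eq_add_neg, ec_add, ec_neg]
    rw [integral_const_mul, integral_conj]; rfl
  rw [integral_congr_ae (Eventually.of_forall h2),
    int_ps a ν (F := fun p : (K → T) × (K → T) => ec (p.2 z) * conj (gq a ν z p.1))
    (((meas_ec z).comp measurable_snd).mul
      (Complex.continuous_conj.measurable.comp ((meas_gq a ν z).comp measurable_fst)))
    (fun p => by rw [norm_mul, norm_ec, one_mul, Complex.norm_conj]; exact norm_gq _ _ _ _),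
    ← integral_complex_ofReal]
  refine integral_congr_ae (Eventually.of_forall fun κ => ?_)
  dsimp only
  rw [integral_mul_const]
  change gq a ν z κ * conj (gq a ν z κ) = _
  rw [Complex.mul_conj, Complex.normSq_eq_norm_sq]

theorem c_le3 (a : K) (ν : Measure (K → T)) [IsFiniteMeasure ν] (z : K) (t : ℝ) (ht : 0 ≤ t) :
    2 * t * ‖∫ x, ec (x z) ∂ν‖ ≤ t ^ 2 * (rh a ν).fst.real univ + (Ph a ν z).re := by
  have hm := (meas_gq a ν z).norm
  have i1 : Integrable (fun κ => ‖gq a ν z κ‖) (rh a ν).fst :=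
    Integrable.of_bound hm.aestronglyMeasurable 1
      (Eventually.of_forall fun κ => by rw [norm_norm]; exact norm_gq _ _ _ _)
  have i2 : Integrable (fun κ => ‖gq a ν z κ‖ ^ 2) (rh a ν).fst :=
    Integrable.of_bound (hm.pow_const 2).aestronglyMeasurable 1
      (Eventually.of_forall fun κ => by
        rw [norm_pow, norm_norm]; exact pow_le_one₀ (norm_nonneg _) (norm_gq _ _ _ _))
  have h0 : ‖∫ x, ec (x z) ∂ν‖ ≤ ∫ κ, ‖gq a ν z κ‖ ∂(rh a ν).fst := by
    have := int_ps a ν (F := fun p : (K → T) × (K → T) => ec (p.2 z))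
      ((meas_ec z).comp measurable_snd) (fun p => (norm_ec _).le)
    dsimp only at this
    rw [this]
    exact norm_integral_le_integral_norm _
  rw [Ph_eq, Complex.ofReal_re]
  calc _ ≤ 2 * t * ∫ κ, ‖gq a ν z κ‖ ∂(rh a ν).fst := by gcongr
    _ = ∫ κ, 2 * t * ‖gq a ν z κ‖ ∂(rh a ν).fst := (integral_const_mul _ _).symm
    _ ≤ ∫ κ, (t ^ 2 + ‖gq a ν z κ‖ ^ 2) ∂(rh a ν).fst :=
        integral_mono (i1.const_mul _) ((integrable_const _).add i2)
          fun κ => by dsimp only; nlinarith [sq_nonneg (t - ‖gq a ν z κ‖)]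
    _ = _ := by rw [integral_add (integrable_const _) i2, integral_const, smul_eq_mul, mul_comm]

theorem ae_sg (a : K) (ν : Measure (K → T)) [IsFiniteMeasure ν] (had : ∀ᵐ x ∂ν, Ad x)
    (hA : ν (At a ν) = 0) :
    ∀ᵐ p ∂(sg a ν), Ad p.1 ∧ Ad p.2 ∧ kp a p.2 = kp a p.1 ∧ p.2 ≠ p.1 := by
  have m1 : MeasurableSet {p : (K → T) × (K → T) | Ad p.2 ∧ kp a p.2 = p.1} :=
    (measurable_snd meas_Ad).inter
      (measurableSet_eq_fun ((meas_kp a).comp measurable_snd) measurable_fst)
  have m2 : MeasurableSet {p : (K → T) × (K → T) |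
      Ad p.1 ∧ Ad p.2 ∧ kp a p.2 = kp a p.1 ∧ p.2 ≠ p.1} :=
    (measurable_fst meas_Ad).inter ((measurable_snd meas_Ad).inter
      ((measurableSet_eq_fun ((meas_kp a).comp measurable_snd)
        ((meas_kp a).comp measurable_fst)).inter
        (measurableSet_eq_fun measurable_snd measurable_fst).compl))
  have h1 : ∀ᵐ p ∂(rh a ν), Ad p.2 ∧ kp a p.2 = p.1 :=
    (ae_map_iff (meas_ps a).aemeasurable m1).2 (had.mono fun x hx => ⟨hx, rfl⟩)
  rw [← disi a ν, Measure.ae_compProd_iff m1, rh, Measure.fst_map_prodMk measurable_id'] at h1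
  rw [sg, Measure.ae_compProd_iff m2]
  filter_upwards [had, ae_of_ae_map (meas_kp a).aemeasurable h1,
    measure_eq_zero_iff_ae_notMem.1 hA] with x a1 a2 a3
  have a4 : kr a ν (kp a x) {x} = 0 := by simpa [At] using a3
  filter_upwards [a2, measure_eq_zero_iff_ae_notMem.1 a4] with y b1 b2
  exact ⟨a1, b1.1, b1.2, b2⟩

theorem sum_ec {Q : ℕ} {v : T} (h : Q • v = 0) (hv : v ≠ 0) :
    ∑ p ∈ Finset.range Q, ec (p • v) = 0 := by
  simp only [ec_nsmul]
  rw [geom_sum_eq fun h => hv (ec_eq_one h), ← ec_nsmul, h, ec_zero, sub_self, zero_div]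

noncomputable def zf (a z : K) (n j p q : ℕ) : K :=
  z * ((a / (1 - a)) ^ n * ((1 + a ^ j * (p + q * a)) / (1 + (1 - a) ^ j * (p + q * (1 - a)))))

omit [Countable K] in
theorem cbar_ne [CharZero K] {a : K} {b : ℕ} (ha : a * (1 - a) = b) (hb : 2 ≤ b) (j p q : ℕ) :
    1 + (1 - a) ^ (j + 1) * (p + q * (1 - a)) ≠ 0 := by
  rw [pow_succ', mul_assoc]
  refine not_unit (b := b) (by rw [← ha]; ring) hb ?_
  exact mul_mem (pow_mem (self_O _) _)
    (add_mem (natCast_mem _ _) (mul_mem (natCast_mem _ _) (self_O _)))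

omit [Countable K] in
theorem norm_zf [CharZero K] {a : K} {b : ℕ} (ha : a * (1 - a) = b) (hb : 2 ≤ b) (ι : K →+* ℂ)
    (hι : ι (1 - a) = conj (ι a)) (n j p q : ℕ) :
    ‖ι ((a / (1 - a)) ^ n * ((1 + a ^ (j + 1) * (p + q * a)) /
      (1 + (1 - a) ^ (j + 1) * (p + q * (1 - a)))))‖ = 1 := by
  have h1 : ι (1 + (1 - a) ^ (j + 1) * (p + q * (1 - a))) =
      conj (ι (1 + a ^ (j + 1) * (p + q * a))) := by
    simp only [map_add, map_mul, map_pow, map_one, map_natCast, hι]
  have h2 : ‖ι (1 - a)‖ ≠ 0 := by rw [norm_ne_zero_iff, map_ne_zero]; exact (a_ne ha hb).2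
  have h3 : ‖ι (1 + (1 - a) ^ (j + 1) * (p + q * (1 - a)))‖ ≠ 0 := by
    rw [norm_ne_zero_iff, map_ne_zero]; exact cbar_ne ha hb j p q
  rw [map_mul, map_pow, map_div₀, map_div₀, norm_mul, norm_pow, norm_div, norm_div,
    ← Complex.norm_conj (ι a), ← hι, ← Complex.norm_conj (ι (1 + a ^ (j + 1) * (p + q * a))), ← h1,
    div_self h2, div_self h3]
  simp

omit [Countable K] in
theorem l_zf [CharZero K] {a : K} {b : ℕ} (ha : a * (1 - a) = b) (hb : 2 ≤ b) {l : K → T}
    (hl : Ad l) (h0 : ∀ z ∈ KP a, l z = 0) {z : K} {e : ℕ} (he : (1 - a) ^ e * z ∈ KP a)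
    (n p q : ℕ) : l (zf a z n (n + e + 1) p q) = l (z * (a / (1 - a)) ^ n) +
      (p • l (z * (a / (1 - a)) ^ n * a ^ (n + e + 1)) +
        q • l (z * (a / (1 - a)) ^ n * a ^ (n + e + 1) * a)) := by
  have h1 := cbar_ne ha hb (n + e) p q
  have h2 := (a_ne ha hb).2
  have m1 : (p : K) + q * (1 - a) ∈ O a :=
    add_mem (natCast_mem _ _) (mul_mem (natCast_mem _ _) (bar_O _))
  have m2 : (p : K) + q * a ∈ O a :=
    add_mem (natCast_mem _ _) (mul_mem (natCast_mem _ _) (self_O _))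
  have h3 : (1 + (1 - a) ^ (n + e + 1) * (p + q * (1 - a)))⁻¹ ∈ KP a :=
    KP_inv (add_mem (one_mem _) (mul_mem (pow_mem (bar_O a) _) m1)) h1
      ⟨1, one_mem _, -((1 - a) ^ (n + e) * (p + q * (1 - a))),
        neg_mem (mul_mem (pow_mem (bar_O a) _) m1), by ring⟩
  have h4 := h0 _ (KP_mul (KP_mul he h3) (KP_O (neg_mem (mul_mem (mul_mem (mul_mem
    (pow_mem (self_O a) n) (bar_O a)) m1)
    (add_mem (one_mem _) (mul_mem (pow_mem (self_O a) (n + e + 1)) m2))))))
  rw [← hl.nsmul, ← hl.nsmul, ← hl, ← hl, ← add_zero (l (_ + _)), ← h4, ← hl]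
  congr 1
  have hi := mul_inv_cancel₀ h1
  have hu : (a / (1 - a)) ^ n * (1 - a) ^ n = a ^ n := by rw [← mul_pow, div_mul_cancel₀ _ h2]
  simp only [zf, nsmul_eq_mul]
  rw [div_eq_mul_inv (1 + _)]
  generalize (1 + (1 - a) ^ (n + e + 1) * (p + q * (1 - a)))⁻¹ = i at *
  generalize (a / (1 - a)) ^ n = u at *
  linear_combination (z * u * (1 + a ^ (n + e + 1) * (p + q * a))) * hi -
    (1 - a) ^ (e + 1) * z * i * (p + q * (1 - a)) * (1 + a ^ (n + e + 1) * (p + q * a)) * hu

omit [Countable K] in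
theorem l_ev [CharZero K] {a : K} {b : ℕ} (ha : a * (1 - a) = b) (hb : 2 ≤ b)
    (hK : ∀ z : K, ∃ p q : ℚ, z = p + q * a) {l : K → T}
    (hl : Ad l) (h0 : ∀ z ∈ KP a, l z = 0) (hne : l ≠ 0) {z : K} (hz : z ≠ 0) {e : ℕ}
    (he : (1 - a) ^ e * z ∈ KP a) : ∀ᶠ n in atTop,
      ∑ i ∈ Finset.range (b ^ (n + e + 1)) ×ˢ Finset.range (b ^ (n + e + 1)),
        ec (l (zf a z n (n + e + 1) i.1 i.2)) = 0 := by
  obtain ⟨y, hy⟩ := Function.ne_iff.1 hne
  obtain ⟨e', he'⟩ := k4 ha hb hK (y / z)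
  obtain ⟨h1, h2⟩ := a_ne ha hb
  filter_upwards [eventually_ge_atTop e'] with n hn
  obtain ⟨n, rfl⟩ := Nat.exists_eq_add_of_le hn
  set N := e' + n with hN
  set w := z * (a / (1 - a)) ^ N * a ^ (N + e + 1) with hw
  simp only [l_zf ha hb hl h0 he, ec_add, ← hw]
  rw [← Finset.mul_sum, Finset.sum_product' (f := fun i j => ec (i • l w) * ec (j • l (w * a))),
    ← Finset.sum_mul_sum]
  have key : ∀ c ∈ O a, b ^ (N + e + 1) • l (w * c) = 0 := by
    intro c hc
    rw [← hl.nsmul, ← h0 _ (KP_mul he (KP_O (mul_mem (mul_mem (bar_O a)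
      (pow_mem (self_O a) (N + (N + e + 1) + (N + e + 1)))) hc)))]
    congr 1
    rw [nsmul_eq_mul, Nat.cast_pow, ← ha, hw, div_pow, mul_pow]
    field_simp
    ring
  by_cases c1 : l w = 0
  · by_cases c2 : l (w * a) = 0
    · exfalso
      apply hy
      have b1 : y / w ∈ KP a := by
        have := KP_mul (KP_mul he' (KP_O (pow_mem (bar_O a) n)))
          (KP_inv (pow_mem (self_O a) (N + (N + e + 1))) (pow_ne_zero _ h1)
            ((cop_bar a).pow (self_O a) _))
        refine (congrArg (· ∈ KP a) ?_).mp this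
        rw [hw, div_pow, hN]
        field_simp
        ring
      obtain ⟨β, b2, γ, b3, b4⟩ := k2 b1 (N + e)
      have w0 : w ≠ 0 := by rw [hw]; positivity
      have b5 : y = w * β + (1 - a) ^ e * z * (a ^ (N + (N + e + 1)) * γ * (y / w)) := by
        conv_lhs => rw [← mul_div_cancel₀ y w0, b4]
        generalize y / w = s
        rw [hw, div_pow]
        field_simp
        ring
      rw [b5, hl, ad_O ha hl c1 c2 b2,
        h0 _ (KP_mul he (KP_mul (KP_O (mul_mem (pow_mem (self_O a) _) b3)) b1))]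
      simp
    · rw [sum_ec (key a (self_O a)) c2]; simp
  · rw [sum_ec (by simpa using key 1 (one_mem _)) c1]; simp

theorem four0 [CharZero K] {a : K} {b : ℕ} (ha : a * (1 - a) = b) (hb : 2 ≤ b)
    (hK : ∀ z : K, ∃ p q : ℚ, z = p + q * a) (ι : K →+* ℂ) (hι : ι (1 - a) = conj (ι a))
    (ν : Measure (K → T)) [IsFiniteMeasure ν] (had : ∀ᵐ x ∂ν, Ad x) (hU : UI ι ν)
    (hA : ν (At a ν) = 0) {z : K} (hz : z ≠ 0) : ∫ x, ec (x z) ∂ν = 0 := by
  by_contra hc
  set c := ‖∫ x, ec (x z) ∂ν‖ with hcd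
  have c0 : 0 < c := norm_pos_iff.2 hc
  set M := (rh a ν).fst.real univ with hM
  have M0 : 0 ≤ M := measureReal_nonneg
  set t := c / (M + 1) with ht
  have t0 : 0 < t := by positivity
  have t1 : t * (M + 1) = c := by rw [ht]; field_simp
  obtain ⟨e, he⟩ := k4 ha hb hK z
  have h1 : ∀ n p q : ℕ, t * c ≤ (Ph a ν (zf a z n (n + e + 1) p q)).re := by
    intro n p q
    have b1 := c_le3 a ν (zf a z n (n + e + 1) p q) t t0.le
    have b2 := mp_int (hU _ (norm_zf ha hb ι hι n (n + e) p q)) (meas_ec z)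
    simp only [mu] at b2
    rw [zf, mul_comm z, b2, ← hcd, ← hM, mul_comm _ z] at b1
    rw [zf]
    nlinarith
  set I : ℕ → Finset (ℕ × ℕ) := fun n =>
    Finset.range (b ^ (n + e + 1)) ×ˢ Finset.range (b ^ (n + e + 1)) with hI
  have I0 : ∀ n, (0 : ℝ) < (I n).card := fun n => by
    have : 0 < b := by omega
    simp only [hI, Finset.card_product, Finset.card_range]; positivity
  have h3 := tendsto_integral_of_dominated_convergence (μ := sg a ν) (f := fun _ => (0 : ℂ))
    (F := fun n p => (((I n).card : ℝ) : ℂ)⁻¹ * ∑ i ∈ I n,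
      ec (p.1 (zf a z n (n + e + 1) i.1 i.2) - p.2 (zf a z n (n + e + 1) i.1 i.2)))
    (fun _ => 1) ?_ (integrable_const _) ?_ ?_
  · rw [integral_zero] at h3
    have h4 := (Complex.continuous_re.tendsto _).comp h3
    have h5 : t * c ≤ 0 := by
      refine ge_of_tendsto' h4 fun n => ?_
      simp only [Function.comp]
      rw [integral_const_mul, integral_finsetSum _ fun i _ => Integrable.of_bound
        (meas_df _).aestronglyMeasurable 1 (Eventually.of_forall fun x => (norm_ec _).le),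
        ← Complex.ofReal_inv, Complex.re_ofReal_mul, Complex.re_sum, le_inv_mul_iff₀ (I0 n)]
      have := Finset.card_nsmul_le_sum (I n) _ (t * c) fun i _ => h1 n i.1 i.2
      rw [nsmul_eq_mul] at this
      exact this
    nlinarith
  · exact fun n => ((Finset.measurable_sum _ fun j _ => meas_df _).const_mul _).aestronglyMeasurable
  · refine fun n => Eventually.of_forall fun p => ?_
    rw [norm_mul, norm_inv, Complex.norm_real, Real.norm_eq_abs, abs_of_pos (I0 n),
      inv_mul_le_iff₀ (I0 n)]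
    refine (norm_sum_le _ _).trans ?_
    simp [norm_ec]
  · filter_upwards [ae_sg a ν had hA] with p ⟨b1, b2, b3, b4⟩
    have b5 : Ad (p.1 - p.2) := fun u v => by
      simp only [Pi.sub_apply, b1 u v, b2 u v]; abel
    refine tendsto_const_nhds.congr' ?_
    filter_upwards [l_ev ha hb hK b5 (fun u hu => by
      rw [Pi.sub_apply, kp_eq.1 b3 u hu, sub_self]) (sub_ne_zero.2 b4.symm) hz he] with n hn
    simp only [Pi.sub_apply] at hn
    rw [hI, hn, mul_zero]

end Pool.Agent.H.MP_8b2bd9_co
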