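import Mathlib
import Pool.Agent.H.MP_8b2bd9_co.C
open MeasureTheory Set Filter Topology ProbabilityTheory
open scoped ENNReal Nat ComplexConjugate
open Pool.Agent.H.MP_fc94d9_co
namespace Pool.Agent.H.MP_8b2bd9_co

section gen
variable {X : Type} [MeasurableSpace X]

open Classical in
noncomputable def cn (S : X → X) (bad : Set X) : ℕ → X → ℕ
  | 0, _ => 0
  | k + 1, x => (if x ∈ bad then 1 else 0) + cn S bad k (S x)

open Classical in
noncomputable def mq (S : X → X) (bad : Set X) (D : ℕ) : ℕ → X → ℕ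
  | 0, _ => 0
  | k + 1, x => D * (if x ∈ bad then 1 else 0) + mq S bad D k (S x) - 1

omit [MeasurableSpace X] in
theorem cn_le_mq (S : X → X) (bad : Set X) (D k : ℕ) (x : X) :
    D * cn S bad k x ≤ mq S bad D k x + k := by
  induction k generalizing x with
  | zero => simp [cn]
  | succ k ih =>
    have := ih (S x)
    simp only [cn, mq, mul_add]; omega

omit [MeasurableSpace X] in
theorem mq_mono (S : X → X) (bad : Set X) (D k : ℕ) (x : X) :
    mq S bad D k x ≤ mq S bad D (k + 1) x := by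
  induction k generalizing x with
  | zero => simp [mq]
  | succ k ih =>
    have := ih (S x)
    rw [mq, mq]; omega

omit [MeasurableSpace X] in
theorem mq_le (S : X → X) (bad : Set X) (D k : ℕ) (x : X) : mq S bad D k x ≤ D * k := by
  induction k generalizing x with
  | zero => simp [mq]
  | succ k ih =>
    have := ih (S x)
    rw [mq, mul_add]; split_ifs <;> omega

open Classical in
theorem meas_cn {S : X → X} (hS : Measurable S) {bad : Set X} (hb : MeasurableSet bad) (k : ℕ) :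
    Measurable (cn S bad k) := by
  induction k with
  | zero => exact measurable_const
  | succ k ih =>
    exact (measurable_of_countable (fun p : ℕ × ℕ => p.1 + p.2)).comp
      ((Measurable.ite hb measurable_const measurable_const).prodMk (ih.comp hS))

open Classical in
theorem meas_mq {S : X → X} (hS : Measurable S) {bad : Set X} (hb : MeasurableSet bad) (D k : ℕ) :
    Measurable (mq S bad D k) := by
  induction k with
  | zero => exact measurable_const
  | succ k ih =>
    exact (measurable_of_countable (fun p : ℕ × ℕ => D * p.1 + p.2 - 1)).comp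
      ((Measurable.ite hb measurable_const measurable_const).prodMk (ih.comp hS))

theorem maxi (lam : Measure X) [IsFiniteMeasure lam] {S : X → X}
    (hS : MeasurePreserving S lam lam) {bad : Set X} (hb : MeasurableSet bad) (D : ℕ) :
    lam {x | ∀ k, D * cn S bad k x ≤ k}ᶜ ≤ D * lam bad := by
  have key : ∀ k, lam {x | 0 < mq S bad D (k + 1) x} ≤ D * lam bad := by
    intro k
    have hm := meas_mq hS.measurable hb D (k + 1)
    have hm' : Measurable fun x => (mq S bad D (k + 1) x : ℝ≥0∞) :=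
      (measurable_of_countable (fun p : ℕ => (p : ℝ≥0∞))).comp hm
    have hE : MeasurableSet {x | 0 < mq S bad D (k + 1) x} := measurableSet_lt measurable_const hm
    have hfin : ∫⁻ x, (mq S bad D (k + 1) x : ℝ≥0∞) ∂lam ≠ ⊤ := by
      refine ne_top_of_le_ne_top (b := ∫⁻ _, ((D * (k + 1) : ℕ) : ℝ≥0∞) ∂lam) ?_
        (lintegral_mono fun x => Nat.cast_le.2 (mq_le S bad D (k + 1) x))
      rw [lintegral_const]; exact ENNReal.mul_ne_top (ENNReal.natCast_ne_top _) (measure_ne_top _ _)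
    have h1 : ∫⁻ x, ((mq S bad D (k + 1) x : ℝ≥0∞) +
        {x | 0 < mq S bad D (k + 1) x}.indicator 1 x) ∂lam ≤
        ∫⁻ x, ((mq S bad D (k + 1) (S x) : ℝ≥0∞) + D * bad.indicator 1 x) ∂lam := by
      refine lintegral_mono fun x => ?_
      have h2 := mq_mono S bad D k (S x)
      by_cases hx : 0 < mq S bad D (k + 1) x
      · rw [Set.indicator_of_mem (show x ∈ {x | 0 < mq S bad D (k + 1) x} from hx)]
        by_cases hxb : x ∈ bad
        · rw [Set.indicator_of_mem hxb]
          have : mq S bad D (k + 1) x + 1 ≤ mq S bad D (k + 1) (S x) + D := by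
            rw [mq] at hx ⊢; simp only [hxb, if_true] at hx ⊢; omega
          simp only [Pi.one_apply, mul_one]; exact_mod_cast this
        · rw [Set.indicator_of_notMem hxb]
          have : mq S bad D (k + 1) x + 1 ≤ mq S bad D (k + 1) (S x) := by
            rw [mq] at hx ⊢; simp only [hxb, if_false] at hx ⊢; omega
          simp only [Pi.one_apply, mul_zero, add_zero]; exact_mod_cast this
      · rw [Set.indicator_of_notMem (show x ∉ {x | 0 < mq S bad D (k + 1) x} from hx)]
        have : mq S bad D (k + 1) x = 0 := by omega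
        simp [this]
    have hm2 : Measurable fun x => (mq S bad D (k + 1) (S x) : ℝ≥0∞) := hm'.comp hS.measurable
    rw [lintegral_add_left hm', lintegral_add_left hm2,
      lintegral_indicator_one hE, lintegral_const_mul _ (measurable_one.indicator hb),
      lintegral_indicator_one hb, hS.lintegral_comp hm'] at h1
    exact (ENNReal.add_le_add_iff_left hfin).1 h1
  have h2 : {x | ∀ k, D * cn S bad k x ≤ k}ᶜ ⊆ ⋃ k, {x | 0 < mq S bad D (k + 1) x} := by
    intro x hx
    simp only [mem_compl_iff, mem_setOf_eq, not_forall, not_le] at hx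
    obtain ⟨k, hk⟩ := hx
    have := cn_le_mq S bad D k x
    have := mq_mono S bad D k x
    exact mem_iUnion.2 ⟨k, show 0 < _ by omega⟩
  refine (measure_mono h2).trans ?_
  rw [Monotone.measure_iUnion]
  · exact iSup_le key
  · exact monotone_nat_of_le_succ fun k x hx => lt_of_lt_of_le hx (mq_mono _ _ _ _ _)

end gen

section code
variable {X C : Type} [DecidableEq C]

def cd (S : X → X) (c : X → C) : ℕ → X → List C
  | 0, _ => []
  | k + 1, y => c y :: cd S c k (S y)

def G2 (cs : Finset C) (Λ : List C → Finset C) : ℕ → List C → ℕ → Finset (List C)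
  | 0, _, _ => {[]}
  | k + 1, σ, r => (Λ σ).biUnion (fun c => (G2 cs Λ k (c :: σ) r).image (c :: ·)) ∪
      if r = 0 then ∅ else cs.biUnion (fun c => (G2 cs Λ k (c :: σ) (r - 1)).image (c :: ·))

theorem card_G2 {L W : ℕ} {cs : Finset C} {Λ : List C → Finset C} (hL : 1 ≤ L) (hW : 1 ≤ W)
    (hc : cs.card ≤ W) (hΛ : ∀ σ, (Λ σ).card ≤ L) (k : ℕ) (σ : List C) (r : ℕ) :
    (G2 cs Λ k σ r).card ≤ (2 * L) ^ k * W ^ r := by
  induction k generalizing σ r with
  | zero =>
    have : 1 ≤ W ^ r := Nat.one_le_pow _ _ hW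
    simpa [G2] using this
  | succ k ih =>
    rw [G2]
    refine (Finset.card_union_le _ _).trans ?_
    have h1 : ((Λ σ).biUnion (fun c => (G2 cs Λ k (c :: σ) r).image (c :: ·))).card ≤
        L * ((2 * L) ^ k * W ^ r) := by
      refine (Finset.card_biUnion_le_card_mul _ _ ((2 * L) ^ k * W ^ r)
        fun c _ => Finset.card_image_le.trans (ih _ _)).trans ?_
      exact Nat.mul_le_mul_right _ (hΛ σ)
    have h2 : (if r = 0 then (∅ : Finset (List C)) else
        cs.biUnion (fun c => (G2 cs Λ k (c :: σ) (r - 1)).image (c :: ·))).card ≤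
        L * ((2 * L) ^ k * W ^ r) := by
      split_ifs with h
      · simp
      · refine (Finset.card_biUnion_le_card_mul _ _ ((2 * L) ^ k * W ^ (r - 1))
          fun c _ => Finset.card_image_le.trans (ih _ _)).trans ?_
        obtain ⟨r, rfl⟩ := Nat.exists_eq_succ_of_ne_zero h
        rw [Nat.succ_sub_one, pow_succ]
        calc cs.card * ((2 * L) ^ k * W ^ r) ≤ W * ((2 * L) ^ k * W ^ r) :=
              Nat.mul_le_mul_right _ hc
          _ = 1 * ((2 * L) ^ k * (W ^ r * W)) := by ring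
          _ ≤ _ := Nat.mul_le_mul_right _ hL
    calc _ ≤ L * ((2 * L) ^ k * W ^ r) + L * ((2 * L) ^ k * W ^ r) := add_le_add h1 h2
      _ = _ := by ring

theorem cd_mem {S : X → X} {c : X → C} {cs : Finset C} {Λ : List C → Finset C} {bad : Set X}
    (hc : ∀ y, c y ∈ cs) (k : ℕ) (y : X) (σ : List C) (r : ℕ)
    (hb : ∀ j, S^[j] y ∉ bad → c (S^[j] y) ∈ Λ ((cd S c j y).reverse ++ σ))
    (h : cn S bad k y ≤ r) : cd S c k y ∈ G2 cs Λ k σ r := by
  induction k generalizing y σ r with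
  | zero => simp [cd, G2]
  | succ k ih =>
    rw [cd, G2, Finset.mem_union]
    rw [cn] at h
    have hb' : ∀ j, S^[j] (S y) ∉ bad →
        c (S^[j] (S y)) ∈ Λ ((cd S c j (S y)).reverse ++ c y :: σ) := fun j hj => by
      simpa [cd] using hb (j + 1) hj
    by_cases hyb : y ∈ bad
    · right
      simp only [hyb, if_true] at h
      rw [if_neg (by omega), Finset.mem_biUnion]
      exact ⟨_, hc y, Finset.mem_image.2 ⟨_, ih _ _ _ hb' (by omega), rfl⟩⟩
    · left
      simp only [hyb, if_false] at h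
      rw [Finset.mem_biUnion]
      exact ⟨_, by simpa [cd] using hb 0 hyb, Finset.mem_image.2 ⟨_, ih _ _ _ hb' (by omega), rfl⟩⟩

omit [DecidableEq C] in
theorem cd_len (S : X → X) (c : X → C) (k : ℕ) (y : X) : (cd S c k y).length = k := by
  induction k generalizing y with
  | zero => rfl
  | succ k ih => simp [cd, ih]

omit [DecidableEq C] in
theorem cd_eq {S : X → X} {c : X → C} {k : ℕ} {y y' : X} (h : cd S c k y = cd S c k y') :
    ∀ i < k, c (S^[i] y) = c (S^[i] y') := by
  induction k generalizing y y' with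
  | zero => simp
  | succ k ih =>
    rw [cd, cd, List.cons.injEq] at h
    intro i hi
    rcases i with _ | i
    · exact h.1
    · exact ih h.2 i (by omega)

end code

theorem few {X C : Type} [MeasurableSpace X] [MeasurableSpace C] [MeasurableSingletonClass C]
    (P : Measure X) [IsProbabilityMeasure P] {f : X → C} (hf : Measurable f) (L : ℕ)
    (cs : Finset C) (h : ∀ c ∈ cs, 1 ≤ L * P (f ⁻¹' {c})) : cs.card ≤ L := by
  have h1 : ∑ c ∈ cs, P (f ⁻¹' {c}) ≤ 1 := by
    rw [sum_measure_preimage_singleton cs fun c _ => hf (measurableSet_singleton c)]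
    exact prob_le_one
  have h2 : (cs.card : ℝ≥0∞) ≤ L := by
    calc (cs.card : ℝ≥0∞) = ∑ _c ∈ cs, (1 : ℝ≥0∞) := by simp
      _ ≤ ∑ c ∈ cs, L * P (f ⁻¹' {c}) := Finset.sum_le_sum h
      _ = L * ∑ c ∈ cs, P (f ⁻¹' {c}) := by rw [Finset.mul_sum]
      _ ≤ L * 1 := by gcongr
      _ = L := mul_one _
  exact_mod_cast h2

theorem sepc {K : Type} {W : Set ((K → T) × (K → T))} (hW : IsCompact W)
    (h : ∀ p ∈ W, p.1 ≠ p.2) :
    ∃ Φ : Finset K, ∃ δ : ℝ, 0 < δ ∧ ∀ p ∈ W, ∃ z ∈ Φ, δ < ‖p.1 z - p.2 z‖ := by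
  classical
  obtain ⟨t, ht⟩ := hW.elim_finite_subcover
    (fun i : K × ℕ => {p : (K → T) × (K → T) | 1 / ((i.2 : ℝ) + 1) < ‖p.1 i.1 - p.2 i.1‖})
    (fun i => isOpen_lt continuous_const (by fun_prop)) (fun p hp => by
      obtain ⟨z, hz⟩ := Function.ne_iff.1 (h p hp)
      obtain ⟨n, hn⟩ := exists_nat_one_div_lt (norm_pos_iff.2 (sub_ne_zero.2 hz))
      exact mem_iUnion.2 ⟨(z, n), hn⟩)
  refine ⟨t.image Prod.fst, 1 / (((t.sup Prod.snd : ℕ) : ℝ) + 1), by positivity, fun p hp => ?_⟩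
  obtain ⟨i, hi, h1⟩ := mem_iUnion₂.1 (ht hp)
  refine ⟨i.1, Finset.mem_image_of_mem _ hi, lt_of_le_of_lt ?_ h1⟩
  have : i.2 ≤ t.sup Prod.snd := Finset.le_sup (f := Prod.snd) hi
  gcongr

theorem cell_close {n : ℕ} {u v : T} (h : ⌊2 ^ n * rep u⌋₊ = ⌊2 ^ n * rep v⌋₊) :
    2 ^ n * ‖u - v‖ < 1 := by
  have hp : (0 : ℝ) < 2 ^ n := by positivity
  have a1 := Nat.floor_le (mul_nonneg hp.le (rep_nonneg u))
  have a2 := Nat.floor_le (mul_nonneg hp.le (rep_nonneg v))
  have a3 := Nat.lt_floor_add_one (2 ^ n * rep u)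
  have a4 := Nat.lt_floor_add_one (2 ^ n * rep v)
  rw [h] at a1 a3
  have a5 : ‖u - v‖ ≤ |rep u - rep v| := by
    refine le_trans (le_of_eq ?_) (norm_coe_le _)
    simp [coe_rep]
  refine lt_of_le_of_lt (mul_le_mul_of_nonneg_left a5 hp.le) ?_
  rw [← abs_of_pos hp, ← abs_mul, abs_lt]
  constructor <;> linarith

variable {K : Type} [Field K]

noncomputable def el (ι : K →+* ℂ) (ε : ℂ) : K → T := fun k => (((ε * ι k).re : ℝ) : T)

theorem ad_el (ι : K →+* ℂ) (ε : ℂ) : Ad (el ι ε) := fun u v => by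
  simp only [el, map_add, mul_add, Complex.add_re, AddCircle.coe_add]

theorem norm_el (ι : K →+* ℂ) (ε : ℂ) (k : K) : ‖el ι ε k‖ ≤ ‖ε‖ * ‖ι k‖ :=
  (norm_coe_le _).trans ((Complex.abs_re_le_norm _).trans (norm_mul _ _).le)

theorem ad_sub {x y : K → T} (h : Ad x) (h' : Ad y) : Ad (x - y) := fun u v => by
  simp only [Pi.sub_apply, h u v, h' u v]; abel

theorem near_of {ι : K →+* ℂ} {x x' : K → T} {ε ε' : ℂ} {δ : ℝ} (h1 : ‖ε‖ ≤ δ) (h2 : ‖ε'‖ ≤ δ)
    (k : K) : ‖(x - el ι ε - (x' - el ι ε')) k - (x k - x' k)‖ ≤ 2 * δ * ‖ι k‖ := by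
  have e : (x - el ι ε - (x' - el ι ε')) k - (x k - x' k) = el ι ε' k - el ι ε k := by
    simp only [Pi.sub_apply]; abel
  rw [e]
  have a1 := (norm_el ι ε k).trans (mul_le_mul_of_nonneg_right h1 (norm_nonneg _))
  have a2 := (norm_el ι ε' k).trans (mul_le_mul_of_nonneg_right h2 (norm_nonneg _))
  linarith [norm_sub_le (el ι ε' k) (el ι ε k)]

theorem mu_iter (u : K) (j : ℕ) (x : K → T) : (mu u)^[j] x = mu (u ^ j) x := by
  induction j with
  | zero => funext z; simp [mu]
  | succ j ih => rw [Function.iterate_succ_apply', ih]; funext z; simp only [mu, pow_succ, mul_assoc]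

noncomputable def cl (a : K) (n n' : ℕ) (y : K → T) : ℕ × ℕ :=
  cell n' (rep (y (((1 - a) ^ n)⁻¹ * 1)), rep (y (((1 - a) ^ n)⁻¹ * a)))

theorem cl_mem (a : K) (n n' : ℕ) (y : K → T) : cl a n n' y ∈ cells n' := by
  simp only [cells, cl, cell, Finset.mem_product, Finset.mem_range]
  exact ⟨floor_lt _ _, floor_lt _ _⟩

theorem meas_cl (a : K) (n n' : ℕ) : Measurable (cl a n n') := by
  have h : ∀ z : K, Measurable fun y : K → T => y z := fun z => measurable_pi_apply z
  exact (meas_cell n').comp ((meas_rep.comp (h _)).prodMk (meas_rep.comp (h _)))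

theorem norm_a {a : K} {b : ℕ} (ha : a * (1 - a) = b) {ι : K →+* ℂ}
    (hι : ι (1 - a) = conj (ι a)) : ‖ι a‖ ^ 2 = b ∧ ‖ι (1 - a)‖ = ‖ι a‖ := by
  have h := congrArg (fun z => ‖ι z‖) ha
  simp only [map_mul, norm_mul, hι, Complex.norm_conj, map_natCast, Complex.norm_natCast] at h
  exact ⟨by rw [sq, h], by rw [hι, Complex.norm_conj]⟩

theorem agree [CharZero K] {a : K} {b : ℕ} (ha : a * (1 - a) = b) (hb : 2 ≤ b) {ι : K →+* ℂ}
    (hι : ι (1 - a) = conj (ι a)) {n n' : ℕ} (hn : 2 * b ^ n ≤ 2 ^ n') {x x' : K → T} (hx : Ad x)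
    (hx' : Ad x') {ε ε' : ℂ} {δ : ℝ} (h1 : ‖ε‖ ≤ δ) (h2 : ‖ε'‖ ≤ δ) (hδ : δ * (4 * b * b ^ n) ≤ 1)
    (h0 : ∀ β ∈ O a, (x - el ι ε - (x' - el ι ε')) β = 0) (j : ℕ)
    (hc : ∀ i < j, cl a n n' ((mu ((a / (1 - a)) ^ n))^[i] x) =
      cl a n n' ((mu ((a / (1 - a)) ^ n))^[i] x')) :
    ∀ β ∈ O a, (x - el ι ε - (x' - el ι ε')) (((1 - a) ^ (n * j))⁻¹ * β) = 0 := by
  set D := x - el ι ε - (x' - el ι ε') with hD
  have hDa : Ad D := ad_sub (ad_sub hx (ad_el _ _)) (ad_sub hx' (ad_el _ _))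
  obtain ⟨a0, a1⟩ := a_ne ha hb
  obtain ⟨n1, n2⟩ := norm_a ha hι
  have b2 : (2 : ℝ) ≤ b := by exact_mod_cast hb
  have n3 : 1 ≤ ‖ι a‖ := by nlinarith [norm_nonneg (ι a)]
  have n4 : ‖ι a‖ ≤ b := by nlinarith
  have δ0 : 0 ≤ δ := (norm_nonneg _).trans h1
  induction j with
  | zero => simpa using h0
  | succ j ih =>
    have ih' := ih fun i hi => hc i (by omega)
    have h3 := hc j (by omega)
    rw [mu_iter, mu_iter] at h3
    set w := ((a / (1 - a)) ^ n) ^ j * ((1 - a) ^ n)⁻¹ with hw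
    have key : ∀ e ∈ O a, ‖ι e‖ ≤ b → 2 ^ n' * ‖x (w * e) - x' (w * e)‖ < 1 → D (w * e) = 0 := by
      intro e he c1 c2
      refine sep1 (n := b ^ n) (by positivity) ?_ ?_
      · rw [← hDa.nsmul, ← ih' _ (mul_mem (pow_mem (self_O a) (n * j + n)) he)]
        congr 1
        rw [nsmul_eq_mul, Nat.cast_pow, ← ha, hw, ← pow_mul, div_pow, mul_pow]
        field_simp
        ring
      · have c3 := near_of (ι := ι) (x := x) (x' := x') h1 h2 (w * e)
        have c4 : ‖ι (w * e)‖ ≤ b := by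
          rw [hw]
          simp only [map_mul, map_pow, map_div₀, map_inv₀, norm_mul, norm_pow, norm_div, norm_inv,
            n2]
          rw [div_self (by positivity), one_pow, one_pow, one_mul]
          have : (‖ι a‖ ^ n)⁻¹ ≤ 1 := inv_le_one_of_one_le₀ (one_le_pow₀ n3)
          calc _ ≤ 1 * (b : ℝ) := by gcongr
            _ = _ := one_mul _
        have c5 : ‖D (w * e)‖ ≤ ‖x (w * e) - x' (w * e)‖ + 2 * δ * b := by
          have := norm_add_le (D (w * e) - (x (w * e) - x' (w * e))) (x (w * e) - x' (w * e))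
          rw [sub_add_cancel] at this
          have c6 : 2 * δ * ‖ι (w * e)‖ ≤ 2 * δ * b := by gcongr
          linarith
        have c7 : (2 * b ^ n : ℝ) ≤ 2 ^ n' := by exact_mod_cast hn
        have c8 : 2 * b ^ n * ‖x (w * e) - x' (w * e)‖ ≤ 2 ^ n' * ‖x (w * e) - x' (w * e)‖ := by
          gcongr
        have c9 : (b : ℝ) ^ n * ‖D (w * e)‖ ≤ b ^ n * (‖x (w * e) - x' (w * e)‖ + 2 * δ * b) := by
          gcongr
        push_cast
        nlinarith
    have d1 := key 1 (one_mem _) (by simp; linarith) (by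
      simpa only [hw, mu, mul_assoc] using cell_close (congrArg Prod.fst h3))
    have d2 := key a (self_O a) n4 (by
      simpa only [hw, mu, mul_assoc] using cell_close (congrArg Prod.snd h3))
    intro β hβ
    obtain ⟨γ, e1, γ', e2, e3⟩ := cop_pow a (n * j) n
    have e4 : ((1 - a) ^ (n * (j + 1)))⁻¹ * β =
        w * (γ * β) + ((1 - a) ^ (n * j))⁻¹ * (γ' * β) := by
      rw [hw, ← pow_mul, div_pow, mul_add, mul_one, pow_add]
      field_simp
      linear_combination (-β) * e3
    rw [e4, hDa, ad_O ha hDa (by simpa using d1) d2 (mul_mem e1 hβ), ih' _ (mul_mem e2 hβ),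
      add_zero]

end Pool.Agent.H.MP_8b2bd9_co
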