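import Mathlib
import Pool.Agent.H.MP_8b2bd9_co.D
open MeasureTheory Set Filter Topology ProbabilityTheory
open scoped ENNReal Nat ComplexConjugate
open Pool.Agent.H.MP_fc94d9_co
namespace Pool.Agent.H.MP_8b2bd9_co

variable {K : Type} [Field K] [CharZero K]

def Adm (ι : K →+* ℂ) (a : K) (q : ℕ) (δ : ℝ) (τ x : K → T) : Prop :=
  Ad x ∧ ∃ ε : ℂ, ‖ε‖ ≤ δ ∧ ∀ β ∈ O a, (x - el ι ε) ((q : K)⁻¹ * β) = τ ((q : K)⁻¹ * β)

theorem net {a : K} {b : ℕ} (ha : a * (1 - a) = b) (hb : 2 ≤ b) {ι : K →+* ℂ}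
    (hι : ι (1 - a) = conj (ι a)) {q : ℕ} (hq : 0 < q) {δ : ℝ} (hδ : 0 < δ) :
    ∃ N : Finset (K → T), ∀ x, Ad x → ∃ τ ∈ N, Adm ι a q δ τ x := by
  classical
  have q0 : (0 : ℝ) < q := by exact_mod_cast hq
  obtain ⟨t, -, ht, hc⟩ := finite_cover_balls_of_compact (isCompact_univ (X := T × T))
    (e := δ / (3 * q)) (by positivity)
  have hre : (ι a).re = 1 / 2 := by
    have := congrArg Complex.re hι
    simp at this; linarith
  have him : 1 ≤ |(ι a).im| := by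
    have h1 := (norm_a ha hι).1
    rw [Complex.sq_norm, Complex.normSq_apply, hre] at h1
    have b2 : (2 : ℝ) ≤ b := by exact_mod_cast hb
    rw [← one_le_sq_iff_one_le_abs]; nlinarith
  have him0 : (ι a).im ≠ 0 := by intro h; rw [h] at him; norm_num at him
  set f : T × T → (K → T) := fun p =>
    if h : ∃ z : K → T, Ad z ∧ (z ((q : K)⁻¹), z ((q : K)⁻¹ * a)) = p then h.choose else 0 with hf
  refine ⟨ht.toFinset.image f, fun x hx => ?_⟩
  obtain ⟨p, hp, h1⟩ := mem_iUnion₂.1 (hc (mem_univ (x ((q : K)⁻¹), x ((q : K)⁻¹ * a))))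
  rw [Metric.mem_ball, dist_eq_norm] at h1
  obtain ⟨r1, a1, a2⟩ := exists_rep (x ((q : K)⁻¹) - p.1)
  obtain ⟨r2, b1, b2⟩ := exists_rep (x ((q : K)⁻¹ * a) - p.2)
  have a3 : |r1| ≤ δ / (3 * q) := a2.le.trans ((norm_fst_le (_ - p)).trans h1.le)
  have b3 : |r2| ≤ δ / (3 * q) := b2.le.trans ((norm_snd_le (_ - p)).trans h1.le)
  set ε : ℂ := q * (r1 + ((r1 / 2 - r2) / (ι a).im : ℝ) * Complex.I) with hε
  have qc : (q : ℂ) ≠ 0 := by exact_mod_cast hq.ne'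
  have e1 : el ι ε ((q : K)⁻¹) = r1 := by
    have : ε * ι ((q : K)⁻¹) = r1 + ((r1 / 2 - r2) / (ι a).im : ℝ) * Complex.I := by
      rw [hε, map_inv₀, map_natCast]; field_simp
    rw [el, this]; simp
  have e2 : el ι ε ((q : K)⁻¹ * a) = r2 := by
    have : ε * ι ((q : K)⁻¹ * a) = (r1 + ((r1 / 2 - r2) / (ι a).im : ℝ) * Complex.I) * ι a := by
      rw [hε, map_mul, map_inv₀, map_natCast]; field_simp
    rw [el, this]
    congr 1
    simp only [Complex.mul_re, Complex.add_re, Complex.ofReal_re, Complex.I_re, Complex.ofReal_im,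
      Complex.I_im, Complex.add_im, Complex.mul_im, hre]
    field_simp; ring
  have h2 : ∃ z : K → T, Ad z ∧ (z ((q : K)⁻¹), z ((q : K)⁻¹ * a)) = p :=
    ⟨x - el ι ε, ad_sub hx (ad_el _ _), by
      ext
      · simp [e1, a1]
      · simp [e2, b1]⟩
  have h3 : Ad (f p) ∧ (f p ((q : K)⁻¹), f p ((q : K)⁻¹ * a)) = p := by
    simp only [hf, dif_pos h2]; exact h2.choose_spec
  refine ⟨f p, Finset.mem_image_of_mem _ (ht.mem_toFinset.2 hp), hx, ε, ?_, fun β hβ => ?_⟩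
  · rw [hε, norm_mul, Complex.norm_natCast, ← le_div_iff₀' q0]
    refine (norm_add_le _ _).trans ?_
    rw [norm_mul, Complex.norm_I, mul_one, Complex.norm_real, Complex.norm_real, Real.norm_eq_abs,
      Real.norm_eq_abs, abs_div]
    have c1 := div_le_self (abs_nonneg (r1 / 2 - r2)) him
    have c2 := abs_sub (r1 / 2) r2
    rw [abs_div, abs_two] at c2
    have c3 : δ / q = 3 * (δ / (3 * q)) := by field_simp
    have c4 : 0 ≤ δ / (3 * q) := by positivity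
    linarith
  · have c1 : f p ((q : K)⁻¹) = p.1 := congrArg Prod.fst h3.2
    have c2 : f p ((q : K)⁻¹ * a) = p.2 := congrArg Prod.snd h3.2
    rw [← sub_eq_zero]
    exact ad_O ha (ad_sub (ad_sub hx (ad_el ι ε)) h3.1) (by simp [e1, a1, c1])
      (by simp [e2, b1, c2]) hβ

theorem adm_pair {ι : K →+* ℂ} {a : K} {q : ℕ} (hq : 0 < q) {δ : ℝ} {τ x x' : K → T}
    (h : Adm ι a q δ τ x) (h' : Adm ι a q δ τ x') : ∃ ε ε' : ℂ, ‖ε‖ ≤ δ ∧ ‖ε'‖ ≤ δ ∧
      (∀ β ∈ O a, (x - el ι ε - (x' - el ι ε')) ((q : K)⁻¹ * β) = 0) ∧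
      ∀ β ∈ O a, (x - el ι ε - (x' - el ι ε')) β = 0 := by
  obtain ⟨-, ε, h1, h2⟩ := h
  obtain ⟨-, ε', h3, h4⟩ := h'
  have h5 : ∀ β ∈ O a, (x - el ι ε - (x' - el ι ε')) ((q : K)⁻¹ * β) = 0 := fun β hβ => by
    rw [Pi.sub_apply, h2 β hβ, h4 β hβ, sub_self]
  refine ⟨ε, ε', h1, h3, h5, fun β hβ => ?_⟩
  have q0 : (q : K) ≠ 0 := by exact_mod_cast hq.ne'
  simpa [q0] using h5 _ (mul_mem (natCast_mem _ q) hβ)

theorem close_phi {a : K} {b : ℕ} (ha : a * (1 - a) = b) (hb : 2 ≤ b) {ι : K →+* ℂ}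
    (hι : ι (1 - a) = conj (ι a)) {n n' : ℕ} (hn : 2 * b ^ n ≤ 2 ^ n') {q : ℕ} (hq : 0 < q)
    {δ : ℝ} {τ x x' : K → T} (h : Adm ι a q δ τ x) (h' : Adm ι a q δ τ x')
    (hδ : δ * (4 * b * b ^ n) ≤ 1) (j : ℕ)
    (hc : ∀ i < j, cl a n n' ((mu ((a / (1 - a)) ^ n))^[i] x) =
      cl a n n' ((mu ((a / (1 - a)) ^ n))^[i] x')) {v : K} (h1 : v ∈ KP a) (h2 : q * v ∈ O a) :
    ‖(mu ((a / (1 - a)) ^ n))^[j] x v - (mu ((a / (1 - a)) ^ n))^[j] x' v‖ ≤ 2 * δ * ‖ι v‖ := by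
  obtain ⟨ε, ε', a1, a2, a3, a4⟩ := adm_pair hq h h'
  have a5 := agree ha hb hι hn h.1 h'.1 a1 a2 hδ a4 j hc
  obtain ⟨β, b1, γ, b2, b3⟩ := k2 h1 (n * j)
  obtain ⟨a0, a0'⟩ := a_ne ha hb
  have q0 : (q : K) ≠ 0 := by exact_mod_cast hq.ne'
  have e : ((a / (1 - a)) ^ n) ^ j * v = ((1 - a) ^ (n * j))⁻¹ * (a ^ (n * j) * β) +
      (q : K)⁻¹ * (a ^ (n * j) * γ * (q * v)) := by
    rw [← pow_mul, div_pow]
    field_simp
    linear_combination b3
  have c1 := near_of (ι := ι) (x := x) (x' := x') a1 a2 (((a / (1 - a)) ^ n) ^ j * v)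
  have c2 : (x - el ι ε - (x' - el ι ε')) (((a / (1 - a)) ^ n) ^ j * v) = 0 := by
    rw [e, ad_sub (ad_sub h.1 (ad_el _ _)) (ad_sub h'.1 (ad_el _ _)),
      a5 _ (mul_mem (pow_mem (self_O a) _) b1),
      a3 _ (mul_mem (mul_mem (pow_mem (self_O a) _) b2) h2), add_zero]
  have c3 : ‖ι (((a / (1 - a)) ^ n) ^ j * v)‖ = ‖ι v‖ := by
    have : ‖ι a‖ ≠ 0 := by rw [norm_ne_zero_iff, map_ne_zero]; exact a0
    simp only [map_mul, map_pow, map_div₀, norm_mul, norm_pow, norm_div, (norm_a ha hι).2]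
    rw [div_self this]; simp
  rw [c2, zero_sub, norm_neg, c3] at c1
  rw [mu_iter, mu_iter]
  exact c1

theorem pred [Countable K] {a : K} {b : ℕ} (ha : a * (1 - a) = b) (hb : 2 ≤ b)
    (hK : ∀ z : K, ∃ p q : ℚ, z = p + q * a) {ι : K →+* ℂ}
    (hι : ι (1 - a) = conj (ι a)) (lam : Measure (K → T)) [IsFiniteMeasure lam]
    (P : Kernel (K → T) (K → T)) [IsMarkovKernel P] {n n' : ℕ} (hn : 2 * b ^ n ≤ 2 ^ n') (L : ℕ)
    {ε : ℝ≥0∞} (hε : 0 < ε) : ∃ q0 : ℕ, 0 < q0 ∧ ∃ δ0 : ℝ, 0 < δ0 ∧ δ0 * (4 * b * b ^ n) ≤ 1 ∧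
      ∃ bad : Set (K → T), MeasurableSet bad ∧
      lam bad ≤ lam {x | L * P (kp a x) {x} < 1} + 4 ^ n' * (ε + ε) ∧
      ∀ q, 0 < q → q0 ∣ q → ∀ δ ≤ δ0, ∀ τ, ∃ Λ : List (ℕ × ℕ) → Finset (ℕ × ℕ),
        (∀ σ, (Λ σ).card ≤ L) ∧ ∀ x, Adm ι a q δ τ x → ∀ j,
          (mu ((a / (1 - a)) ^ n))^[j] x ∉ bad →
          cl a n n' ((mu ((a / (1 - a)) ^ n))^[j] x) ∈
            Λ ((cd (mu ((a / (1 - a)) ^ n)) (cl a n n') j x).reverse ++ []) := by
  classical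
  set E : ℕ × ℕ → Set (K → T) := fun c => {κ | 1 ≤ L * P κ (cl a n n' ⁻¹' {c})} with hE
  have hEm : ∀ c, MeasurableSet (E c) := fun c =>
    measurableSet_le measurable_const
      ((P.measurable_coe (meas_cl a n n' (measurableSet_singleton c))).const_mul _)
  have : IsFiniteMeasure (lam.map (kp a)) := Measure.isFiniteMeasure_map _ _
  choose C c1 c2 c3 using fun c =>
    (hEm c).exists_isClosed_sdiff_lt (μ := lam.map (kp a)) (measure_ne_top _ _) hε.ne'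
  choose C' d1 d2 d3 using fun c =>
    (hEm c).compl.exists_isClosed_sdiff_lt (μ := lam.map (kp a)) (measure_ne_top _ _) hε.ne'
  obtain ⟨Φ, δ1, δ1p, hsep⟩ := sepc (W := ⋃ c ∈ cells n', C c ×ˢ C' c)
    ((cells n').isCompact_biUnion fun c _ => (c2 c).isCompact.prod (d2 c).isCompact) (by
      intro p hp h
      obtain ⟨c, -, e1, e2⟩ := mem_iUnion₂.1 hp
      exact d1 c e2 (h ▸ c1 c e1))
  choose qf q1 q2 using k3 hK
  set R := ∑ z ∈ Φ, ‖ι z‖ with hR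
  have R0 : 0 ≤ R := Finset.sum_nonneg fun _ _ => norm_nonneg _
  have b0 : (0 : ℝ) < 4 * b * b ^ n := by have : 0 < b := by omega
                                          positivity
  have hm : ∀ c, MeasurableSet ((E c \ C c) ∪ ((E c)ᶜ \ C' c)) := fun c =>
    ((hEm c).diff (c2 c).measurableSet).union ((hEm c).compl.diff (d2 c).measurableSet)
  have hδ0 : ∀ δ ≤ min (δ1 / (2 * (R + 1))) (1 / (4 * b * b ^ n)), δ * (4 * b * b ^ n) ≤ 1 :=
    fun δ hδ => (le_div_iff₀ b0).1 (hδ.trans (min_le_right _ _))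
  set bad := {x | L * P (kp a x) {x} < 1} ∪
    ⋃ c ∈ cells n', kp a ⁻¹' ((E c \ C c) ∪ ((E c)ᶜ \ C' c)) with hbad
  refine ⟨∏ z ∈ Φ, qf z, Finset.prod_pos fun z _ => q1 z,
    min (δ1 / (2 * (R + 1))) (1 / (4 * b * b ^ n)), by positivity, hδ0 _ le_rfl, bad, ?_, ?_,
    fun q hq hq0 δ hδ τ => ?_⟩
  · refine (measurableSet_lt ((meas_at a P).const_mul _) measurable_const).union ?_
    exact Finset.measurableSet_biUnion _ fun c _ => meas_kp a (hm c)
  · refine (measure_union_le _ _).trans (add_le_add le_rfl ?_)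
    refine (measure_biUnion_finset_le _ _).trans ?_
    calc ∑ c ∈ cells n', lam (kp a ⁻¹' ((E c \ C c) ∪ ((E c)ᶜ \ C' c)))
          ≤ ∑ _c ∈ cells n', (ε + ε) := by
          refine Finset.sum_le_sum fun c _ => ?_
          rw [← Measure.map_apply (meas_kp a) (hm c)]
          exact (measure_union_le _ _).trans (add_le_add (c3 c).le (d3 c).le)
      _ = _ := by simp [card_cells, mul_add]
  · set S := mu ((a / (1 - a)) ^ n) with hS
    have hgood : ∀ y ∉ bad, kp a y ∈ C (cl a n n' y) ∧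
        ∀ c ∈ cells n', kp a y ∉ C' c → kp a y ∈ E c := by
      intro y hy
      simp only [hbad, mem_union, mem_setOf_eq, mem_iUnion, not_or, not_lt, not_exists,
        mem_preimage, mem_diff, not_and, not_not, mem_compl_iff] at hy
      refine ⟨(hy.2 _ (cl_mem a n n' y)).1 (hy.1.trans ?_), fun c hc h => ?_⟩
      · gcongr
        intro s hs
        rw [mem_singleton_iff.1 hs]; rfl
      · by_contra h'
        exact h ((hy.2 c hc).2 h')
    refine ⟨fun σ => (cells n').filter fun c => ∃ x j, Adm ι a q δ τ x ∧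
      (cd S (cl a n n') j x).reverse ++ [] = σ ∧ S^[j] x ∉ bad ∧ cl a n n' (S^[j] x) = c,
      fun σ => ?_, fun x hx j hj =>
        Finset.mem_filter.2 ⟨cl_mem _ _ _ _, x, j, hx, rfl, hj, rfl⟩⟩
    refine le_of_not_gt fun hlt => hlt.not_ge ?_
    obtain ⟨c0, hc0⟩ := Finset.card_pos.1 (Nat.zero_lt_of_lt hlt)
    obtain ⟨-, x0, j0, e1, e2, e3, -⟩ := Finset.mem_filter.1 hc0
    apply few (P (kp a (S^[j0] x0))) (meas_cl a n n') L
    intro c hc
    obtain ⟨hc1, x, j, f1, f2, f3, rfl⟩ := Finset.mem_filter.1 hc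
    have g1 := f2.trans e2.symm
    simp only [List.append_nil, List.reverse_inj] at g1
    have g2 : j = j0 := by rw [← cd_len S (cl a n n') j x, g1, cd_len]
    subst g2
    refine (hgood _ e3).2 _ hc1 fun h => ?_
    obtain ⟨z, z1, z2⟩ := hsep (kp a (S^[j] x), kp a (S^[j] x0))
      (mem_iUnion₂.2 ⟨_, hc1, (hgood _ f3).1, h⟩)
    by_cases z3 : z ∈ KP a
    · simp only [kp, z3, if_true] at z2
      obtain ⟨c, hc⟩ := (Finset.dvd_prod_of_mem qf z1).trans hq0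
      have g3 := close_phi ha hb hι hn hq f1 e1 (hδ0 δ hδ) j (cd_eq g1) z3 (by
        rw [hc, Nat.cast_mul, mul_comm (qf z : K), mul_assoc]
        exact mul_mem (natCast_mem _ _) (q2 z))
      have g4 : ‖ι z‖ ≤ R := Finset.single_le_sum (f := fun z => ‖ι z‖) (fun _ _ => norm_nonneg _) z1
      have g5 := (le_div_iff₀ (by positivity)).1 (hδ.trans (min_le_left _ _))
      have g6 : 0 ≤ δ := by obtain ⟨-, e, h, -⟩ := f1; exact (norm_nonneg _).trans h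
      nlinarith
    · simp only [kp, z3, if_false, sub_self, norm_zero] at z2
      linarith

end Pool.Agent.H.MP_8b2bd9_co
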