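import Mathlib
import Pool.Agent.H.MP_8b2bd9_co.E
open MeasureTheory Set Filter Topology ProbabilityTheory
open scoped ENNReal Nat ComplexConjugate
open Pool.Agent.H.MP_fc94d9_co
namespace Pool.Agent.H.MP_8b2bd9_co

variable {K : Type} [Field K] [CharZero K]

def wp (a : K) (b : ℕ) : K := b * (a - (1 - a))

omit [CharZero K] in
theorem wp_O (a : K) (b : ℕ) : wp a b ∈ O a :=
  mul_mem (natCast_mem _ _) (sub_mem (self_O a) (bar_O a))

omit [CharZero K] in
theorem wp_sq {a : K} {b : ℕ} (ha : a * (1 - a) = b) (hb : 2 ≤ b) :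
    wp a b ^ 2 = -((b ^ 2 * (4 * b - 1) : ℕ) : K) := by
  rw [Nat.cast_mul, Nat.cast_sub (by omega), wp]
  push_cast
  linear_combination (-4 * (b : K) ^ 2) * ha

theorem ph_bij {a : K} {b : ℕ} (ha : a * (1 - a) = b) (hb : 2 ≤ b)
    (hK : ∀ z : K, ∃ p q : ℚ, z = p + q * a) : Function.Bijective (ph (wp a b)) := by
  have b0 : (b : ℚ) ≠ 0 := by positivity
  have b1 : (b : K) ≠ 0 := by exact_mod_cast (by omega : b ≠ 0)
  constructor
  · intro z z' h
    obtain ⟨h1, h2⟩ := indep ha hb (p := z.1 - z'.1 - (z.2 - z'.2) * b) (q := 2 * b * (z.2 - z'.2))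
      (by simp only [ph, wp] at h; push_cast; linear_combination h)
    have h3 : z.2 - z'.2 = 0 := (mul_eq_zero.1 h2).resolve_left (by positivity)
    rw [h3] at h1
    exact Prod.ext (by linarith) (by linarith)
  · intro z
    obtain ⟨p, q, rfl⟩ := hK z
    refine ⟨(p + q / 2, q / (2 * b)), ?_⟩
    simp only [ph, wp]; push_cast; field_simp; ring

theorem norm_one {a : K} {b : ℕ} (ha : a * (1 - a) = b) (hb : 2 ≤ b) {ι : K →+* ℂ}
    (hι : ι (1 - a) = conj (ι a)) (z : G)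
    (hz : z.1 ^ 2 + ((b ^ 2 * (4 * b - 1) : ℕ) : ℚ) * z.2 ^ 2 = 1) : ‖ι (ph (wp a b) z)‖ = 1 := by
  have h1 : conj (ι (wp a b)) = -ι (wp a b) := by
    simp only [wp, map_mul, map_natCast, map_sub (ι) a, hι, map_sub (starRingEnd ℂ),
      Complex.conj_conj]
    ring
  have h2 : conj (ι (ph (wp a b) z)) = ι (z.1 - z.2 * wp a b) := by
    simp only [ph, map_add, map_mul, map_sub, map_ratCast, h1]; ring
  have h3 := Complex.mul_conj (ι (ph (wp a b) z))
  have h4 : ph (wp a b) z * (z.1 - z.2 * wp a b) = 1 := by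
    have h5 : (z.1 : K) ^ 2 + ((b ^ 2 * (4 * b - 1) : ℕ) : K) * (z.2 : K) ^ 2 = 1 := by
      exact_mod_cast hz
    rw [ph]; linear_combination h5 - (z.2 : K) ^ 2 * wp_sq ha hb
  rw [h2, ← map_mul, h4, map_one, Complex.normSq_eq_norm_sq] at h3
  have h6 : ‖ι (ph (wp a b) z)‖ ^ 2 = 1 := by exact_mod_cast h3.symm
  exact (pow_eq_one_iff_of_nonneg (norm_nonneg _) two_ne_zero).1 h6

theorem gu_inv {a : K} {b : ℕ} (ha : a * (1 - a) = b) (hb : 2 ≤ b) {ι : K →+* ℂ}
    (hι : ι (1 - a) = conj (ι a)) {lam : Measure (K → T)} (hU : UI ι lam) (t : ℚ) :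
    MeasurePreserving (fun x : Y => x ∘ gu (b ^ 2 * (4 * b - 1) : ℕ) t)
      (lam.map fun x => x ∘ ph (wp a b)) (lam.map fun x => x ∘ ph (wp a b)) := by
  have hw2 := wp_sq ha hb
  generalize hm : b ^ 2 * (4 * b - 1) = m at hw2 ⊢
  refine push_inv (hU (ph (wp a b) (al m t, be m t)) (norm_one ha hb hι _ ?_)) fun z => ?_
  · have h : (0 : ℚ) < 1 + m * t ^ 2 := by positivity
    rw [hm]; simp only [al, be]; field_simp; ring
  · simp only [ph, gu, mat]; push_cast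
    linear_combination (-(be m t : K) * z.2) * hw2

theorem norm_u {a : K} {b : ℕ} (ha : a * (1 - a) = b) (hb : 2 ≤ b) {ι : K →+* ℂ}
    (hι : ι (1 - a) = conj (ι a)) (n : ℕ) : ‖ι ((a / (1 - a)) ^ n)‖ = 1 := by
  have : ‖ι a‖ ≠ 0 := by rw [norm_ne_zero_iff, map_ne_zero]; exact (a_ne ha hb).1
  rw [map_pow, map_div₀, norm_pow, norm_div, (norm_a ha hι).2, div_self this, one_pow]

theorem meas_AdY : MeasurableSet {y : Y | Ad y} := by
  simp only [Ad, setOf_forall]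
  exact MeasurableSet.iInter fun a => MeasurableSet.iInter fun b =>
    measurableSet_eq_fun (measurable_pi_apply _)
      ((measurable_pi_apply a).add (measurable_pi_apply b))

theorem meas_CT (b : ℕ) : MeasurableSet (CT b) := by
  have e : CT b = ⋃ d : ℕ, ⋃ h : ℕ, Prod.fst '' {p : Y × Metric.closedBall (0 : ℝ × ℝ) h |
      ∀ k, (d + 1) • th ((p.1 - ell p.2) ∘ sc b k) = 0} := by
    ext x
    simp only [CT, mem_setOf_eq, mem_iUnion, mem_image]
    constructor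
    · rintro ⟨d, h1, ξ, h5⟩
      obtain ⟨d, rfl⟩ := Nat.exists_eq_succ_of_ne_zero h1.ne'
      obtain ⟨h, h4⟩ := exists_nat_ge ‖ξ‖
      exact ⟨d, h, (x, ⟨ξ, mem_closedBall_zero_iff.2 h4⟩), h5, rfl⟩
    · rintro ⟨d, h, p, h5, rfl⟩
      exact ⟨d + 1, d.succ_pos, p.2, h5⟩
  rw [e]
  refine MeasurableSet.iUnion fun d => MeasurableSet.iUnion fun h => IsClosed.measurableSet ?_
  have : CompactSpace (Metric.closedBall (0 : ℝ × ℝ) h) :=
    isCompact_iff_compactSpace.1 (isCompact_closedBall _ _)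
  refine isClosedMap_fst_of_compactSpace _ ?_
  rw [setOf_forall]
  refine isClosed_iInter fun k => isClosed_eq ?_ continuous_const
  have h1 : Continuous fun p : Y × Metric.closedBall (0 : ℝ × ℝ) h => p.1 - ell p.2 :=
    continuous_fst.sub (cont_ell.comp (continuous_subtype_val.comp continuous_snd))
  have h2 : Continuous fun y : Y => y ∘ sc b k := continuous_pi fun z => continuous_apply _
  exact (continuous_nsmul _).comp (cont_th.comp (h2.comp h1))

theorem th_ph (x : K → T) (w : K) (b k : ℕ) :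
    th ((x ∘ ph w) ∘ sc b k) = (x (((b : K) ^ k)⁻¹ * 1), x (((b : K) ^ k)⁻¹ * w)) := by
  simp [th, ph, sc, mat]

theorem at_lev [Countable K] {a : K} {b : ℕ} (ha : a * (1 - a) = b) (hb : 2 ≤ b)
    (hK : ∀ z : K, ∃ p q : ℚ, z = p + q * a) {ι : K →+* ℂ}
    (hι : ι (1 - a) = conj (ι a)) (lam : Measure (K → T)) [IsFiniteMeasure lam]
    (had : ∀ᵐ x ∂lam, Ad x) (hU : UI ι lam) (P1 P2 : Kernel (K → T) (K → T)) [IsMarkovKernel P1]
    [IsMarkovKernel P2] (L : ℕ) (hL : 1 ≤ L) :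
    lam ((fun x => x ∘ ph (wp a b)) ⁻¹' CT b)ᶜ ≤ ((6 * (400 * b) : ℕ) : ℝ≥0∞) *
      (lam {x | L * P1 (kp a x) {x} < 1} + lam {x | L * P2 (kp (1 - a) x) {x} < 1}) := by
  classical
  have ha' : (1 - a) * (1 - (1 - a)) = b := by rw [← ha]; ring
  have hι' : ι (1 - (1 - a)) = conj (ι (1 - a)) := by rw [hι, sub_sub_cancel, Complex.conj_conj]
  have hK' : ∀ z : K, ∃ p q : ℚ, z = p + q * (1 - a) := fun z => by
    obtain ⟨p, q, rfl⟩ := hK z
    exact ⟨p + q, -q, by push_cast; ring⟩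
  set n := 400 * L with hn0
  set n' := b * n + 1 with hn'
  set D := 400 * b with hD
  set m := b ^ 2 * (4 * b - 1) with hm
  have hn : 2 * b ^ n ≤ 2 ^ n' := by
    rw [hn', pow_succ', pow_mul 2 b n]
    exact Nat.mul_le_mul_left _ (Nat.pow_le_pow_left Nat.lt_two_pow_self.le _)
  apply ENNReal.le_of_forall_pos_le_add
  intro η hη _
  have c0 : ((6 * D : ℕ) : ℝ≥0∞) * (4 * 4 ^ n') ≠ 0 := by
    have : 6 * D ≠ 0 := by omega
    positivity
  have c1 : ((6 * D : ℕ) : ℝ≥0∞) * (4 * 4 ^ n') ≠ ⊤ :=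
    ENNReal.mul_ne_top (ENNReal.natCast_ne_top _) (ENNReal.mul_ne_top (by simp) (by simp))
  have hε : (0 : ℝ≥0∞) < η / (((6 * D : ℕ) : ℝ≥0∞) * (4 * 4 ^ n')) :=
    ENNReal.div_pos (by simpa using hη.ne') c1
  obtain ⟨q1, q1p, δ1, δ1p, δ1b, bad1, m1, l1, p1⟩ := pred ha hb hK hι lam P1 hn L hε
  obtain ⟨q2, q2p, δ2, δ2p, δ2b, bad2, m2, l2, p2⟩ := pred ha' hb hK' hι' lam P2 hn L hε
  set δ := min (min δ1 δ2) (1 / (2 * (1 + ‖ι (wp a b)‖))) with hδ
  have δp : 0 < δ := by positivity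
  have hq : 0 < q1 * q2 := Nat.mul_pos q1p q2p
  choose Λ1 a1 a2 using p1 _ hq (Dvd.intro _ rfl) δ ((min_le_left _ _).trans (min_le_left _ _))
  choose Λ2 b1 b2 using p2 _ hq (Dvd.intro_left _ rfl) δ
    ((min_le_left _ _).trans (min_le_right _ _))
  obtain ⟨N, hN⟩ := net ha hb hι hq δp
  choose! τ t1 t2 using hN
  set S1 := mu ((a / (1 - a)) ^ n) with hS1
  set S2 := mu (((1 - a) / (1 - (1 - a))) ^ n) with hS2
  set e := Equiv.ofBijective _ (ph_bij ha hb hK) with he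
  have he1 : ∀ z, ph (wp a b) (e.symm z) = z := fun z => e.apply_symm_apply z
  have he2 : ∀ z, e.symm (ph (wp a b) z) = z := fun z => e.symm_apply_apply z
  have hadd : ∀ y : Y, Ad y → Ad (y ∘ e.symm) := fun y hy u v => by
    simp only [Function.comp, ← hy _ _]
    congr 1
    apply (ph_bij ha hb hK).1
    conv_rhs => rw [ph]
    have := he1 u
    have := he1 v
    rw [he1]
    simp only [ph, Prod.fst_add, Prod.snd_add] at *
    push_cast
    grind
  have hme : Measurable fun y : Y => y ∘ e.symm :=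
    measurable_pi_lambda _ fun z => measurable_pi_apply _
  set Gd : Set (K → T) := {x | ∀ k, D * cn S1 bad1 k x ≤ k} ∩ {x | ∀ k, D * cn S2 bad2 k x ≤ k}
    with hGd
  have hG : MeasurableSet Gd := by
    refine MeasurableSet.inter ?_ ?_ <;> rw [setOf_forall]
    · exact MeasurableSet.iInter fun k => measurableSet_le
        ((meas_cn (meas_mu _) m1 k).const_mul _) measurable_const
    · exact MeasurableSet.iInter fun k => measurableSet_le
        ((meas_cn (meas_mu _) m2 k).const_mul _) measurable_const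
  set Q := N.card with hQ
  have hQp : 0 < Q := Finset.card_pos.2 ⟨_, t1 0 fun _ _ => by simp⟩
  set Z := ((2 * L) ^ D * 4 ^ n') ^ 2 with hZ
  have hZ2 : 2 ≤ Z := by
    have a1 : 1 ≤ (2 * L) ^ D := Nat.one_le_pow _ _ (by omega)
    have a2 : 4 ^ 1 ≤ 4 ^ n' := Nat.pow_le_pow_right (by norm_num) (by omega)
    have a3 : 2 ≤ (2 * L) ^ D * 4 ^ n' := by nlinarith
    exact a3.trans (Nat.le_self_pow (by norm_num) _)
  set r : ℕ → ℕ := fun j => 2 ^ j * (16 * (1 + m) * Q ^ 2) with hr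
  have hr0 : ∀ j, 16 * (1 + m) * Q ^ 2 ≤ r j := fun j =>
    Nat.le_mul_of_pos_left _ (by positivity)
  have hmain := EF2 m b (Nat.mul_pos (by positivity) (by omega)) hb
    (Dvd.dvd.mul_right (dvd_pow_self b two_ne_zero) _) (lam.map fun x => x ∘ ph (wp a b))
    ((ae_map_iff (meas_ph _).aemeasurable meas_AdY).2 (had.mono fun x hx => hx.ph _))
    (fun t => gu_inv ha hb hι hU t) (hme hG) (fun j => Z ^ (3 * r j)) (fun j => Q * Z ^ r j)
    (fun j => n * (D * r j)) ?_ ?_ ?_ ?_ ?_ ?_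
  · rw [Measure.map_apply (meas_ph _) (meas_CT b).compl,
      Measure.map_apply (meas_ph _) (hme hG).compl] at hmain
    refine hmain.trans ?_
    have e1 : (fun x : K → T => x ∘ ph (wp a b)) ⁻¹' ((fun y : Y => y ∘ e.symm) ⁻¹' Gd)ᶜ = Gdᶜ := by
      ext x
      have : (x ∘ ph (wp a b)) ∘ e.symm = x := funext fun z => congrArg x (he1 z)
      simp only [mem_preimage, mem_compl_iff, this]
    have e2 := maxi lam (hU _ (norm_u ha hb hι n)) m1 D
    have e3 := maxi lam (hU _ (norm_u ha' hb hι' n)) m2 D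
    rw [e1, hGd, compl_inter]
    calc _ ≤ 6 * ((D : ℝ≥0∞) * lam bad1 + D * lam bad2) := by
          gcongr; exact (measure_union_le _ _).trans (add_le_add e2 e3)
      _ = ((6 * D : ℕ) : ℝ≥0∞) * (lam bad1 + lam bad2) := by push_cast; ring
      _ ≤ ((6 * D : ℕ) : ℝ≥0∞) * (_ + _) := mul_le_mul_right (add_le_add l1 l2) _
      _ = _ := by
        conv_rhs => rw [← ENNReal.mul_div_cancel (b := η) c0 c1]
        ring
  · intro j
    rw [← pow_mul Z]; exact congrArg (Z ^ ·) (by simp only [hr]; ring)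
  · intro j; positivity
  · intro j
    have a1 : r j ≤ Z ^ r j := (Nat.lt_pow_self (by omega)).le
    calc 16 * (1 + m) * (Q * Z ^ r j) ^ 2 = 16 * (1 + m) * Q ^ 2 * (Z ^ r j) ^ 2 := by ring
      _ ≤ Z ^ r j * (Z ^ r j) ^ 2 := Nat.mul_le_mul_right _ ((hr0 j).trans a1)
      _ = _ := by ring
  · intro j; simp only [hr]; ring
  · intro j
    have a1 : Z ^ 48 ≤ 2 ^ (n * D) := by
      have b1 : 2 * L ≤ 2 ^ (2 * L) := Nat.lt_two_pow_self.le
      calc Z ^ 48 ≤ (((2 ^ (2 * L)) ^ D * 4 ^ n') ^ 2) ^ 48 := by rw [hZ]; gcongr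
        _ = 2 ^ ((2 * L * D + 2 * n') * 2 * 48) := by
          rw [show (4 : ℕ) = 2 ^ 2 by norm_num, ← pow_mul, ← pow_mul, ← pow_mul, ← pow_add,
            ← pow_mul, mul_assoc (_ + _)]
        _ ≤ _ := Nat.pow_le_pow_right (by norm_num) (by
          have : 1 ≤ b * L := Nat.mul_pos (by omega) hL
          rw [hn', hD, hn0]; nlinarith)
    calc (Z ^ (3 * r j)) ^ 16 = (Z ^ 48) ^ r j := by
          rw [← pow_mul Z, ← pow_mul Z]; exact congrArg (Z ^ ·) (by ring)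
      _ ≤ (2 ^ (n * D)) ^ r j := by gcongr
      _ = _ := by rw [← pow_mul, mul_assoc]
  · intro j F y hy hF
    have W1 : 1 ≤ 4 ^ n' := Nat.one_le_pow _ _ (by norm_num)
    have hc : (N.biUnion fun σ => {σ} ×ˢ (G2 (cells n') (Λ1 σ) (D * r j) [] (r j) ×ˢ
        G2 (cells n') (Λ2 σ) (D * r j) [] (r j))).card < F.card := by
      refine lt_of_le_of_lt ?_ hF
      refine Finset.card_biUnion_le_card_mul _ _ _ fun σ _ => ?_
      rw [Finset.card_product, Finset.card_product, Finset.card_singleton, one_mul, hZ, ← pow_mul,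
        mul_comm 2 (r j), pow_mul, sq, mul_pow ((2 * L) ^ D), ← pow_mul (2 * L)]
      exact Nat.mul_le_mul (card_G2 hL W1 (card_cells n').le (a1 σ) _ _ _)
        (card_G2 hL W1 (card_cells n').le (b1 σ) _ _ _)
    have hx : ∀ t ∈ F, Ad (y t ∘ e.symm) := fun t ht => hadd _ (hy t ht).1
    have hA2 : ∀ σ x, Adm ι a (q1 * q2) δ σ x → Adm ι (1 - a) (q1 * q2) δ σ x := fun σ x h => by
      simpa only [Adm, O_bar] using h
    have D0 : 0 < D := by omega
    obtain ⟨t, ht, s, hs, hne, h⟩ := Finset.exists_ne_map_eq_of_card_lt_of_maps_to hc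
      (f := fun t => (τ (y t ∘ e.symm), cd S1 (cl a n n') (D * r j) (y t ∘ e.symm),
        cd S2 (cl (1 - a) n n') (D * r j) (y t ∘ e.symm))) (fun t ht => by
        refine Finset.mem_coe.2 (Finset.mem_biUnion.2 ⟨_, t1 _ (hx t ht), Finset.mem_product.2
          ⟨Finset.mem_singleton_self _, Finset.mem_product.2 ⟨?_, ?_⟩⟩⟩)
        · exact cd_mem (cl_mem a n n') _ _ _ _ (a2 _ _ (t2 _ (hx t ht)))
            (Nat.le_of_mul_le_mul_left ((hy t ht).2.1 (D * r j)) D0)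
        · exact cd_mem (cl_mem (1 - a) n n') _ _ _ _ (b2 _ _ (hA2 _ _ (t2 _ (hx t ht))))
            (Nat.le_of_mul_le_mul_left ((hy t ht).2.2 (D * r j)) D0))
    refine ⟨t, ht, s, hs, hne, ?_⟩
    simp only [Prod.mk.injEq] at h
    have f1 := t2 _ (hx t ht)
    rw [h.1] at f1
    obtain ⟨ε, ε', g1, g2, -, g4⟩ := adm_pair hq f1 (t2 _ (hx s hs))
    have bp : (0 : ℝ) ≤ 4 * b * b ^ n := by positivity
    have g5 := agree ha hb hι hn (hx t ht) (hx s hs) g1 g2 ((mul_le_mul_of_nonneg_right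
      ((min_le_left _ _).trans (min_le_left _ _)) bp).trans δ1b) g4 _ (cd_eq h.2.1)
    have g6 := agree ha' hb hι' hn (hx t ht) (hx s hs) g1 g2 ((mul_le_mul_of_nonneg_right
      ((min_le_left _ _).trans (min_le_right _ _)) bp).trans δ2b) (by rwa [O_bar]) _ (cd_eq h.2.2)
    rw [O_bar, sub_sub_cancel] at g6
    obtain ⟨a0, a0'⟩ := a_ne ha hb
    have key : ∀ β ∈ O a, ‖ι β‖ ≤ 1 + ‖ι (wp a b)‖ →
        ‖(y t ∘ e.symm) (((b : K) ^ (n * (D * r j)))⁻¹ * β) -
          (y s ∘ e.symm) (((b : K) ^ (n * (D * r j)))⁻¹ * β)‖ ≤ 1 / b ^ (n * (D * r j)) := by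
      intro β hβ h1
      obtain ⟨γ, u1, γ', u2, u3⟩ := cop_pow a (n * (D * r j)) (n * (D * r j))
      have u4 := near_of (ι := ι) (x := y t ∘ e.symm) (x' := y s ∘ e.symm) g1 g2
        (((b : K) ^ (n * (D * r j)))⁻¹ * β)
      have u5 : ((b : K) ^ (n * (D * r j)))⁻¹ * β = ((1 - a) ^ (n * (D * r j)))⁻¹ * (γ * β) +
          (a ^ (n * (D * r j)))⁻¹ * (γ' * β) := by
        rw [← ha, mul_pow]; field_simp; linear_combination (-β) * u3
      have u6 : (y t ∘ e.symm - el ι ε - (y s ∘ e.symm - el ι ε'))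
          (((b : K) ^ (n * (D * r j)))⁻¹ * β) = 0 := by
        rw [u5, ad_sub (ad_sub (hx t ht) (ad_el _ _)) (ad_sub (hx s hs) (ad_el _ _)),
          g5 _ (mul_mem u1 hβ), g6 _ (mul_mem u2 hβ), add_zero]
      rw [u6, zero_sub, norm_neg, map_mul, norm_mul, map_inv₀, norm_inv, map_pow, map_natCast,
        norm_pow, Complex.norm_natCast] at u4
      refine u4.trans ?_
      have u7 := (le_div_iff₀ (by positivity)).1 (min_le_right (min δ1 δ2)
        (1 / (2 * (1 + ‖ι (wp a b)‖))))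
      rw [← hδ] at u7
      rw [one_div, mul_left_comm]
      refine mul_le_of_le_one_right (by positivity) ?_
      nlinarith
    have f2 : ∀ t, y t = (y t ∘ e.symm) ∘ ph (wp a b) := fun t =>
      funext fun z => congrArg (y t) (he2 z).symm
    rw [f2 t, f2 s, th_ph, th_ph, Prod.norm_def, max_le_iff]
    exact ⟨key 1 (one_mem _) (by simp), key _ (wp_O a b) (by simp)⟩

theorem atomic2 [Countable K] {a : K} {b : ℕ} (ha : a * (1 - a) = b) (hb : 2 ≤ b)
    (hK : ∀ z : K, ∃ p q : ℚ, z = p + q * a) {ι : K →+* ℂ}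
    (hι : ι (1 - a) = conj (ι a)) (lam : Measure (K → T)) [IsFiniteMeasure lam]
    (had : ∀ᵐ x ∂lam, Ad x) (hU : UI ι lam) (P1 P2 : Kernel (K → T) (K → T)) [IsMarkovKernel P1]
    [IsMarkovKernel P2] (h1 : ∀ᵐ x ∂lam, 0 < P1 (kp a x) {x})
    (h2 : ∀ᵐ x ∂lam, 0 < P2 (kp (1 - a) x) {x}) :
    lam ((fun x => x ∘ ph (wp a b)) ⁻¹' CT b)ᶜ = 0 := by
  have key : ∀ f : (K → T) → ℝ≥0∞, Measurable f → (∀ᵐ x ∂lam, 0 < f x) →
      Tendsto (fun L : ℕ => lam {x | ((L + 1 : ℕ) : ℝ≥0∞) * f x < 1}) atTop (𝓝 0) := by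
    intro f hf hA
    have h1 := tendsto_measure_iInter_atTop (μ := lam)
      (s := fun L : ℕ => {x | ((L + 1 : ℕ) : ℝ≥0∞) * f x < 1})
      (fun L => (measurableSet_lt (hf.const_mul _) measurable_const).nullMeasurableSet)
      (fun a b hab x hx => by
        refine lt_of_le_of_lt ?_ (show ((b + 1 : ℕ) : ℝ≥0∞) * f x < 1 from hx)
        gcongr) ⟨0, measure_ne_top _ _⟩
    have h2 : lam (⋂ L : ℕ, {x | ((L + 1 : ℕ) : ℝ≥0∞) * f x < 1}) = 0 := by
      refine measure_mono_null (fun x hx => ?_) (ae_iff.1 hA)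
      intro hp
      obtain ⟨L, hL⟩ := ENNReal.exists_nat_mul_gt hp.ne' ENNReal.one_ne_top
      have := mem_iInter.1 hx L
      refine lt_asymm this (lt_of_lt_of_le hL ?_)
      gcongr; omega
    rwa [h2] at h1
  have h3 := ENNReal.Tendsto.const_mul (a := ((6 * (400 * b) : ℕ) : ℝ≥0∞))
    ((key _ (meas_at a P1) h1).add (key _ (meas_at (1 - a) P2) h2))
    (Or.inr (ENNReal.natCast_ne_top _))
  rw [add_zero, mul_zero] at h3
  exact le_antisymm (ge_of_tendsto' h3 fun L =>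
    at_lev ha hb hK hι lam had hU P1 P2 (L + 1) (by omega)) zero_le

end Pool.Agent.H.MP_8b2bd9_co
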