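import Mathlib
import Pool.Agent.H.MP_8b2bd9_co.F
open MeasureTheory Set Filter Topology ProbabilityTheory
open scoped ENNReal Nat ComplexConjugate
open Pool.Agent.H.MP_fc94d9_co
namespace Pool.Agent.H.MP_8b2bd9_co

section K
variable {K : Type} [Field K] [CharZero K]

def CK (ι : K →+* ℂ) (a : K) (b : ℕ) : Set (K → T) := {x | ∃ d, 0 < d ∧ ∃ ε : ℂ,
  ∀ (k : ℕ) (p q : ℤ), d • (x - el ι ε) (((b : K) ^ k)⁻¹ * (p + q * a)) = 0}

theorem el_ph {a : K} {b : ℕ} (ι : K →+* ℂ) (ε : ℂ) :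
    el ι ε ∘ ph (wp a b) = ell (ε.re, (ε * ι (wp a b)).re) := by
  funext z
  simp only [el, ell, ph, Function.comp, map_add, map_mul, map_ratCast]
  congr 1
  simp; ring

theorem ck_iff {a : K} {b : ℕ} (ha : a * (1 - a) = b) (hb : 2 ≤ b) {ι : K →+* ℂ}
    (hι : ι (1 - a) = conj (ι a)) {x : K → T} (hx : Ad x) :
    x ∘ ph (wp a b) ∈ CT b ↔ x ∈ CK ι a b := by
  have b1 : (b : K) ≠ 0 := by exact_mod_cast (by omega : b ≠ 0)
  constructor
  · rintro ⟨d, hd, ξ, h⟩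
    have h1 : (ι (wp a b)).re = 0 := by
      have := congrArg Complex.re hι
      simp only [wp, map_mul, map_sub, map_natCast, map_one] at this ⊢
      simp at this ⊢
      right; linarith
    have h2 : (ι (wp a b)).im ≠ 0 := by
      intro h2
      have h3 : wp a b = 0 := (map_eq_zero ι).1 (Complex.ext h1 h2)
      have h4 := wp_sq ha hb
      rw [h3, zero_pow two_ne_zero, zero_eq_neg, Nat.cast_eq_zero] at h4
      have : 0 < b ^ 2 * (4 * b - 1) := Nat.mul_pos (by positivity) (by omega)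
      omega
    set ε : ℂ := ⟨ξ.1, -(ξ.2 / (ι (wp a b)).im)⟩ with hε
    have h3 : el ι ε ∘ ph (wp a b) = ell ξ := by
      rw [el_ph]; congr 1
      ext
      · rfl
      · simp only [hε, Complex.mul_re, h1]; field_simp; ring
    have hD := ad_sub hx (ad_el ι ε)
    have h4 : ∀ k, d • th (((x - el ι ε) ∘ ph (wp a b)) ∘ sc b k) = 0 := fun k => by
      rw [← h k, ← h3]; rfl
    simp only [th_ph] at h4
    have h5 : ∀ k : ℕ, d • (x - el ι ε) (((b : K) ^ k)⁻¹ * 1) = 0 := fun k =>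
      congrArg Prod.fst (h4 k)
    have h6 : ∀ k : ℕ, d • (x - el ι ε) (((b : K) ^ k)⁻¹ * wp a b) = 0 := fun k =>
      congrArg Prod.snd (h4 k)
    refine ⟨d * 2, by omega, ε, fun k p q => ?_⟩
    have e : 2 • (((b : K) ^ k)⁻¹ * (p + q * a)) = (2 * p + q) • (((b : K) ^ k)⁻¹ * 1) +
        q • (((b : K) ^ (k + 1))⁻¹ * wp a b) := by
      simp only [nsmul_eq_mul, zsmul_eq_mul, wp]; push_cast; field_simp; ring
    rw [mul_nsmul', ← hD.nsmul, e, hD, hD.zsmul, hD.zsmul, smul_add, smul_comm d, h5, smul_comm d,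
      h6]
    simp
  · rintro ⟨d, hd, ε, h⟩
    refine ⟨d, hd, (ε.re, (ε * ι (wp a b)).re), fun k => ?_⟩
    rw [← el_ph]
    change d • th (((x - el ι ε) ∘ ph (wp a b)) ∘ sc b k) = 0
    rw [th_ph]
    ext
    · simpa using h k 1 0
    · have := h k (-b) (2 * b)
      rw [show (((-b : ℤ) : K) + ((2 * b : ℤ) : K) * a) = wp a b by rw [wp]; push_cast; ring] at this
      exact this

theorem ck_mu {a : K} {b : ℕ} (ha : a * (1 - a) = b) (hK : ∀ z : K, ∃ p q : ℚ, z = p + q * a)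
    {ι : K →+* ℂ} {x : K → T} (hx : Ad x) (h : x ∈ CK ι a b) (g : K) : mu g x ∈ CK ι a b := by
  obtain ⟨d, hd, ε, h⟩ := h
  obtain ⟨n, hn, h1⟩ := k3 hK g
  refine ⟨d * n, Nat.mul_pos hd hn, ε * ι g, fun k p q => ?_⟩
  obtain ⟨p', q', h2⟩ := mem_O ha (mul_mem h1
    (add_mem (intCast_mem _ p) (mul_mem (intCast_mem _ q) (self_O a))))
  have e : (mu g x - el ι (ε * ι g)) (((b : K) ^ k)⁻¹ * (p + q * a)) =
      (x - el ι ε) (g * (((b : K) ^ k)⁻¹ * (p + q * a))) := by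
    simp only [Pi.sub_apply, mu, el, map_mul ι g, mul_assoc]
  rw [e, mul_nsmul', ← (ad_sub hx (ad_el ι ε)).nsmul, ← h k p' q', ← h2]
  congr 2
  rw [nsmul_eq_mul]; ring

theorem strucK [Countable K] {a : K} {b : ℕ} (ha : a * (1 - a) = b) (hb : 2 ≤ b)
    (hK : ∀ z : K, ∃ p q : ℚ, z = p + q * a) {ι : K →+* ℂ}
    (hι : ι (1 - a) = conj (ι a)) (μ : Measure (K → T)) [IsFiniteMeasure μ]
    (had : ∀ᵐ x ∂μ, Ad x) (hU : UI ι μ) {z : K} (hz : z ≠ 0) :
    ∫ x in ((fun x => x ∘ ph (wp a b)) ⁻¹' CT b)ᶜ, ec (x z) ∂μ = 0 := by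
  have ha' : (1 - a) * (1 - (1 - a)) = b := by rw [← ha]; ring
  have hι' : ι (1 - (1 - a)) = conj (ι (1 - a)) := by rw [hι, sub_sub_cancel, Complex.conj_conj]
  have hK' : ∀ z : K, ∃ p q : ℚ, z = p + q * (1 - a) := fun z => by
    obtain ⟨p, q, rfl⟩ := hK z
    exact ⟨p + q, -q, by push_cast; ring⟩
  have ne0 : ∀ h : K, ‖ι h‖ = 1 → h ≠ 0 := by rintro h h1 rfl; simp at h1
  set C := (fun x : K → T => x ∘ ph (wp a b)) ⁻¹' CT b with hC
  have hCm : MeasurableSet C := meas_ph _ (meas_CT b)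
  have hint : ∀ (ν : Measure (K → T)) [IsFiniteMeasure ν], Integrable (fun x => ec (x z)) ν :=
    fun ν _ => Integrable.of_bound (meas_ec z).aestronglyMeasurable 1
      (Eventually.of_forall fun x => (norm_ec _).le)
  set ν := μ.restrict Cᶜ with hν
  have u0 : UI ι ν := fun h hh => (inv_res (hU h hh) hCm (ae_eq_of_ae_subset_of_measure_ge
    (had.mono fun x hx hc => (ck_iff ha hb hι (ad_mu hx h)).2
      (ck_mu ha hK hx ((ck_iff ha hb hι hx).1 hc) h))
    ((hU h hh).measure_preimage hCm.nullMeasurableSet).le hCm.nullMeasurableSet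
    (measure_ne_top _ _)).symm).2
  have d0 : ∀ᵐ x ∂ν, Ad x := ae_restrict_of_ae had
  have i1 := fun h hh => inv_res (u0 h hh) (meas_At a ν)
    (inv_At ha hb hK ν d0 (ne0 h hh) (u0 h hh))
  set ν1 := ν.restrict (At a ν) with hν1
  have d1 : ∀ᵐ x ∂ν1, Ad x := ae_restrict_of_ae d0
  have i2 := fun h hh => inv_res (i1 h hh).1 (meas_At (1 - a) ν1)
    (inv_At ha' hb hK' ν1 d1 (ne0 h hh) (i1 h hh).1)
  have z1 := four0 ha hb hK ι hι (ν.restrict (At a ν)ᶜ) (ae_restrict_of_ae d0)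
    (fun h hh => (i1 h hh).2) (at_compl ha hb ν d0) hz
  have z2 := four0 ha' hb hK' ι hι' (ν1.restrict (At (1 - a) ν1)ᶜ) (ae_restrict_of_ae d1)
    (fun h hh => (i2 h hh).2) (at_compl ha' hb ν1 d1) hz
  have z3 := atomic2 ha hb hK hι (ν1.restrict (At (1 - a) ν1)) (ae_restrict_of_ae d1)
    (fun h hh => (i2 h hh).1) (kr a ν) (kr (1 - a) ν1)
    (ae_restrict_of_ae (ae_restrict_mem (meas_At a ν))) (ae_restrict_mem (meas_At _ _))
  have z4 : ν1.restrict (At (1 - a) ν1) = 0 := by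
    have h2 : ∀ᵐ x ∂(ν1.restrict (At (1 - a) ν1)), x ∈ Cᶜ :=
      ae_restrict_of_ae (ae_restrict_of_ae (ae_restrict_mem hCm.compl))
    rw [← ae_eq_bot, ← eventually_false_iff_eq_bot]
    filter_upwards [h2, measure_eq_zero_iff_ae_notMem.1 z3] with x h1 h3 using h3 h1
  rw [← integral_add_compl (meas_At a ν) (hint ν), z1, add_zero, ← hν1,
    ← integral_add_compl (meas_At (1 - a) ν1) (hint ν1), z2, z4, integral_zero_measure, add_zero]

end K

variable {Γ : Type} [Field Γ] [CharZero Γ]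

def sub (a : Γ) (b : ℕ) (ha : a * (1 - a) = b) (hb : 2 ≤ b) : Subfield Γ where
  carrier := {z | ∃ p q : ℚ, z = p + q * a}
  mul_mem' := by
    rintro _ _ ⟨p, q, rfl⟩ ⟨p', q', rfl⟩
    exact ⟨p * p' - q * q' * b, p * q' + q * p' + q * q', by
      push_cast; linear_combination (-(q : Γ) * q') * ha⟩
  one_mem' := ⟨1, 0, by simp⟩
  add_mem' := by
    rintro _ _ ⟨p, q, rfl⟩ ⟨p', q', rfl⟩
    exact ⟨p + p', q + q', by push_cast; ring⟩
  zero_mem' := ⟨0, 0, by simp⟩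
  neg_mem' := by
    rintro _ ⟨p, q, rfl⟩
    exact ⟨-p, -q, by push_cast; ring⟩
  inv_mem' := by
    rintro _ ⟨p, q, rfl⟩
    by_cases h : (p : Γ) + q * a = 0
    · exact ⟨0, 0, by simp [h]⟩
    · have h1 : ((p ^ 2 + p * q + b * q ^ 2 : ℚ) : Γ) = (p + q * a) * (p + q - q * a) := by
        push_cast; linear_combination (-(q : Γ) ^ 2) * ha
      have h2 : (p : Γ) + q - q * a ≠ 0 := by
        intro h2
        obtain ⟨h3, h4⟩ := indep ha hb (p := p + q) (q := -q) (by push_cast; linear_combination h2)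
        apply h
        have h5 : q = 0 := by linarith
        have h6 : p = 0 := by linarith
        simp [h5, h6]
      refine ⟨(p + q) / (p ^ 2 + p * q + b * q ^ 2), -q / (p ^ 2 + p * q + b * q ^ 2), ?_⟩
      rw [Rat.cast_div, Rat.cast_div, h1]
      push_cast; field_simp; ring

theorem struc [Countable Γ] {a : Γ} {b : ℕ} (ha : a * (1 - a) = b) (hb : 2 ≤ b) {ι : Γ →+* ℂ}
    (hι : ι (1 - a) = conj (ι a)) (μ : Measure (Γ → T)) [IsFiniteMeasure μ]
    (had : ∀ᵐ x ∂μ, Ad x) (hU : UI ι μ) : ∃ C : Set (Γ → T), MeasurableSet C ∧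
      (∀ p q : ℚ, (p + q * a : Γ) ≠ 0 → ∫ x in Cᶜ, ec (x (p + q * a)) ∂μ = 0) ∧
        ∀ x, Ad x → (x ∈ C ↔ x ∈ CK ι a b) := by
  set K := sub a b ha hb with hKd
  set a' : K := ⟨a, 0, 1, by simp⟩ with ha0
  have ha' : a' * (1 - a') = b := Subtype.ext (by simpa using ha)
  have hK : ∀ z : K, ∃ p q : ℚ, z = p + q * a' := fun z => by
    obtain ⟨p, q, h⟩ := z.2
    exact ⟨p, q, Subtype.ext (by simpa using h)⟩
  have hι' : (ι.comp K.subtype) (1 - a') = conj ((ι.comp K.subtype) a') := by simpa using hι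
  set res : (Γ → T) → (K → T) := fun x z => x z with hres
  have hm : Measurable res := measurable_pi_lambda _ fun z => measurable_pi_apply _
  have hr : ∀ x, Ad x → Ad (res x) := fun x hx u v => hx _ _
  have hCm : MeasurableSet ((fun x : K → T => x ∘ ph (wp a' b)) ⁻¹' CT b) := meas_ph _ (meas_CT b)
  have : IsFiniteMeasure (μ.map res) := Measure.isFiniteMeasure_map _ _
  refine ⟨res ⁻¹' ((fun x : K → T => x ∘ ph (wp a' b)) ⁻¹' CT b), hm hCm, fun p q hj => ?_,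
    fun x hx => ?_⟩
  · have h1 := strucK ha' hb hK hι' (μ.map res)
      ((ae_map_iff hm.aemeasurable meas_Ad).2 (had.mono hr)) (fun h hh => ⟨meas_mu h, by
        rw [Measure.map_map (meas_mu h) hm]
        conv_rhs => rw [← (hU h hh).map_eq, Measure.map_map hm (meas_mu _)]
        rfl⟩) (z := ⟨p + q * a, p, q, rfl⟩) (fun h => hj (congrArg Subtype.val h))
    rw [setIntegral_map hCm.compl (meas_ec _).aestronglyMeasurable hm.aemeasurable] at h1
    simpa [hres] using h1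
  · rw [mem_preimage, mem_preimage, ck_iff ha' hb hι' (hr x hx)]
    simp [CK, hres, el, ha0]

end Pool.Agent.H.MP_8b2bd9_co
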