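import Mathlib
import Pool.Agent.H.MP_8b2bd9_co.G
open MeasureTheory Set Filter Topology ProbabilityTheory
open scoped ENNReal Nat ComplexConjugate
open Pool.Agent.H.MP_fc94d9_co
namespace Pool.Agent.H.MP_8b2bd9_co

theorem ext_four (μ ν : Measure T) [IsFiniteMeasure μ] [IsFiniteMeasure ν]
    (h : ∀ n : ℤ, ∫ u, ec (n • u) ∂μ = ∫ u, ec (n • u) ∂ν) : μ = ν := by
  have hi : ∀ (ρ : Measure T) [IsFiniteMeasure ρ] (f : C(T, ℂ)), Integrable f ρ := fun ρ _ f =>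
    (BoundedContinuousFunction.mkOfCompact f).integrable ρ
  have hc : ∀ (ρ : Measure T) [IsFiniteMeasure ρ], Continuous fun f : C(T, ℂ) => ∫ u, f u ∂ρ := by
    intro ρ _
    refine (LipschitzWith.of_dist_le' (K := ρ.real univ) fun f g => ?_).continuous
    rw [dist_eq_norm, ← integral_sub (hi ρ f) (hi ρ g), mul_comm]
    exact norm_integral_le_of_norm_le_const (Eventually.of_forall fun u => by
      rw [← dist_eq_norm]; exact ContinuousMap.dist_apply_le_dist u)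
  have key : ∀ f : C(T, ℂ), ∫ u, f u ∂μ = ∫ u, f u ∂ν := by
    intro f
    have hf : f ∈ (Submodule.span ℂ (range (fourier (T := 1)))).topologicalClosure := by
      rw [span_fourier_closure_eq_top]; trivial
    refine closure_minimal (t := {f : C(T, ℂ) | ∫ u, f u ∂μ = ∫ u, f u ∂ν}) (fun g hg => ?_)
      (isClosed_eq (hc μ) (hc ν)) hf
    induction hg using Submodule.span_induction with
    | mem x hx => obtain ⟨n, rfl⟩ := hx; exact h n
    | zero => simp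
    | add x y _ _ h1 h2 =>
      simp only [mem_setOf_eq, ContinuousMap.add_apply] at h1 h2 ⊢
      rw [integral_add (hi _ _) (hi _ _), integral_add (hi _ _) (hi _ _), h1, h2]
    | smul c x _ h1 =>
      simp only [mem_setOf_eq, ContinuousMap.smul_apply] at h1 ⊢
      rw [integral_smul, integral_smul, h1]
  refine ext_of_forall_integral_eq_of_IsFiniteMeasure fun f => ?_
  have := key ⟨fun u => (f u : ℂ), by fun_prop⟩
  simp only [ContinuousMap.coe_mk, integral_complex_ofReal] at this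
  exact_mod_cast this

variable {Γ : Type} [Field Γ] [CharZero Γ]

def Lin (x : Γ → T) (d : ℕ) (ξ : ℝ) : Prop :=
  ∀ k : ℕ, d • (x (((2 : Γ) ^ k)⁻¹) - ((ξ / 2 ^ k : ℝ) : T)) = 0

def RR (Γ : Type) [Field Γ] : Set (Γ → T) := {x | ∃ d, 0 < d ∧ ∃ ξ, Lin x d ξ}

theorem null_R (ν : Measure (Γ → T)) [IsFiniteMeasure ν] (had : ∀ᵐ x ∂ν, Ad x)
    (h : ∀ j : ℚ, j ≠ 0 → ∫ x, ec (x j) ∂ν = 0) : ν (RR Γ) = 0 := by
  have hm : ∀ d k : ℕ, Measurable fun x : Γ → T => (d + 1) • x (((2 : Γ) ^ k)⁻¹) := fun d k =>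
    (continuous_nsmul _).measurable.comp (measurable_pi_apply _)
  have h1 : ∀ (d k : ℕ) (n : ℤ), n ≠ 0 →
      ∫ x, ec (n • (d + 1) • x (((2 : Γ) ^ k)⁻¹)) ∂ν = 0 := by
    intro d k n hn
    rw [← h (n * (d + 1) / 2 ^ k) (by positivity)]
    refine integral_congr_ae (had.mono fun x hx => ?_)
    dsimp only
    rw [← hx.nsmul, ← hx.zsmul]
    congr 2
    simp [div_eq_mul_inv, mul_assoc]
  have h2 : ∀ d k : ℕ, ν.map (fun x : Γ → T => (d + 1) • x (((2 : Γ) ^ k)⁻¹)) =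
      ν.map (fun x : Γ → T => (d + 1) • x (((2 : Γ) ^ 0)⁻¹)) := by
    intro d k
    have hme : ∀ n : ℤ, Measurable fun u : T => ec (n • u) := fun n =>
      (cont_ec.comp (continuous_zsmul n)).measurable
    refine ext_four _ _ fun n => ?_
    rw [integral_map (hm d k).aemeasurable (hme n).aestronglyMeasurable,
      integral_map (hm d 0).aemeasurable (hme n).aestronglyMeasurable]
    by_cases hn : n = 0
    · simp [hn]
    · rw [h1 d k n hn, h1 d 0 n hn]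
  have h3 : RR Γ ⊆ ⋃ d : ℕ, ⋃ c : ℕ, {x | ∀ k : ℕ,
      (d + 1) • x (((2 : Γ) ^ k)⁻¹) ∈ Metric.closedBall (0 : T) (c / 2 ^ k)} := by
    rintro x ⟨d, hd, ξ, hx⟩
    obtain ⟨d, rfl⟩ := Nat.exists_eq_succ_of_ne_zero hd.ne'
    obtain ⟨c, hc⟩ := exists_nat_ge (((d + 1 : ℕ) : ℝ) * |ξ|)
    refine mem_iUnion₂.2 ⟨d, c, fun k => ?_⟩
    have := hx k
    rw [smul_sub, sub_eq_zero, ← AddCircle.coe_nsmul] at this
    rw [mem_closedBall_zero_iff, this]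
    refine (norm_coe_le _).trans ?_
    rw [nsmul_eq_mul, ← mul_div_assoc, abs_div, abs_mul, abs_of_pos (by positivity : (0 : ℝ) < 2 ^ k),
      Nat.abs_cast]
    gcongr
  refine measure_mono_null h3 (measure_iUnion_null fun d => measure_iUnion_null fun c => ?_)
  set P := ν.map (fun x : Γ → T => (d + 1) • x (((2 : Γ) ^ 0)⁻¹)) with hP
  have h4 := tendsto_measure_iInter_atTop (μ := P)
    (s := fun k : ℕ => Metric.closedBall (0 : T) (c / 2 ^ k))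
    (fun k => measurableSet_closedBall.nullMeasurableSet)
    (fun a b hab => Metric.closedBall_subset_closedBall (by gcongr; norm_num))
    ⟨0, measure_ne_top _ _⟩
  have h5 : P (⋂ k : ℕ, Metric.closedBall (0 : T) (c / 2 ^ k)) = 0 := by
    refine measure_mono_null (t := {0}) (fun u hu => ?_) ?_
    · have h6 := (tendsto_pow_atTop_atTop_of_one_lt (one_lt_two (α := ℝ))).const_div_atTop (c : ℝ)
      exact norm_le_zero_iff.1 (ge_of_tendsto' h6 fun k =>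
        mem_closedBall_zero_iff.1 (mem_iInter.1 hu k))
    · rw [hP, Measure.map_apply (hm d 0) (measurableSet_singleton _)]
      exact noatom ν _ (hm d 0) (fun j => by
        have := h1 d 0 (j + 1 : ℕ) (by positivity)
        simpa only [natCast_zsmul] using this) 0
  rw [h5] at h4
  refine le_antisymm (ge_of_tendsto' h4 fun k => ?_) zero_le
  change _ ≤ P (Metric.closedBall (0 : T) (c / 2 ^ k))
  rw [hP, ← h2 d k, Measure.map_apply (hm d k) measurableSet_closedBall]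
  exact measure_mono fun x hx => hx k

omit [CharZero Γ] in
theorem uniq1 {x : Γ → T} {d e : ℕ} (hd : 0 < d) (he : 0 < e) {ξ ζ : ℝ} (h1 : Lin x d ξ)
    (h2 : Lin x e ζ) : ξ = ζ := by
  obtain ⟨k, hk⟩ := pow_unbounded_of_one_lt (((d * e : ℕ) : ℝ) * |ξ - ζ|) (one_lt_two (α := ℝ))
  have hp : (0 : ℝ) < 2 ^ k := by positivity
  have := coe_small (Nat.mul_pos hd he) (r := (ξ - ζ) / 2 ^ k) (by
    have e1 : (((ξ - ζ) / 2 ^ k : ℝ) : T) = (x (((2 : Γ) ^ k)⁻¹) - ((ζ / 2 ^ k : ℝ) : T)) -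
        (x (((2 : Γ) ^ k)⁻¹) - ((ξ / 2 ^ k : ℝ) : T)) := by
      rw [sub_div, AddCircle.coe_sub]; abel
    rw [e1, smul_sub, mul_nsmul', h2 k, mul_nsmul, h1 k]; simp) (by
    rw [abs_div, abs_of_pos hp, ← mul_div_assoc, div_lt_one hp]; exact hk)
  exact sub_eq_zero.1 ((div_eq_zero_iff.1 this).resolve_right hp.ne')

theorem ck_lin {ι : Γ →+* ℂ} {a : Γ} {c d : ℕ} (hc : 0 < c) {x : Γ → T} {ε : ℂ}
    (h : ∀ (k : ℕ) (p q : ℤ), d • (x - el ι ε) ((((2 * c : ℕ) : Γ) ^ k)⁻¹ * (p + q * a)) = 0) :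
    Lin x d ε.re := by
  intro k
  have := h k (c ^ k) 0
  have c0 : (c : Γ) ≠ 0 := by exact_mod_cast hc.ne'
  rw [show (((2 * c : ℕ) : Γ) ^ k)⁻¹ * (((c ^ k : ℤ) : Γ) + ((0 : ℤ) : Γ) * a) = ((2 : Γ) ^ k)⁻¹ by
    push_cast; rw [mul_pow]; field_simp; ring] at this
  rw [← this, Pi.sub_apply, el]
  congr 3
  rw [map_inv₀, map_pow, map_ofNat, ← div_eq_mul_inv]
  exact_mod_cast (Complex.div_ofReal_re ε (2 ^ k)).symm

theorem lin_one {ι : Γ →+* ℂ} {θ : ℕ → Γ} {x : Γ → T} (hx : Ad x)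
    (h : ∀ B, x ∈ CK ι (θ (B + 2)!) ((B + 2)! ^ 2)) {d : ℕ} (hd : 0 < d) {ξ : ℝ}
    (h1 : Lin x d ξ) : Lin x 1 ξ := by
  obtain ⟨e, he, ε, h2⟩ := h d
  obtain ⟨c, hc⟩ : 2 ∣ (d + 2)! ^ 2 :=
    (Nat.dvd_factorial two_pos (by omega)).trans (dvd_pow_self _ two_ne_zero)
  have hdv : d ∣ (d + 2)! ^ 2 :=
    (Nat.dvd_factorial hd (by omega)).trans (dvd_pow_self _ two_ne_zero)
  have b0 : 0 < (d + 2)! ^ 2 := pow_pos (Nat.factorial_pos _) _
  obtain ⟨f, a1, a2, g, a3⟩ := strip ((d + 2)! ^ 2) e e he Nat.lt_two_pow_self.le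
  generalize (d + 2)! ^ 2 = b at *
  have b1 : (b : Γ) ≠ 0 := by exact_mod_cast b0.ne'
  have h3 : ∀ (k : ℕ) (p q : ℤ),
      f • (x - el ι ε) (((b : Γ) ^ k)⁻¹ * (p + q * θ (d + 2)!)) = 0 := by
    intro k p q
    have e1 : ((b : Γ) ^ k)⁻¹ * (p + q * θ (d + 2)!) =
        b ^ e • (((b : Γ) ^ (k + e))⁻¹ * (p + q * θ (d + 2)!)) := by
      rw [nsmul_eq_mul, pow_add]; push_cast; field_simp
    rw [e1, (ad_sub hx (ad_el ι ε)).nsmul, ← mul_nsmul', a3, mul_nsmul, h2, smul_zero]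
  subst hc
  have h4 := ck_lin (by omega) h3
  rw [← uniq1 hd (Nat.pos_of_dvd_of_pos a1 he) h1 h4] at h4
  intro k
  have := Nat.eq_one_of_dvd_coprimes (Nat.Coprime.coprime_dvd_right hdv a2)
    (addOrderOf_dvd_of_nsmul_eq_zero (h4 k)) (addOrderOf_dvd_of_nsmul_eq_zero (h1 k))
  rw [AddMonoid.addOrderOf_eq_one_iff.1 this, smul_zero]

theorem ck_rot {ι : Γ →+* ℂ} {a : Γ} (ha : a * (1 - a) = (4 : ℕ)) {x : Γ → T} (hx : Ad x)
    (h : x ∈ CK ι a 4) : ∃ ε : ℂ, ∀ p q : ℚ, ∃ d, 0 < d ∧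
      Lin (mu (p + q * a) x) d (ε * ι (p + q * a)).re := by
  obtain ⟨d, hd, ε, h⟩ := h
  refine ⟨ε, fun p q => ⟨d * (p.den * q.den), Nat.mul_pos hd (Nat.mul_pos p.pos q.pos), ?_⟩⟩
  refine ck_lin (ι := ι) (a := 0) (c := 2) two_pos fun k p' q' => ?_
  have e : (mu (p + q * a) x - el ι (ε * ι (p + q * a))) ((((2 * 2 : ℕ) : Γ) ^ k)⁻¹ * (p' + q' * 0)) =
      (x - el ι ε) ((p + q * a) * ((((2 * 2 : ℕ) : Γ) ^ k)⁻¹ * (p' + q' * 0))) := by
    simp only [Pi.sub_apply, mu, el, map_mul ι (p + q * a), mul_assoc]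
  rw [e, mul_nsmul', ← (ad_sub hx (ad_el ι ε)).nsmul,
    ← h k (p.num * q.den * p') (q.num * p.den * p')]
  refine congrArg (fun z => d • (x - el ι ε) z) ?_
  have h1 : (p.den : Γ) * p = p.num := by exact_mod_cast Rat.den_mul_eq_num p
  have h2 : (q.den : Γ) * q = q.num := by exact_mod_cast Rat.den_mul_eq_num q
  rw [nsmul_eq_mul]
  push_cast
  linear_combination ((4 : Γ) ^ k)⁻¹ * p' * q.den * h1 + ((4 : Γ) ^ k)⁻¹ * p' * p.den * a * h2

theorem cont_part [Countable Γ] {ι : Γ →+* ℂ} {θ : ℕ → Γ}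
    (h1 : ∀ N, 1 ≤ N → θ N * (1 - θ N) = (N ^ 2 : ℕ))
    (h2 : ∀ N, ι (1 - θ N) = conj (ι (θ N))) (μ : Measure (Γ → T)) [IsFiniteMeasure μ]
    (had : ∀ᵐ x ∂μ, Ad x) (hU : UI ι μ) : ∃ C : Set (Γ → T), MeasurableSet C ∧ 0 ∈ C ∧
      (∀ p q : ℚ, (p + q * θ 2 : Γ) ≠ 0 → ∫ x in Cᶜ, ec (x (p + q * θ 2)) ∂μ = 0) ∧
      ∀ᵐ x ∂μ, x ∈ C → ∃ ε : ℂ, ∀ p q : ℚ,
        ‖ι (p + q * θ 2)‖ = 1 → Lin (mu (p + q * θ 2) x) 1 (ε * ι (p + q * θ 2)).re := by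
  have h3 : ∀ᵐ x ∂μ, x ∈ RR Γ → ∀ B, x ∈ CK ι (θ (B + 2)!) ((B + 2)! ^ 2) := by
    simp only [imp_forall_iff, ae_all_iff]
    intro B
    have b2 : 2 ≤ (B + 2)! := Nat.le_of_dvd (Nat.factorial_pos _)
      (Nat.dvd_factorial two_pos (by omega))
    obtain ⟨C, c1, c2, c3⟩ := struc (h1 _ (by omega)) (by nlinarith) (h2 (B + 2)!) μ had hU
    have c4 := null_R (μ.restrict Cᶜ) (ae_restrict_of_ae had) fun j hj => by
      simpa using c2 j 0 (by simpa using hj)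
    rw [Measure.restrict_apply' c1.compl] at c4
    filter_upwards [had, measure_eq_zero_iff_ae_notMem.1 c4] with x hx d1 d2
    by_contra d3
    exact d1 ⟨d2, fun d4 => d3 ((c3 x hx).1 d4)⟩
  have h4 : ∀ᵐ x ∂μ, ∀ u : Γ, ‖ι u‖ = 1 → mu u x ∈ RR Γ →
      ∀ B, mu u x ∈ CK ι (θ (B + 2)!) ((B + 2)! ^ 2) := by
    rw [ae_all_iff]
    intro u
    by_cases hu : ‖ι u‖ = 1
    · exact ((hU u hu).quasiMeasurePreserving.ae h3).mono fun x hx _ => hx
    · exact Eventually.of_forall fun x h => (hu h).elim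
  obtain ⟨C, c1, c2, c3⟩ := struc (h1 2 one_le_two) (by norm_num) (h2 2) μ had hU
  refine ⟨C, c1, (c3 0 fun _ _ => by simp).2 ⟨1, one_pos, 0, by simp [el]⟩, c2, ?_⟩
  filter_upwards [had, h4] with x hx d1 d2
  obtain ⟨ε, d3⟩ := ck_rot (h1 2 one_le_two) hx ((c3 x hx).1 d2)
  refine ⟨ε, fun p q hu => ?_⟩
  obtain ⟨d, d4, d5⟩ := d3 p q
  exact lin_one (ad_mu hx _) (d1 _ hu ⟨d, d4, _, d5⟩) d4 d5

end Pool.Agent.H.MP_8b2bd9_co
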