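import Mathlib
import Pool.Agent.H.MP_8b2bd9_co.H
open MeasureTheory Set Filter Topology ProbabilityTheory Real
open scoped ENNReal Nat ComplexConjugate
open Pool.Agent.H.MP_fc94d9_co
namespace Pool.Agent.H.MP_8b2bd9_co

noncomputable def Jr (a : ℝ) : ℂ := ∫ θ in (-π)..π, er (a * cos θ)

theorem Jr_rot (j a b : ℝ) :
    ∫ θ in (-π)..π, er (j * (a * cos θ + b * sin θ)) = Jr (j * ‖(⟨a, b⟩ : ℂ)‖) := by
  set z : ℂ := ⟨a, b⟩ with hz
  have h1 : ‖z‖ * cos z.arg = a := Complex.norm_mul_cos_arg z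
  have h2 : ‖z‖ * sin z.arg = b := Complex.norm_mul_sin_arg z
  set g : ℝ → ℂ := fun θ => er (j * ‖z‖ * cos θ) with hg
  have hp : Function.Periodic g (2 * π) := fun θ => by simp only [hg, cos_add_two_pi]
  have e1 : ∀ θ, er (j * (a * cos θ + b * sin θ)) = g (θ - z.arg) := fun θ => by
    simp only [hg]; congr 1; rw [cos_sub, ← h1, ← h2]; ring
  simp only [e1]
  rw [intervalIntegral.integral_comp_sub_right g]
  have e2 := hp.intervalIntegral_add_eq (-π - z.arg) (-π)
  rw [show -π - z.arg + 2 * π = π - z.arg by ring, show -π + 2 * π = π by ring] at e2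
  exact e2

theorem Jr_lim : Tendsto Jr atTop (𝓝 0) := by
  have h3 : Tendsto (fun a : ℝ => -a) atTop (cocompact ℝ) :=
    tendsto_neg_atTop_atBot.mono_right atBot_le_cocompact
  have h4 := (osc0.comp h3).const_mul 2
  rw [mul_zero] at h4
  refine h4.congr fun a => ?_
  set g : ℝ → ℂ := fun θ => er (a * cos θ) with hg
  have hc : Continuous g := by rw [hg]; fun_prop
  have e0 : ∀ θ, er (-(cos θ * -a)) = g θ := fun θ => by simp only [hg]; congr 1; ring
  simp only [Function.comp, e0]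
  change _ = ∫ θ in (-π)..π, g θ
  rw [← intervalIntegral.integral_add_adjacent_intervals (b := 0)
    (hc.intervalIntegrable (-π) _) (hc.intervalIntegrable _ π)]
  have e3 := intervalIntegral.integral_comp_neg (a := 0) (b := π) g
  have e4 : ∀ θ, g (-θ) = g θ := fun θ => by simp only [hg, cos_neg]
  simp only [e4, neg_zero] at e3
  rw [← e3, two_mul]

theorem Jr_cont : Continuous Jr :=
  intervalIntegral.continuous_parametric_intervalIntegral_of_continuous' (by
    unfold Function.uncurry; fun_prop) _ _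

theorem Jr_zero : Jr 0 = 2 * π := by
  simp [Jr, er, ec_zero, two_mul]

theorem Jr_le (a : ℝ) : ‖Jr a‖ ≤ 2 * π := by
  have := intervalIntegral.norm_integral_le_of_norm_le_const (a := -π) (b := π) (C := 1)
    (f := fun θ => er (a * cos θ)) fun _ _ => (norm_er _).le
  rwa [one_mul, sub_neg_eq_add, ← two_mul, abs_of_pos two_pi_pos] at this

theorem er_tri (a b : ℝ) : -(3 / 2) ≤ (er a + er b + er (a - b)).re := by
  have h1 := Complex.sq_norm (er a)
  have h2 := Complex.sq_norm (er b)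
  rw [norm_er, Complex.normSq_apply] at h1 h2
  rw [er_sub]
  simp only [Complex.add_re, Complex.mul_re, Complex.conj_re, Complex.conj_im]
  nlinarith [sq_nonneg (1 + (er a).re + (er b).re), sq_nonneg ((er a).im + (er b).im)]

theorem Jr_ge (a : ℝ) : -π ≤ (Jr a).re := by
  have s3 : √3 * √3 = 3 := mul_self_sqrt (by norm_num)
  have n1 : ∀ b : ℝ, b * b = 3 / 4 → ‖(⟨1 / 2, b⟩ : ℂ)‖ = 1 := fun b hb => by
    rw [← sq_eq_sq₀ (norm_nonneg _) zero_le_one, Complex.sq_norm, Complex.normSq_mk, hb]; norm_num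
  have h1 := Jr_rot a (1 / 2) (√3 / 2)
  have h2 := Jr_rot a (1 / 2) (-(√3 / 2))
  rw [n1 _ (by linarith), mul_one] at h1 h2
  have hc : Continuous fun θ => er (a * cos θ) + er (a * (1 / 2 * cos θ + √3 / 2 * sin θ)) +
      er (a * (1 / 2 * cos θ + -(√3 / 2) * sin θ)) := by fun_prop
  have b1 := intervalIntegral.intervalIntegral_re (hc.intervalIntegrable (μ := volume) (-π) π)
  have b2 := intervalIntegral.integral_mono_on (μ := volume) (neg_le_self pi_pos.le)
    (intervalIntegrable_const (c := -(3 / 2 : ℝ)))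
    ((Complex.continuous_re.comp hc).intervalIntegrable (-π) π) fun θ _ => by
      have := er_tri (a * cos θ) (a * (1 / 2 * cos θ + √3 / 2 * sin θ))
      rwa [show a * cos θ - a * (1 / 2 * cos θ + √3 / 2 * sin θ) =
        a * (1 / 2 * cos θ + -(√3 / 2) * sin θ) by ring] at this
  rw [intervalIntegral.integral_const, smul_eq_mul] at b2
  have b3 := b2.trans (le_of_eq b1)
  rw [intervalIntegral.integral_add (Continuous.intervalIntegrable (by fun_prop) _ _)
    (Continuous.intervalIntegrable (by fun_prop) _ _), intervalIntegral.integral_add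
    (Continuous.intervalIntegrable (by fun_prop) _ _)
    (Continuous.intervalIntegrable (by fun_prop) _ _), h1, h2] at b3
  change _ ≤ (Jr a + Jr a + Jr a).re at b3
  simp only [Complex.add_re] at b3
  linarith

theorem lp {g : ℝ → ℝ} (hc : Continuous g) (h0 : g 0 = 1) (h1 : ∀ a, -(1 / 2) ≤ g a)
    (h2 : Tendsto g atTop (𝓝 0)) {c : ℝ} (c1 : 1 ≤ c) (c3 : c < 3) (r : ℕ) :
    ∃ M : ℕ, 2 ≤ M ∧ ∀ ρ : ℝ, 0 ≤ ρ →
      0 ≤ 1 + ∑ i ∈ Finset.range r, c ^ i * (c - 1) * g (M ^ i * ρ) := by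
  have c4 : 0 < 3 - c := by linarith
  set η : ℝ := (3 - c) / 2 / c ^ r with hη
  have η0 : 0 < η := by positivity
  obtain ⟨δ, δ0, hδ⟩ := Metric.continuous_iff.1 hc 0 η η0
  obtain ⟨R, hR⟩ := eventually_atTop.1 (h2.eventually (lt_mem_nhds (neg_lt_zero.2 η0)))
  obtain ⟨M, hM⟩ := exists_nat_ge (max 2 (R / δ))
  have M2 : (2 : ℝ) ≤ M := (le_max_left _ _).trans hM
  have M3 : R ≤ M * δ := (div_le_iff₀ δ0).1 ((le_max_right _ _).trans hM)
  refine ⟨M, by exact_mod_cast M2, fun ρ hρ => ?_⟩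
  have key : ∀ n : ℕ, (c ^ n - η * c ^ n ≤
      1 + ∑ i ∈ Finset.range n, c ^ i * (c - 1) * g (M ^ i * ρ)) ∨
      ((3 - c) / 2 - η * c ^ n ≤ 1 + ∑ i ∈ Finset.range n, c ^ i * (c - 1) * g (M ^ i * ρ) ∧
        R ≤ M ^ n * ρ) := by
    intro n
    induction n with
    | zero => left; simp [η0.le]
    | succ n ih =>
      have s1 : (1 : ℝ) ≤ c ^ n := one_le_pow₀ c1
      have s2 : 0 ≤ c ^ n * (c - 1) := mul_nonneg (by linarith) (by linarith)
      have a0 : (0 : ℝ) ≤ M ^ n * ρ := by positivity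
      rw [Finset.sum_range_succ, pow_succ, pow_succ (M : ℝ)]
      rcases ih with ih | ⟨ih, ih'⟩
      · by_cases ha : (M : ℝ) ^ n * ρ < δ
        · left
          have := hδ (M ^ n * ρ) (by rwa [dist_zero_right, Real.norm_of_nonneg a0])
          rw [h0, Real.dist_eq, abs_lt] at this
          nlinarith [mul_le_mul_of_nonneg_left this.1.le s2]
        · right
          have := mul_le_mul_of_nonneg_left (h1 (M ^ n * ρ)) s2
          constructor
          · nlinarith [mul_nonneg η0.le s2, mul_le_mul_of_nonneg_left s1 c4.le]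
          · nlinarith
      · right
        have := mul_le_mul_of_nonneg_left (hR _ ih').le s2
        constructor
        · nlinarith
        · nlinarith
  have s1 : (1 : ℝ) ≤ c ^ r := one_le_pow₀ c1
  have s2 : η * c ^ r = (3 - c) / 2 := by
    rw [hη, div_mul_cancel₀ _ (by positivity)]
  rcases key r with h | h
  · linarith
  · linarith [h.1]

variable {Γ : Type} [Field Γ] [CharZero Γ]

noncomputable def lm (x : Γ → T) : ℝ :=
  liminf (fun k : ℕ => 2 ^ k * (rep (x (((2 : Γ) ^ k)⁻¹) + ((1 / 2 : ℝ) : T)) - 1 / 2)) atTop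

omit [CharZero Γ] in
theorem meas_lm : Measurable (lm (Γ := Γ)) := by
  refine Measurable.liminf fun k => ?_
  have : Measurable fun x : Γ → T => x (((2 : Γ) ^ k)⁻¹) := measurable_pi_apply _
  exact ((meas_rep.comp (this.add_const _)).sub_const _).const_mul _

omit [CharZero Γ] in
theorem lm_eq {x : Γ → T} {ξ : ℝ} (h : Lin x 1 ξ) : lm x = ξ := by
  refine Tendsto.liminf_eq (tendsto_const_nhds.congr' ?_)
  have h6 := (tendsto_pow_atTop_atTop_of_one_lt (one_lt_two (α := ℝ))).const_div_atTop ξ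
  filter_upwards [h6.eventually (Ioo_mem_nhds (a := -(1 / 2)) (b := 1 / 2) (by norm_num)
    (by norm_num))] with k hk
  have := h k
  rw [one_smul, sub_eq_zero] at this
  rw [this, ← AddCircle.coe_add, rep_coe, Int.fract_eq_self.2 ⟨by linarith [hk.1], by linarith [hk.2]⟩]
  field_simp; ring

theorem circ [Countable Γ] {ι : Γ →+* ℂ} {θ : ℕ → Γ}
    (h1 : ∀ N, 1 ≤ N → θ N * (1 - θ N) = (N ^ 2 : ℕ))
    (h2 : ∀ N, ι (1 - θ N) = conj (ι (θ N))) (μ : Measure (Γ → T)) [IsFiniteMeasure μ]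
    (had : ∀ᵐ x ∂μ, Ad x) (hU : UI ι μ) : ∃ C : Set (Γ → T), MeasurableSet C ∧ 0 ∈ C ∧
      ∃ ρ : (Γ → T) → ℝ, Measurable ρ ∧ (∀ x, 0 ≤ ρ x) ∧ ρ 0 = 0 ∧
        ∀ j : ℕ, j ≠ 0 → 2 * π * ∫ x, ec (x j) ∂μ = ∫ x in C, Jr (j * ρ x) ∂μ := by
  obtain ⟨C, c1, c2, c3, c4⟩ := cont_part h1 h2 μ had hU
  set a := θ 2 with ha
  have a1 : (ι a).re = 1 / 2 := by
    have := congrArg Complex.re (h2 2)
    simp only [map_sub, map_one, Complex.sub_re, Complex.one_re, Complex.conj_re] at this
    linarith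
  have a2 : (ι a).im ^ 2 = 15 / 4 := by
    have := congrArg Complex.re (congrArg ι (h1 2 one_le_two))
    simp only [map_mul, map_sub, map_one, map_natCast, Complex.mul_re, Complex.sub_re,
      Complex.one_re, Complex.sub_im, Complex.one_im, Complex.natCast_re, ← ha, a1] at this
    push_cast at this
    linarith
  have a3 : ∀ p q : ℚ, p ^ 2 + p * q + 4 * q ^ 2 = 1 → ‖ι (p + q * a)‖ = 1 := by
    intro p q h
    have h' : (p : ℝ) ^ 2 + p * q + 4 * q ^ 2 = 1 := by exact_mod_cast h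
    rw [← sq_eq_sq₀ (norm_nonneg _) zero_le_one, Complex.sq_norm, Complex.normSq_apply]
    simp only [map_add, map_mul, map_ratCast, Complex.add_re, Complex.mul_re, Complex.ratCast_re,
      Complex.ratCast_im, Complex.add_im, Complex.mul_im, a1]
    linear_combination h' + (q : ℝ) ^ 2 * a2
  set A : (Γ → T) → ℝ := fun x => lm (mu (((1 : ℚ) : Γ) + (0 : ℚ) * a) x) with hA
  set B : (Γ → T) → ℝ := fun x =>
    8 * lm (mu (((-1 : ℚ) : Γ) + (1 / 4 : ℚ) * a) x) + 7 * A x with hB
  have mA : Measurable A := meas_lm.comp (meas_mu _)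
  have mB : Measurable B := ((meas_lm.comp (meas_mu _)).const_mul _).add (mA.const_mul _)
  have z0 : ∀ u : Γ, lm (mu u 0) = 0 := fun u => lm_eq fun k => by simp [mu]
  set Φ : ℝ × ℝ → ℂ := fun s => ∫ x in C, er (s.1 * A x + s.2 * B x) ∂μ with hΦ
  have mE : ∀ s : ℝ × ℝ, Measurable fun x => er (s.1 * A x + s.2 * B x) := fun s =>
    cont_er.measurable.comp ((mA.const_mul _).add (mB.const_mul _))
  have cΦ : Continuous Φ := continuous_of_dominated (bound := fun _ => 1)
    (fun s => (mE s).aestronglyMeasurable)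
    (fun _ => Eventually.of_forall fun _ => (norm_er _).le) (integrable_const _)
    (Eventually.of_forall fun _ => by fun_prop)
  have s0 : 0 < √(15 : ℝ) := by positivity
  refine ⟨C, c1, c2, fun x => ‖(⟨A x, B x / √15⟩ : ℂ)‖, ?_, fun _ => norm_nonneg _, ?_,
    fun j hj => ?_⟩
  · exact (Complex.measurableEquivRealProd.symm.measurable.comp
      (mA.prodMk (mB.div_const _))).norm
  · simp only [hB, hA, z0]; simp [← Complex.ext_iff]; rfl
  have b1 : ∀ al be : ℚ, al ^ 2 + 15 * be ^ 2 = 1 → Φ (j * al, j * be) = ∫ x, ec (x j) ∂μ := by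
    intro al be h
    have hu := a3 (al - be) (2 * be) (by linear_combination h)
    set u : Γ := ((al - be : ℚ) : Γ) + (2 * be : ℚ) * a with hud
    have u0 : u ≠ 0 := by rintro h; simp [h] at hu
    have e1 : (((j * (al - be) : ℚ) : Γ) + (j * (2 * be) : ℚ) * a) = u * j := by
      rw [hud]; push_cast; ring
    have d1 := c3 (j * (al - be)) (j * (2 * be)) (by
      rw [e1]; exact mul_ne_zero u0 (by exact_mod_cast hj))
    rw [e1] at d1
    rw [← mp_int (hU u hu) (meas_ec (j : Γ))]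
    change _ = ∫ x, ec (x (u * j)) ∂μ
    rw [← integral_add_compl c1 (Integrable.of_bound (meas_ec (u * j)).aestronglyMeasurable 1
      (Eventually.of_forall fun x => (norm_ec _).le)), d1, add_zero]
    refine setIntegral_congr_ae c1 ?_
    filter_upwards [had, c4] with x hx d2 d3
    obtain ⟨ε, d4⟩ := d2 d3
    have d5 := lm_eq (d4 1 0 (a3 _ _ (by norm_num)))
    have d6 := lm_eq (d4 (-1) (1 / 4) (a3 _ _ (by norm_num)))
    have d7 := d4 _ _ hu 0
    rw [one_smul, sub_eq_zero, pow_zero, inv_one, pow_zero, div_one, mu, mul_one, ← hud] at d7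
    rw [mul_comm u, ← nsmul_eq_mul j u, hx.nsmul, d7, ← AddCircle.coe_nsmul, er]
    congr 2
    simp only [hB, hA, d5, d6, hud, map_add, map_mul, map_ratCast, mul_add, Complex.add_re,
      Complex.mul_re, Complex.ratCast_re, Complex.ratCast_im, Complex.mul_im, nsmul_eq_mul, a1]
    push_cast; ring
  have b2 : ∀ t : ℝ, Φ (j * ((1 - 15 * t ^ 2) / (1 + 15 * t ^ 2)), j * (2 * t / (1 + 15 * t ^ 2))) =
      ∫ x, ec (x j) ∂μ := by
    intro t
    refine Rat.denseRange_cast.induction_on t (isClosed_eq (cΦ.comp ?_) continuous_const) fun t => ?_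
    · have : ∀ t : ℝ, 1 + 15 * t ^ 2 ≠ 0 := fun t => by positivity
      fun_prop (disch := exact this _)
    · have := b1 ((1 - 15 * t ^ 2) / (1 + 15 * t ^ 2)) (2 * t / (1 + 15 * t ^ 2)) (by
        field_simp; ring)
      push_cast at this
      exact this
  have b3 : ∀ v ∈ Ioo (-π) π, Φ (j * cos v, j * (sin v / √15)) = ∫ x, ec (x j) ∂μ := by
    intro v hv
    have b0 : cos v ≠ -1 := by
      have : 0 < cos (v / 2) := cos_pos_of_mem_Ioo ⟨by linarith [hv.1], by linarith [hv.2]⟩
      have b := cos_sq (v / 2)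
      rw [show 2 * (v / 2) = v by ring] at b
      intro h; rw [h] at b; nlinarith
    have d1 := b2 (tan (v / 2) / √15)
    have d2 : 15 * (tan (v / 2) / √15) ^ 2 = tan (v / 2) ^ 2 := by
      rw [div_pow, sq_sqrt (by norm_num)]; field_simp
    rw [d2, ← cos_eq_two_mul_tan_half_div_one_sub_tan_half_sq v b0] at d1
    rw [sin_eq_two_mul_tan_half_div_one_add_tan_half_sq, ← d1]
    congr 3; ring
  have b4 : ∫ v in (-π)..π, Φ (j * cos v, j * (sin v / √15)) = 2 * π * ∫ x, ec (x j) ∂μ := by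
    rw [intervalIntegral.integral_of_le (neg_le_self pi_pos.le), integral_Ioc_eq_integral_Ioo,
      setIntegral_congr_fun measurableSet_Ioo b3, ← integral_Ioc_eq_integral_Ioo,
      ← intervalIntegral.integral_of_le (neg_le_self pi_pos.le), intervalIntegral.integral_const]
    simp [two_mul]
  have : IsFiniteMeasure (volume.restrict (uIoc (-π) π)) :=
    isFiniteMeasure_restrict.2 (by rw [uIoc]; exact measure_Ioc_lt_top.ne)
  have hm : Measurable (Function.uncurry fun (v : ℝ) (x : Γ → T) =>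
      er (j * cos v * A x + j * (sin v / √15) * B x)) := by
    refine cont_er.measurable.comp ?_
    have m1 : Measurable fun p : ℝ × (Γ → T) => A p.2 := mA.comp measurable_snd
    have m2 : Measurable fun p : ℝ × (Γ → T) => B p.2 := mB.comp measurable_snd
    fun_prop
  rw [← b4]
  simp only [hΦ]
  rw [intervalIntegral_integral_swap (Integrable.of_bound hm.aestronglyMeasurable 1
    (Eventually.of_forall fun _ => (norm_er _).le))]
  refine integral_congr_ae (Eventually.of_forall fun x => ?_)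
  dsimp only
  rw [← Jr_rot]
  refine intervalIntegral.integral_congr fun v _ => ?_
  congr 1; ring

theorem atom_le {c : ℝ} (c0 : 1 ≤ c) (c7 : c < 3) (r : ℕ) : ∃ M : ℕ, 2 ≤ M ∧
   ∀ {Γ : Type} [Field Γ] [CharZero Γ] [Countable Γ]
    {ι : Γ →+* ℂ} {θ : ℕ → Γ} (_ : ∀ N, 1 ≤ N → θ N * (1 - θ N) = (N ^ 2 : ℕ))
    (_ : ∀ N, ι (1 - θ N) = conj (ι (θ N))) (μ : Measure (Γ → T)) [IsProbabilityMeasure μ]
    (_ : ∀ᵐ x ∂μ, Ad x) (_ : UI ι μ) (_ : ∀ i < r, ∫ x, (ec (x (M ^ i))).re ∂μ ≤ 0),
    μ.real {0} * c ^ r ≤ 1 := by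
  set g : ℝ → ℝ := fun a => (Jr a).re / (2 * π) with hg
  have cg : Continuous g := (Complex.continuous_re.comp Jr_cont).div_const _
  have g0 : g 0 = 1 := by simp [hg, Jr_zero]
  have g1 : ∀ a, |g a| ≤ 1 := fun a => by
    rw [hg, abs_div, abs_of_pos two_pi_pos, div_le_one two_pi_pos]
    exact (Complex.abs_re_le_norm _).trans (Jr_le a)
  obtain ⟨M, M2, hM⟩ := lp cg g0 (fun a => by
    rw [hg, le_div_iff₀ two_pi_pos]; linarith [Jr_ge a]) (by
    simpa using ((Complex.continuous_re.tendsto _).comp Jr_lim).div_const (2 * π)) c0 c7 r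
  refine ⟨M, M2, ?_⟩
  intro Γ _ _ _ ι θ h1 h2 μ _ had hU h
  obtain ⟨C, c1, c2, ρ, c3, c4, c5, c6⟩ := circ h1 h2 μ had hU
  have i1 : ∀ j : ℝ, Integrable (fun x => g (j * ρ x)) (μ.restrict C) := fun j =>
    Integrable.of_bound (cg.measurable.comp (c3.const_mul _)).aestronglyMeasurable 1
      (Eventually.of_forall fun x => g1 _)
  have d1 : ∀ i < r, ∫ x in C, g (M ^ i * ρ x) ∂μ ≤ 0 := by
    intro i hi
    have e1 := congrArg Complex.re (c6 (M ^ i) (by positivity))
    have e2 := integral_re (μ := μ) (Integrable.of_bound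
      (meas_ec (((M ^ i : ℕ) : Γ))).aestronglyMeasurable 1
      (Eventually.of_forall fun x => (norm_ec _).le))
    have e3 := integral_re (μ := μ.restrict C) (f := fun x => Jr ((M ^ i : ℕ) * ρ x))
      (Integrable.of_bound (Jr_cont.measurable.comp (c3.const_mul _)).aestronglyMeasurable _
      (Eventually.of_forall fun x => Jr_le _))
    simp only [RCLike.re_to_complex] at e2 e3
    rw [← e3, show (2 * π : ℂ) = ((2 * π : ℝ) : ℂ) by push_cast; rfl, Complex.re_ofReal_mul,
      ← e2] at e1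
    simp only [hg]
    rw [integral_div]
    push_cast at e1
    rw [← e1]
    exact div_nonpos_of_nonpos_of_nonneg (mul_nonpos_of_nonneg_of_nonpos two_pi_pos.le (h i hi))
      two_pi_pos.le
  have i2 : Integrable (fun x => ∑ i ∈ Finset.range r, c ^ i * (c - 1) * g (M ^ i * ρ x))
      (μ.restrict C) := integrable_finsetSum _ fun i _ => (i1 _).const_mul _
  have d2 : ∫ x in C, (1 + ∑ i ∈ Finset.range r, c ^ i * (c - 1) * g (M ^ i * ρ x)) ∂μ ≤ 1 := by
    rw [integral_add (integrable_const _) i2, integral_finsetSum _ fun i _ => (i1 _).const_mul _]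
    have e1 : ∑ i ∈ Finset.range r, ∫ x in C, c ^ i * (c - 1) * g (M ^ i * ρ x) ∂μ ≤ 0 :=
      Finset.sum_nonpos fun i hi => by
        rw [integral_const_mul]
        exact mul_nonpos_of_nonneg_of_nonpos (mul_nonneg (by positivity) (by linarith))
          (d1 i (Finset.mem_range.1 hi))
    have e2 : μ.real C ≤ 1 := measureReal_le_one
    simp only [integral_const, measureReal_restrict_apply_univ, smul_eq_mul, mul_one]
    linarith
  refine le_trans ?_ ((setIntegral_mono_set ((integrable_const _).add i2)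
    (Eventually.of_forall fun x => hM _ (c4 x)) (singleton_subset_iff.2 c2).eventuallyLE).trans d2)
  rw [integral_singleton]
  simp only [Pi.add_apply, c5, mul_zero, g0, mul_one, smul_eq_mul]
  refine le_of_eq ?_
  congr 1
  rw [← Finset.sum_mul, geom_sum_mul]
  ring

end Pool.Agent.H.MP_8b2bd9_co
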