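import Mathlib
import Pool.Agent.H.MP_8b2bd9_co.I
open MeasureTheory Set Filter Topology ProbabilityTheory
open scoped ENNReal Nat ComplexConjugate
open Pool.Agent.H.MP_fc94d9_co hiding Good closed_good exists_good good_avg exists_inv main
namespace Pool.Agent.H.MP_8b2bd9_co

variable {Γ : Type} [Field Γ] [CharZero Γ] [Countable Γ]

def Good (D : Set ℝ) (ι : Γ →+* ℂ) (k : ℕ) (μ : ProbabilityMeasure (Γ → T)) : Prop :=
  (k : ℝ≥0∞)⁻¹ ≤ (μ : Measure (Γ → T)) {0} ∧
    (∀ s, ‖ι s‖ ∈ D → ∫ x, (ec (x s)).re ∂(μ : Measure (Γ → T)) ≤ 0) ∧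
    ∀ a b, 1 ≤ ∫ x, (ec (x a + x b - x (a + b))).re ∂(μ : Measure (Γ → T))

omit [CharZero Γ] in
theorem closed_good (D : Set ℝ) (ι : Γ →+* ℂ) (k : ℕ) : IsClosed {μ | Good D ι k μ} := by
  refine (closed_atom _).inter (IsClosed.inter ?_ ?_)
  · change IsClosed {μ : ProbabilityMeasure (Γ → T) | ∀ s, ‖ι s‖ ∈ D →
      ∫ x, (ec (x s)).re ∂(μ : Measure (Γ → T)) ≤ 0}
    simp only [setOf_forall]
    exact isClosed_iInter fun s => isClosed_iInter fun _ =>
      isClosed_le (cint (cont1 s)) continuous_const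
  · change IsClosed {μ : ProbabilityMeasure (Γ → T) | ∀ a b,
      1 ≤ ∫ x, (ec (x a + x b - x (a + b))).re ∂(μ : Measure (Γ → T))}
    simp only [setOf_forall]
    exact isClosed_iInter fun a => isClosed_iInter fun b =>
      isClosed_le continuous_const (cint (cont2 a b))

omit [CharZero Γ] in
theorem exists_good (D : Set ℝ) (ι : Γ →+* ℂ) {k : ℕ} (col : Γ → Fin k)
    (hcol : ∀ a s, ‖ι s‖ ∈ D → col (a + s) ≠ col a) : ∃ μ, Good D ι k μ := by
  classical
  obtain ⟨μ, h1, h2⟩ := (closed_atom (Γ := Γ) (k : ℝ≥0∞)⁻¹).isCompact.inter_iInter_nonempty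
    (fun i : (Γ × Γ) × ℕ => {μ : ProbabilityMeasure (Γ → T) | (‖ι i.1.1‖ ∈ D →
      ∫ x, (ec (x i.1.1)).re ∂(μ : Measure (Γ → T)) ≤ 1 / ((i.2 : ℝ) + 1))} ∩
      {μ | 1 - 1 / ((i.2 : ℝ) + 1) ≤
        ∫ x, (ec (x i.1.1 + x i.1.2 - x (i.1.1 + i.1.2))).re ∂(μ : Measure (Γ → T))})
    (fun i => by
      refine IsClosed.inter ?_ (isClosed_le continuous_const (cint (cont2 _ _)))
      rw [setOf_forall]
      exact isClosed_iInter fun _ => isClosed_le (cint (cont1 _)) continuous_const)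
    (fun u => by
      set Φ : Finset Γ := u.biUnion fun i => {i.1.1, i.1.2, i.1.1 + i.1.2} with hΦ
      obtain ⟨μ, h1, h2⟩ := fin_step col Φ (ε := 1 / (((u.sup Prod.snd : ℕ) : ℝ) + 1))
        (by positivity)
      refine ⟨μ, h1, mem_iInter₂.2 fun i hi => ?_⟩
      have a1 : i.1.1 ∈ Φ := Finset.mem_biUnion.2 ⟨i, hi, by simp⟩
      have a2 : i.1.2 ∈ Φ := Finset.mem_biUnion.2 ⟨i, hi, by simp⟩
      have a3 : i.1.1 + i.1.2 ∈ Φ := Finset.mem_biUnion.2 ⟨i, hi, by simp⟩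
      have a4 : 1 / (((u.sup Prod.snd : ℕ) : ℝ) + 1) ≤ 1 / ((i.2 : ℝ) + 1) := by
        have : i.2 ≤ u.sup Prod.snd := Finset.le_sup (f := Prod.snd) hi
        gcongr
      constructor
      · intro hs
        have b1 := (h2 (Pi.single ⟨_, a1⟩ 1) fun s => by
          rw [Pi.single_apply]; split_ifs <;> norm_num).1
        simp only [sum_sing] at b1
        exact (b1 fun a => hcol a _ hs).trans a4
      · have b1 := (h2 (Pi.single ⟨_, a1⟩ 1 + Pi.single ⟨_, a2⟩ 1 - Pi.single ⟨_, a3⟩ 1)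
          fun s => by
            simp only [Pi.sub_apply, Pi.add_apply, Pi.single_apply]; split_ifs <;> norm_num).2
        simp only [Pi.sub_apply, Pi.add_apply, sub_smul, add_smul, Finset.sum_sub_distrib,
          Finset.sum_add_distrib, sum_sing] at b1
        exact le_trans (by linarith) (b1 (sub_self _)))
  have h3 := mem_iInter.1 h2
  refine ⟨μ, h1, fun s hs => ?_, fun a b => ?_⟩
  · exact ge_of_tendsto' tendsto_one_div_add_atTop_nhds_zero_nat fun n => (h3 ((s, s), n)).1 hs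
  · have := (tendsto_one_div_add_atTop_nhds_zero_nat (𝕜 := ℝ)).const_sub 1
    rw [sub_zero] at this
    exact le_of_tendsto' this fun n => (h3 ((a, b), n)).2

omit [CharZero Γ] in
theorem good_avg {D : Set ℝ} {ι : Γ →+* ℂ} {k : ℕ} {μ : ProbabilityMeasure (Γ → T)} (hμ : Good D ι k μ) {h : Γ}
    (hh : ‖ι h‖ = 1) (N : ℕ) : Good D ι k (avg h N μ) := by
  have N0 : (0 : ℝ) < (N : ℝ) + 1 := by positivity
  refine ⟨?_, fun s hs => ?_, fun a b => ?_⟩
  · simp only [avg, ProbabilityMeasure.coe_mk, Measure.smul_apply, Measure.coe_finsetSum,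
      Finset.sum_apply, smul_eq_mul]
    have : ∀ i ∈ Finset.range (N + 1),
        (k : ℝ≥0∞)⁻¹ ≤ ((μ : Measure (Γ → T)).map (mu (h ^ i))) {0} := by
      intro i _
      rw [Measure.map_apply (meas_mu _) (measurableSet_singleton _)]
      refine hμ.1.trans (measure_mono ?_)
      rintro _ rfl; rfl
    calc (k : ℝ≥0∞)⁻¹ = ((N + 1 : ℕ) : ℝ≥0∞)⁻¹ * ∑ _i ∈ Finset.range (N + 1), (k : ℝ≥0∞)⁻¹ := by
          rw [Finset.sum_const, Finset.card_range, nsmul_eq_mul, ← mul_assoc,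
            ENNReal.inv_mul_cancel (by simp) (by simp), one_mul]
      _ ≤ _ := mul_le_mul_right (Finset.sum_le_sum this) _
  · rw [int_avg h N μ (cont1 s)]
    refine mul_nonpos_of_nonneg_of_nonpos (by positivity) (Finset.sum_nonpos fun i _ => ?_)
    exact hμ.2.1 (h ^ i * s) (by
      rwa [map_mul, map_pow, norm_mul, norm_pow, hh, one_pow, one_mul])
  · rw [int_avg h N μ (cont2 a b), le_inv_mul_iff₀ N0]
    have := Finset.card_nsmul_le_sum (Finset.range (N + 1)) (fun i => ∫ x,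
      (ec (mu (h ^ i) x a + mu (h ^ i) x b - mu (h ^ i) x (a + b))).re ∂(μ : Measure (Γ → T))) 1
      fun i _ => by simpa only [mu, mul_add] using hμ.2.2 (h ^ i * a) (h ^ i * b)
    simpa using this

omit [CharZero Γ] in
theorem exists_inv {D : Set ℝ} {ι : Γ →+* ℂ} {k : ℕ} (h0 : ∃ μ, Good D ι k μ) :
    ∃ μ, Good D ι k μ ∧ UI ι (μ : Measure (Γ → T)) := by
  classical
  obtain ⟨μ, h1, h2⟩ := (closed_good D ι k).isCompact.inter_iInter_nonempty
    (fun i : Γ × ℕ => {μ : ProbabilityMeasure (Γ → T) | ‖ι i.1‖ = 1 →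
      Inv i.1 (2 / ((i.2 : ℝ) + 1)) μ})
    (fun i => by
      rw [setOf_forall]
      exact isClosed_iInter fun _ => closed_inv _ _)
    (fun u => by
      induction u using Finset.induction_on with
      | empty => obtain ⟨μ, hμ⟩ := h0; exact ⟨μ, hμ, by simp⟩
      | insert i u hi ih =>
        obtain ⟨μ, a1, a2⟩ := ih
        rw [Finset.set_biInter_insert]
        by_cases hs : ‖ι i.1‖ = 1
        · exact ⟨avg i.1 i.2 μ, good_avg a1 hs _, fun _ => inv_self _ _ _,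
            mem_iInter₂.2 fun j hj hj' => inv_avg (mem_iInter₂.1 a2 j hj hj') _ _⟩
        · exact ⟨μ, a1, fun h => (hs h).elim, a2⟩)
  refine ⟨μ, h1, fun h hh => ⟨meas_mu h, ?_⟩⟩
  change (μ : Measure (Γ → T)).map (mu h) = μ
  refine ext_of_forall_integral_eq_of_IsFiniteMeasure fun f => ?_
  rw [integral_map (meas_mu h).aemeasurable f.continuous.measurable.aestronglyMeasurable,
    ← sub_eq_zero, ← abs_nonpos_iff]
  have := ((tendsto_one_div_add_atTop_nhds_zero_nat (𝕜 := ℝ)).const_mul 2).mul_const ‖f‖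
  rw [mul_zero, zero_mul] at this
  refine ge_of_tendsto' this fun n => ?_
  rw [mul_one_div]
  exact mem_iInter.1 h2 (h, n) hh f f.continuous ‖f‖ fun x => f.norm_coe_le_norm x

omit [CharZero Γ] in
theorem good_ad {D : Set ℝ} {ι : Γ →+* ℂ} {k : ℕ} {μ : ProbabilityMeasure (Γ → T)}
    (h1 : Good D ι k μ) : ∀ᵐ x ∂(μ : Measure (Γ → T)), Ad x := by
  simp only [Ad, ae_all_iff]
  intro a b
  have hb : ∀ u, (ec u).re ≤ 1 := fun u => (Complex.re_le_norm _).trans (norm_ec u).le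
  have i1 := integ (cont2 a b) (μ : Measure (Γ → T))
  have b1 := (integral_eq_zero_iff_of_nonneg (μ := (μ : Measure (Γ → T)))
    (f := fun x : Γ → T => 1 - (ec (x a + x b - x (a + b))).re)
    (fun x => sub_nonneg.2 (hb _)) ((integrable_const _).sub i1)).1 (by
      apply le_antisymm _ (integral_nonneg fun x => sub_nonneg.2 (hb _))
      rw [integral_sub (integrable_const _) i1]
      simpa using h1.2.2 a b)
  filter_upwards [b1] with x hx
  have c1 : (ec (x a + x b - x (a + b))).re = 1 := by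
    have : 1 - (ec (x a + x b - x (a + b))).re = 0 := hx
    linarith
  have c2 := Complex.sq_norm (ec (x a + x b - x (a + b)))
  rw [norm_ec, Complex.normSq_apply, c1] at c2
  have c3 : ec (x a + x b - x (a + b)) = 1 :=
    Complex.ext c1 (mul_self_eq_zero.1 (by linarith))
  exact (sub_eq_zero.1 (ec_eq_one c3)).symm

theorem main (r : ℕ) : ∃ M : ℕ, 2 ≤ M ∧ ∀ (k : ℕ) (c : EuclideanSpace ℝ (Fin 2) → Fin k),
    (∀ x y, ∀ i < r, dist x y = (M : ℝ) ^ i → c x ≠ c y) → 3 ^ r ≤ k := by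
  have t0 : Tendsto (fun b : ℝ => b ^ r) (𝓝[<] 3) (𝓝 (3 ^ r)) :=
    ((continuous_pow r).tendsto 3).mono_left nhdsWithin_le_nhds
  obtain ⟨b, b1, b2⟩ := ((t0.eventually (lt_mem_nhds (sub_one_lt _))).and
    (Ioo_mem_nhdsLT (show (1 : ℝ) < 3 by norm_num))).exists
  obtain ⟨M, M2, hM⟩ := atom_le b2.1.le b2.2 r
  refine ⟨M, M2, fun k c hc => ?_⟩
  have : Countable (algebraicClosure ℚ ℂ) :=
    ((Algebraic.countable ℚ ℂ).mono fun x hx => mem_algebraicClosure_iff.1 hx).to_subtype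
  have hs : ∀ N : ℕ, 1 ≤ N →
      (Complex.I * (√(4 * (N : ℝ) ^ 2 - 1) : ℝ)) ^ 2 = ((1 - 4 * N ^ 2 : ℤ) : ℂ) := by
    intro N hN
    have : (1 : ℝ) ≤ N := by exact_mod_cast hN
    rw [mul_pow, ← Complex.ofReal_pow, Real.sq_sqrt (by nlinarith)]; simp
  have hw : ∀ N : ℕ, Complex.I * (√(4 * (N : ℝ) ^ 2 - 1) : ℝ) ∈ algebraicClosure ℚ ℂ := by
    intro N
    rcases Nat.eq_zero_or_pos N with rfl | hN
    · rw [Real.sqrt_eq_zero_of_nonpos (by norm_num)]; simp
    refine mem_algebraicClosure_iff.2 (IsAlgebraic.of_pow two_pos ?_)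
    rw [hs N hN]
    exact isAlgebraic_int _
  set ι := (algebraicClosure ℚ ℂ).val.toRingHom with hι
  set θ : ℕ → algebraicClosure ℚ ℂ := fun N => (1 + ⟨_, hw N⟩) / 2 with hθ
  have t1 : ∀ N, ι (θ N) = (1 + Complex.I * (√(4 * (N : ℝ) ^ 2 - 1) : ℝ)) / 2 := fun N => by
    simp only [hθ, map_div₀, map_add, map_one, map_ofNat]; rfl
  obtain ⟨μ, h1, h2⟩ := exists_inv (exists_good {d | ∃ i < r, d = (M : ℝ) ^ i} ι
    (fun z => c (Complex.orthonormalBasisOneI.repr z)) fun a s ⟨i, hi, hn⟩ => hc _ _ i hi (by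
      rw [LinearIsometryEquiv.dist_map, dist_eq_norm, ← hn]
      simp [hι]))
  have h3 := hM (ι := ι) (θ := θ) (fun N hN => ι.injective (by
      rw [map_mul, map_sub, map_one, t1, map_natCast]
      have := hs N hN
      push_cast at this ⊢
      linear_combination (-1 / 4 : ℂ) * this))
    (fun N => by
      rw [map_sub, map_one, t1]
      simp only [map_div₀, map_add, map_one, map_mul, Complex.conj_I, Complex.conj_ofReal,
        map_ofNat]
      ring) μ (good_ad h1) h2 fun i hi => h1.2.1 _ ⟨i, hi, by simp⟩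
  have k0 : 0 < k := Fin.pos (c 0)
  have k1 : (0 : ℝ) < k := by exact_mod_cast k0
  have h4 : (k : ℝ)⁻¹ ≤ (μ : Measure (algebraicClosure ℚ ℂ → T)).real {0} := by
    have := ENNReal.toReal_mono (measure_ne_top _ _) h1.1
    rwa [ENNReal.toReal_inv, ENNReal.toReal_natCast] at this
  have b3 : 0 ≤ b ^ r := pow_nonneg (by linarith [b2.1]) r
  have h5 : (k : ℝ)⁻¹ * b ^ r ≤ 1 := le_trans (by gcongr) h3
  rw [inv_mul_le_iff₀ k1, mul_one] at h5
  have h6 : (3 : ℝ) ^ r < k + 1 := by linarith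
  exact Nat.lt_succ_iff.1 (by exact_mod_cast h6)

theorem main2 (r : ℕ) : ∃ S : Finset ℝ, S.card = r ∧ (∀ s ∈ S, 0 < s) ∧ ∀ k : ℕ,
    (SimpleGraph.fromRel (fun x y : EuclideanSpace ℝ (Fin 2) => dist x y ∈ S)).Colorable k →
      3 ^ r ≤ k := by
  classical
  obtain ⟨M, M2, hM⟩ := main r
  have M1 : (1 : ℝ) < M := by exact_mod_cast M2
  refine ⟨(Finset.range r).image fun i => (M : ℝ) ^ i, ?_, fun s hs => ?_, fun k ⟨c⟩ => ?_⟩
  · rw [Finset.card_image_of_injective _ (pow_right_injective₀ (by linarith) M1.ne'),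
      Finset.card_range]
  · obtain ⟨i, -, rfl⟩ := Finset.mem_image.1 hs
    positivity
  · refine hM k c fun x y i hi h => c.valid ?_
    rw [SimpleGraph.fromRel_adj]
    refine ⟨fun e => ?_, Or.inl (Finset.mem_image.2 ⟨i, Finset.mem_range.2 hi, h.symm⟩)⟩
    rw [e, dist_self] at h
    exact (pow_pos (by linarith : (0 : ℝ) < M) i).ne h

theorem main3 : ¬ (∃ C : ℕ, ∀ S : Finset ℝ, (∀ s ∈ S, 0 < s) →
      (SimpleGraph.fromRel
          (fun x y : EuclideanSpace ℝ (Fin 2) => dist x y ∈ S)).chromaticNumber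
        ≤ (((S.card + 1) ^ C : ℕ) : ℕ∞)) := by
  rintro ⟨C, hC⟩
  have h1 := (tendsto_pow_const_div_const_pow_of_one_lt C (r := 3) (by norm_num)).comp
    (tendsto_add_atTop_nat 1)
  obtain ⟨r, hr⟩ := (h1.eventually (gt_mem_nhds (show (0 : ℝ) < 1 / 3 by norm_num))).exists
  obtain ⟨S, a1, a2, a3⟩ := main2 r
  have := a3 _ (SimpleGraph.chromaticNumber_le_iff_colorable.1 (hC S a2))
  rw [Function.comp, div_lt_iff₀ (by positivity), pow_succ] at hr
  rw [a1] at this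
  have h2 : (3 : ℝ) ^ r ≤ ((r + 1 : ℕ) : ℝ) ^ C := by exact_mod_cast this
  linarith

theorem main4 (r : ℕ) : ∃ S : Finset ℝ, S.card = r ∧ (∀ s ∈ S, 0 < s) ∧ ((3 ^ r : ℕ) : ℕ∞) ≤
    (SimpleGraph.fromRel
      (fun x y : EuclideanSpace ℝ (Fin 2) => dist x y ∈ S)).chromaticNumber := by
  obtain ⟨S, a1, a2, a3⟩ := main2 r
  exact ⟨S, a1, a2, SimpleGraph.le_chromaticNumber_iff_colorable.2 fun m hm => a3 m hm⟩

end Pool.Agent.H.MP_8b2bd9_co
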